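import Pool.Agent.H791.GBC.SJet

namespace Pool.Agent.H791.GBC

open MeasureTheory Filter Topology Real

noncomputable section

variable {k m : ℕ}

/-- The derivatives of a map which enter the jets of the induced metric. -/
abbrev ED (k m : ℕ) := (Fin k → Fin m → ℝ) × (Fin k → Fin k → Fin m → ℝ) × (Fin k → Fin m → SJ k)

def ed (F : V k → V m) (y : V k) : ED k m :=
  (fun c j => pd c (fun z => F z j) y, fun d c j => pd d (pd c (fun z => F z j)) y,
    fun a i => sj (pd a (fun z => F z i)) y)

def entry (J : Jet m) (i j : Fin m) : SJ m :=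
  (J.1 i j, fun c => J.2.1 c i j, fun d c => J.2.2 d c i j)

def PsiE (J : Jet m) (E : ED k m) (a b : Fin k) : SJ k :=
  ∑ i, ∑ j, sjm (sjm (sjc (entry J i j) E.1 E.2.1) (E.2.2 a i)) (E.2.2 b j)

def Psi (P : Jet m × ED k m) : Jet k :=
  (fun a b => (PsiE P.1 P.2 a b).1, fun c a b => (PsiE P.1 P.2 a b).2.1 c,
    fun d c a b => (PsiE P.1 P.2 a b).2.2 d c)

theorem PsiE_continuous (a b : Fin k) :
    Continuous fun P : Jet m × ED k m => PsiE P.1 P.2 a b := by
  unfold PsiE
  refine continuous_finsetSum _ fun i _ => continuous_finsetSum _ fun j _ => ?_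
  have h1 : Continuous fun P : Jet m × ED k m => entry P.1 i j := by
    unfold entry; fun_prop
  have h2 : Continuous fun P : Jet m × ED k m => sjc (entry P.1 i j) P.2.1 P.2.2.1 :=
    sjc_continuous.comp (h1.prodMk (by fun_prop : Continuous fun P : Jet m × ED k m =>
      (P.2.1, P.2.2.1)))
  have h3 : Continuous fun P : Jet m × ED k m => P.2.2.2 a i := by fun_prop
  have h4 : Continuous fun P : Jet m × ED k m => P.2.2.2 b j := by fun_prop
  have h5 : Continuous fun P : Jet m × ED k m => sjm (sjc (entry P.1 i j) P.2.1 P.2.2.1)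
      (P.2.2.2 a i) := sjm_continuous.comp (h2.prodMk h3)
  exact sjm_continuous.comp (h5.prodMk h4)

theorem Psi_continuous : Continuous (Psi : Jet m × ED k m → Jet k) := by
  refine Continuous.prodMk ?_ (Continuous.prodMk ?_ ?_)
  · exact continuous_pi fun a => continuous_pi fun b => (PsiE_continuous a b).fst
  · exact continuous_pi fun c => continuous_pi fun a => continuous_pi fun b =>
      (continuous_apply c).comp (PsiE_continuous a b).snd.fst
  · exact continuous_pi fun d => continuous_pi fun c => continuous_pi fun a =>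
      continuous_pi fun b =>
        (continuous_apply c).comp ((continuous_apply d).comp (PsiE_continuous a b).snd.snd)

theorem jet_induced {g : Met m} {F : V k → V m} {y : V k} (hF : ∀ i, ContDiff ℝ (⊤ : ℕ∞) fun z => F z i)
    (hg : ∀ i j, ContDiffAt ℝ 2 (fun x => g x i j) (F y)) :
    jet (induced g F) y = Psi (jet g (F y), ed F y) := by
  have h2 : (2 : WithTop ℕ∞) ≤ ((⊤ : ℕ∞) : WithTop ℕ∞) := by
    have : ((2 : ℕ∞) : WithTop ℕ∞) ≤ ((⊤ : ℕ∞) : WithTop ℕ∞) := WithTop.coe_le_coe.mpr le_top
    exact this
  have hF2 : ContDiffAt ℝ 2 F y := contDiffAt_pi.2 fun i => (hF i).contDiffAt.of_le h2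
  have hp : ∀ a i, ContDiffAt ℝ 2 (pd a (fun z => F z i)) y := fun a i =>
    (pd_smooth (hF i) a).contDiffAt.of_le h2
  have hgF : ∀ i j, ContDiffAt ℝ 2 (fun z => g (F z) i j) y := fun i j =>
    ContDiffAt.comp (g := fun x => g x i j) (f := F) y (hg i j) hF2
  have key : ∀ a b, sj (fun z => induced g F z a b) y = PsiE (jet g (F y)) (ed F y) a b := by
    intro a b
    have e0 : (fun z => induced g F z a b) = fun z => ∑ i, ∑ j, g (F z) i j *
        pd a (fun z => F z i) z * pd b (fun z => F z j) z := by
      funext z; simp only [induced, Matrix.of_apply]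
    rw [e0, sj_sum _ fun i _ => ContDiffAt.sum fun j _ => ((hgF i j).mul (hp a i)).mul (hp b j)]
    refine Finset.sum_congr rfl fun i _ => ?_
    rw [sj_sum _ fun j _ => ((hgF i j).mul (hp a i)).mul (hp b j)]
    refine Finset.sum_congr rfl fun j _ => ?_
    rw [sj_mul ((hgF i j).mul (hp a i)) (hp b j), sj_mul (hgF i j) (hp a i),
      sj_comp (f := fun x => g x i j) (hg i j) hF2]
    rfl
  refine Prod.ext ?_ (Prod.ext ?_ ?_)
  · funext a b
    exact congrArg (fun p => p.1) (key a b)
  · funext c a b
    exact congrArg (fun p => p.2.1 c) (key a b)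
  · funext d c a b
    exact congrArg (fun p => p.2.2 d c) (key a b)

theorem ed_continuous {F : V k → V m} (hF : ∀ i, ContDiff ℝ (⊤ : ℕ∞) fun z => F z i) :
    Continuous (ed F) := by
  refine Continuous.prodMk ?_ (Continuous.prodMk ?_ ?_)
  · exact continuous_pi fun c => continuous_pi fun j => (pd_smooth (hF j) c).continuous
  · exact continuous_pi fun d => continuous_pi fun c => continuous_pi fun j =>
      (pd_smooth (pd_smooth (hF j) c) d).continuous
  · refine continuous_pi fun a => continuous_pi fun i => ?_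
    refine Continuous.prodMk ?_ (Continuous.prodMk ?_ ?_)
    · exact (pd_smooth (hF i) a).continuous
    · exact continuous_pi fun c => (pd_smooth (pd_smooth (hF i) a) c).continuous
    · exact continuous_pi fun d => continuous_pi fun c =>
        (pd_smooth (pd_smooth (pd_smooth (hF i) a) c) d).continuous

theorem pd_smul (c : ℝ) (f : V k → ℝ) (i : Fin k) (x : V k) :
    pd i (fun z => c * f z) x = c * pd i f x := by
  have h : (fun z => c * f z) = c • f := rfl
  rw [pd, h, fderiv_const_smul_field]
  rfl

/-- Rescaling of a metric. -/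
def resc (g : Met m) (lam : ℝ) : Met m := fun x => g (lam • x)

theorem induced_smul (g : Met m) (F : V k → V m) (lam : ℝ) :
    induced g (fun y i => lam * F y i) = fun y => lam ^ 2 • induced (resc g lam) F y := by
  funext y
  ext a b
  have h : (fun i => lam * F y i) = lam • F y := rfl
  simp only [induced, Matrix.of_apply, Matrix.smul_apply, smul_eq_mul, Finset.mul_sum, pd_smul,
    resc, h]
  exact Finset.sum_congr rfl fun i _ => Finset.sum_congr rfl fun j _ => by ring

theorem jet_smul (c : ℝ) (h : Met k) (y : V k) :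
    jet (fun y => c • h y) y = c • jet h y := by
  refine Prod.ext rfl (Prod.ext ?_ ?_)
  · funext d i j
    exact pd_smul c _ d y
  · funext e d i j
    have h1 : pd d (fun z => c * h z i j) = fun z => c * pd d (fun z => h z i j) z := by
      funext z; exact pd_smul c _ d z
    change pd e (pd d (fun z => c * h z i j)) y = _
    rw [h1, pd_smul]
    rfl

theorem scalDensity_smul {g : Met m} (F : V k → V m) {lam : ℝ} (hlam : 0 < lam) (y : V k) :
    scalDensity (induced g (fun y i => lam * F y i)) y
      = lam ^ k / lam ^ 2 * scalDensity (induced (resc g lam) F) y := by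
  rw [induced_smul, scalDensity_eq, jet_smul, sJ_smul _ hlam]
  rfl

theorem totalScal_smul (g : Met (k + 1)) (ρ : V (k + 1) → ℝ) {lam : ℝ} (hlam : 0 < lam) :
    totalScal g (fun x => lam * ρ x) = lam ^ k / lam ^ 2 * totalScal (resc g lam) ρ := by
  have h : ∀ s, starParam (fun x => lam * ρ x) s = fun (y : V k) i => lam * starParam ρ s y i := by
    intro s; funext y i; rw [starParam, starParam]; ring
  rw [totalScal, totalScal, h, h]
  simp_rw [scalDensity_smul _ hlam]
  rw [integral_const_mul, integral_const_mul]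
  ring

theorem nrm_smul {c : ℝ} (hc : 0 ≤ c) (x : V k) : nrm (c • x) = c * nrm x := by
  rw [nrm, nrm]
  have : ∑ i, (c • x) i ^ 2 = c ^ 2 * ∑ i, x i ^ 2 := by
    rw [Finset.mul_sum]
    exact Finset.sum_congr rfl fun i _ => by rw [Pi.smul_apply, smul_eq_mul]; ring
  rw [this, Real.sqrt_mul (by positivity), Real.sqrt_sq hc]

theorem nrm_continuous : Continuous (nrm : V k → ℝ) := by
  unfold nrm
  fun_prop

theorem isOpen_end (r₀ : ℝ) : IsOpen {x : V k | r₀ < nrm x} :=
  isOpen_lt continuous_const nrm_continuous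

theorem nrm_starParam {s : ℝ} (hs : s ^ 2 = 1) {ρ : V (k + 1) → ℝ} (hρ : ∀ x, 0 < ρ x) (y : V k) :
    nrm (starParam ρ s y) = ρ (stereo s y) := by
  rw [nrm]
  have : ∑ i, starParam ρ s y i ^ 2 = ρ (stereo s y) ^ 2 * ∑ i, stereo s y i ^ 2 := by
    rw [Finset.mul_sum]
    exact Finset.sum_congr rfl fun i _ => by rw [starParam]; ring
  rw [this, stereo_norm hs, mul_one, Real.sqrt_sq (hρ _).le]

end

end Pool.Agent.H791.GBC
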