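import Pool.Agent.H791.GBC.Wave

namespace Pool.Agent.H791.GBC

open Filter Topology Real

noncomputable section

variable {l : ℕ}

theorem bmul {x y a b : ℝ} (hx : |x| ≤ a) (hy : |y| ≤ b) : |x * y| ≤ a * b := by
  rw [abs_mul]; exact mul_le_mul hx hy (abs_nonneg y) ((abs_nonneg x).trans hx)

theorem badd {x y a b : ℝ} (hx : |x| ≤ a) (hy : |y| ≤ b) : |x + y| ≤ a + b :=
  (abs_add_le x y).trans (add_le_add hx hy)

theorem bsub {x y a b : ℝ} (hx : |x| ≤ a) (hy : |y| ≤ b) : |x - y| ≤ a + b :=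
  (abs_sub x y).trans (add_le_add hx hy)

theorem bneg {x a : ℝ} (hx : |x| ≤ a) : |-x| ≤ a := by rwa [abs_neg]

theorem bsq {x a : ℝ} (hx : |x| ≤ a) : |x ^ 2| ≤ a ^ 2 := by
  rw [abs_pow]; exact pow_le_pow_left₀ (abs_nonneg x) hx 2

section

variable {ca sa cb sb cg sg : ℝ} (h1 : |ca| ≤ 1) (h2 : |sa| ≤ 1) (h3 : |cb| ≤ 1) (h4 : |sb| ≤ 1)
  (h5 : |cg| ≤ 1) (h6 : |sg| ≤ 1)

include h1 h2 h3 h5 in
theorem b_g0 : |g0P ca sa cb cg| ≤ 2 :=
  (bsub (bmul h1 h5) (bmul h2 h3)).trans (by norm_num)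

include h1 h4 in
theorem b_g1 : |g1P ca sb| ≤ 1 := (bneg (bmul h1 h4)).trans (by norm_num)

include h2 h6 in
theorem b_g2 : |g2P sa sg| ≤ 1 := (bneg (bmul h2 h6)).trans (by norm_num)

include h1 h2 h3 h5 in
theorem b_A00 : |A00P ca sa cb cg| ≤ 2 :=
  (bneg (badd (bmul h1 h3) (bmul h2 h5))).trans (by norm_num)

include h2 h4 in
theorem b_A01 : |A01P sa sb| ≤ 1 := (bmul h2 h4).trans (by norm_num)

include h1 h6 in
theorem b_A02 : |A02P ca sg| ≤ 1 := (bneg (bmul h1 h6)).trans (by norm_num)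

include h1 h3 in
theorem b_A11 : |A11P ca cb| ≤ 1 := (bneg (bmul h1 h3)).trans (by norm_num)

include h2 h5 in
theorem b_A22 : |A22P sa cg| ≤ 1 := (bneg (bmul h2 h5)).trans (by norm_num)

include h1 h2 h3 h4 h5 h6 in
theorem b_s2 : |s2P ca sa cb sb cg sg| ≤ 7 :=
  (bsub (bsub (badd (badd (bmul (b_A00 h1 h2 h3 h5) (b_A11 h1 h3))
    (bmul (b_A00 h1 h2 h3 h5) (b_A22 h2 h5))) (bmul (b_A11 h1 h3) (b_A22 h2 h5)))
    (bsq (b_A01 h2 h4))) (bsq (b_A02 h1 h6))).trans (by norm_num)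

include h1 h2 h3 h4 h5 h6 in
theorem b_p : |pP ca sa cb sb cg sg| ≤ 6 :=
  (badd (badd (bsq (b_g0 h1 h2 h3 h5)) (bsq (b_g1 h1 h4))) (bsq (b_g2 h2 h6))).trans (by norm_num)

include h1 h2 h3 h4 h5 h6 in
theorem b_u0 : |u0P ca sa cb sb cg sg| ≤ 6 :=
  (badd (badd (bmul (b_A00 h1 h2 h3 h5) (b_g0 h1 h2 h3 h5)) (bmul (b_A01 h2 h4) (b_g1 h1 h4)))
    (bmul (b_A02 h1 h6) (b_g2 h2 h6))).trans (by norm_num)

include h1 h2 h3 h4 h5 h6 in
theorem b_u1 : |u1P ca sa cb sb cg sg| ≤ 3 :=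
  (badd (bmul (b_A01 h2 h4) (b_g0 h1 h2 h3 h5)) (bmul (b_A11 h1 h3) (b_g1 h1 h4))).trans
    (by norm_num)

include h1 h2 h3 h4 h5 h6 in
theorem b_u2 : |u2P ca sa cb sb cg sg| ≤ 3 :=
  (badd (bmul (b_A02 h1 h6) (b_g0 h1 h2 h3 h5)) (bmul (b_A22 h2 h5) (b_g2 h2 h6))).trans
    (by norm_num)

include h1 h2 h3 h4 h5 h6 in
theorem b_tau : |tauP ca sa cb sb cg sg| ≤ 126 := by
  have hg0 := b_g0 h1 h2 h3 h5
  have hg1 := b_g1 h1 h4
  have hg2 := b_g2 h2 h6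
  have hu0 := b_u0 h1 h2 h3 h4 h5 h6
  have hu1 := b_u1 h1 h2 h3 h4 h5 h6
  have hu2 := b_u2 h1 h2 h3 h4 h5 h6
  refine (bsub (bmul (badd (badd (b_A00 h1 h2 h3 h5) (b_A11 h1 h3)) (b_A22 h2 h5))
    (badd (badd (bmul hg0 hu0) (bmul hg1 hu1)) (bmul hg2 hu2)))
    (badd (badd (bsq hu0) (bsq hu1)) (bsq hu2))).trans (by norm_num)

end

theorem s2q_le (q : ℝ × ℝ × ℝ) : |s2q q| ≤ 7 :=
  b_s2 (abs_cos_le_one _) (abs_sin_le_one _) (abs_cos_le_one _) (abs_sin_le_one _)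
    (abs_cos_le_one _) (abs_sin_le_one _)

theorem pq_le (q : ℝ × ℝ × ℝ) : pq q ≤ 6 :=
  (le_abs_self _).trans (b_p (abs_cos_le_one _) (abs_sin_le_one _) (abs_cos_le_one _)
    (abs_sin_le_one _) (abs_cos_le_one _) (abs_sin_le_one _))

theorem pq_nonneg (q : ℝ × ℝ × ℝ) : 0 ≤ pq q := by
  unfold pq pP; positivity

theorem tauq_le (q : ℝ × ℝ × ℝ) : |tauq q| ≤ 126 :=
  b_tau (abs_cos_le_one _) (abs_sin_le_one _) (abs_cos_le_one _) (abs_sin_le_one _)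
    (abs_cos_le_one _) (abs_sin_le_one _)

/-- The bracket in the density of a graph. -/
def brk (c b s p t : ℝ) : ℝ := b ^ 2 * s / √(c + b ^ 2 * p) - b ^ 4 * t / √(c + b ^ 2 * p) ^ 3

theorem brk_le {c b s p t : ℝ} (hc : 1 ≤ c) (hs : |s| ≤ 7) (hp0 : 0 ≤ p) (hp : p ≤ 6)
    (ht : |t| ≤ 126) :
    brk c b s p t ≤ b ^ 2 * (1 / √c) * s - b ^ 4 * (1 / √c) ^ 3 * (s * p / 2 + t)
      + 1300 * b ^ 6 := by
  have hc0 : 0 < c := by linarith
  have hbp : 0 ≤ b ^ 2 * p := by positivity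
  set q₀ := 1 / √c with hq₀
  set Q := 1 / √(c + b ^ 2 * p) with hQ
  have hQ0 : 0 < Q := by positivity
  have hq1 : q₀ ≤ 1 := by
    rw [hq₀, div_le_one (by positivity)]
    exact Real.one_le_sqrt.2 hc
  have hQq : Q ≤ q₀ := by
    rw [hQ, hq₀]
    exact one_div_le_one_div_of_le (by positivity) (Real.sqrt_le_sqrt (by linarith))
  have hq0 : 0 < q₀ := hQ0.trans_le hQq
  have e1 : q₀ ^ 2 * c = 1 := by
    rw [hq₀, div_pow, Real.sq_sqrt hc0.le]; field_simp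
  have e2 : Q ^ 2 * (c + b ^ 2 * p) = 1 := by
    have : 0 < c + b ^ 2 * p := by linarith
    rw [hQ, div_pow, Real.sq_sqrt this.le]; field_simp
  set d := q₀ - Q with hd
  have hd0 : 0 ≤ d := by linarith
  -- `d (q₀ + Q) = q₀² Q² b² p`
  have e3 : d * (q₀ + Q) = q₀ ^ 2 * Q ^ 2 * (b ^ 2 * p) := by
    rw [hd]; linear_combination (-(q₀ ^ 2)) * e2 + (Q ^ 2) * e1
  -- `d ≤ q₀² Q b² p / 2`
  have hd1 : d ≤ q₀ ^ 2 * Q * (b ^ 2 * p) / 2 := by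
    have h1 : d * (2 * Q) ≤ d * (q₀ + Q) := mul_le_mul_of_nonneg_left (by linarith) hd0
    rw [e3] at h1
    have h2 : d * (2 * Q) ≤ (q₀ ^ 2 * Q * (b ^ 2 * p) / 2) * (2 * Q) := by
      calc _ ≤ _ := h1
        _ = _ := by ring
    exact le_of_mul_le_mul_right h2 (by positivity)
  have hd2 : d ≤ b ^ 2 * p / 2 := by
    have h1 : q₀ ^ 2 * Q ≤ 1 := by
      have h2 : q₀ ^ 2 ≤ 1 := by nlinarith
      have h3 : Q ≤ 1 := hQq.trans hq1
      nlinarith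
    nlinarith
  -- the error `e = q₀³ b² p / 2 - d`
  set e := q₀ ^ 3 * (b ^ 2 * p) / 2 - d with he
  have he0 : 0 ≤ e := by
    have h1 : q₀ ^ 2 * Q * (b ^ 2 * p) ≤ q₀ ^ 2 * q₀ * (b ^ 2 * p) := by gcongr
    rw [he]; nlinarith
  have he1 : e * (2 * (q₀ + Q)) = q₀ ^ 2 * (b ^ 2 * p) * d * (q₀ + 2 * Q) := by
    rw [he]
    have : (q₀ ^ 3 * (b ^ 2 * p) / 2 - d) * (2 * (q₀ + Q))
        = q₀ ^ 3 * (b ^ 2 * p) * (q₀ + Q) - 2 * (d * (q₀ + Q)) := by ring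
    rw [this, e3, hd]; ring
  have he2 : e ≤ 3 / 4 * (b ^ 2 * p) * d := by
    have h1 : q₀ ^ 2 * (b ^ 2 * p) * d * (q₀ + 2 * Q)
        ≤ 1 * (b ^ 2 * p) * d * (3 / 2 * (q₀ + Q)) := by
      have h2 : q₀ ^ 2 ≤ 1 := by nlinarith
      have h3 : q₀ + 2 * Q ≤ 3 / 2 * (q₀ + Q) := by linarith
      gcongr
    have h4 : e * (2 * (q₀ + Q)) ≤ (3 / 4 * (b ^ 2 * p) * d) * (2 * (q₀ + Q)) := by
      rw [he1]
      calc _ ≤ _ := h1
        _ = _ := by ring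
    exact le_of_mul_le_mul_right h4 (by positivity)
  have he3 : e ≤ 27 / 2 * b ^ 4 := by
    have h1 : 3 / 4 * (b ^ 2 * p) * d ≤ 3 / 4 * (b ^ 2 * 6) * (b ^ 2 * 6 / 2) := by
      have : b ^ 2 * p / 2 ≤ b ^ 2 * 6 / 2 := by nlinarith [sq_nonneg b]
      gcongr
      linarith
    calc e ≤ _ := he2
      _ ≤ _ := h1
      _ = _ := by ring
  -- the error `f = q₀³ - Q³`
  set f := q₀ ^ 3 - Q ^ 3 with hf
  have hf1 : f = d * (q₀ ^ 2 + q₀ * Q + Q ^ 2) := by rw [hf, hd]; ring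
  have hf0 : 0 ≤ f := by rw [hf1]; positivity
  have hf2 : f ≤ 9 * b ^ 2 := by
    have h2 : q₀ ^ 2 + q₀ * Q + Q ^ 2 ≤ 3 := by nlinarith
    have h3 : d * (q₀ ^ 2 + q₀ * Q + Q ^ 2) ≤ (b ^ 2 * 6 / 2) * 3 := by
      have : b ^ 2 * p / 2 ≤ b ^ 2 * 6 / 2 := by nlinarith [sq_nonneg b]
      gcongr
      linarith
    rw [hf1]; linarith
  have hmain : brk c b s p t = b ^ 2 * q₀ * s - b ^ 4 * q₀ ^ 3 * (s * p / 2 + t)
      + (b ^ 2 * (s * e) + b ^ 4 * (t * f)) := by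
    have h1 : brk c b s p t = b ^ 2 * s * Q - b ^ 4 * t * Q ^ 3 := by
      rw [brk, hQ]; field_simp
    have h2 : Q = q₀ - q₀ ^ 3 * (b ^ 2 * p) / 2 + e := by rw [he, hd]; ring
    have h3 : Q ^ 3 = q₀ ^ 3 - f := by rw [hf]; ring
    rw [h1, h3]
    nth_rewrite 1 [h2]
    ring
  have h4 : s * e ≤ 7 * (27 / 2 * b ^ 4) := by
    calc s * e ≤ |s * e| := le_abs_self _
      _ ≤ _ := bmul hs (by rw [abs_of_nonneg he0]; exact he3)
  have h5 : t * f ≤ 126 * (9 * b ^ 2) := by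
    calc t * f ≤ |t * f| := le_abs_self _
      _ ≤ _ := bmul ht (by rw [abs_of_nonneg hf0]; exact hf2)
  have h6 : b ^ 2 * (s * e) ≤ b ^ 2 * (7 * (27 / 2 * b ^ 4)) := by gcongr
  have h7 : b ^ 4 * (t * f) ≤ b ^ 4 * (126 * (9 * b ^ 2)) := by gcongr
  have h8 : 0 ≤ b ^ 6 := by positivity
  rw [hmain]
  nlinarith

/-- The sum over the phases is negative. -/
theorem sum_brk_le {c b : ℝ} (hc : 1 ≤ c) (hc4 : c ≤ 4) (hb : b ^ 2 ≤ 1 / 1000000)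
    (q : ℝ × ℝ × ℝ) :
    ∑ m : Ph, brk c b (s2q (shift q m)) (pq (shift q m)) (tauq (shift q m)) ≤ -5 * b ^ 4 := by
  have h1 : ∀ m : Ph, brk c b (s2q (shift q m)) (pq (shift q m)) (tauq (shift q m))
      ≤ b ^ 2 * (1 / √c) * s2q (shift q m) - b ^ 4 * (1 / √c) ^ 3 *
        (s2q (shift q m) * pq (shift q m) / 2 + tauq (shift q m)) + 1300 * b ^ 6 := fun m =>
    brk_le hc (s2q_le _) (pq_nonneg _) (pq_le _) (tauq_le _)
  have h2 := Finset.sum_le_sum fun m (_ : m ∈ (Finset.univ : Finset Ph)) => h1 m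
  rw [Finset.sum_add_distrib, Finset.sum_sub_distrib, ← Finset.mul_sum, ← Finset.mul_sum,
    sum_s2, sum_J] at h2
  have h3 : ∑ _m : Ph, 1300 * b ^ 6 = 512 * (1300 * b ^ 6) := by
    rw [Finset.sum_const, Finset.card_univ, Fintype.card_prod, Fintype.card_prod,
      Fintype.card_fin]
    norm_num
  rw [h3] at h2
  have hq : 1 / 2 ≤ 1 / √c := by
    have h4 : √c ≤ 2 := by
      rw [Real.sqrt_le_left (by norm_num)]; linarith
    exact one_div_le_one_div_of_le (by positivity) h4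
  have hq3 : 1 / 8 ≤ (1 / √c) ^ 3 := by
    calc (1 / 8 : ℝ) = (1 / 2) ^ 3 := by norm_num
      _ ≤ _ := by gcongr
  have h5 : b ^ 4 * (1 / 8) * 48 ≤ b ^ 4 * (1 / √c) ^ 3 * 48 := by gcongr
  have h6 : b ^ 6 ≤ b ^ 4 * (1 / 1000000) := by
    calc b ^ 6 = b ^ 4 * b ^ 2 := by ring
      _ ≤ _ := by gcongr
  have h7 : 0 ≤ b ^ 4 := by positivity
  linarith

variable {χ : V (l + 3) → ℝ}

/-- The density at scale zero. -/
theorem Gp_zero (y : V (l + 3)) (q : ℝ × ℝ × ℝ) :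
    Gp χ (0, y, q) = 2 * (√((4 / (1 + sq y) ^ 2) ^ (l + 2)) / (4 / (1 + sq y) ^ 2)) *
      brk (4 / (1 + sq y) ^ 2) (amp * χ y) (s2q q) (pq q) (tauq q) := by
  set b := amp * χ y with hb
  set c := 4 / (1 + sq y) ^ 2 with hc
  have hc0 : 0 < c := by have := sq_nonneg' y; rw [hc]; positivity
  have hw : ContDiff ℝ (⊤ : ℕ∞) (wv q : V (l + 3) → ℝ) := wv_smooth q
  have hwd : Differentiable ℝ (wv q : V (l + 3) → ℝ) := hw.differentiable (by simp)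
  have hwd2 : ∀ i, Differentiable ℝ (pd i (wv q : V (l + 3) → ℝ)) := fun i =>
    (pd_smooth hw i).differentiable (by simp)
  have hf : ContDiff ℝ (⊤ : ℕ∞) (fun z : V (l + 3) => b * wv q z) := contDiff_const.mul hw
  have hpd : ∀ i, pd i (fun z : V (l + 3) => b * wv q z) = fun z => b * pd i (wv q) z := fun i =>
    funext fun z => pd_const_mul b (hwd z) i
  have hpd2 : ∀ i j z, pd i (pd j (fun z : V (l + 3) => b * wv q z)) z
      = b * pd i (pd j (wv q)) z := fun i j z => by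
    rw [hpd j, pd_const_mul b (hwd2 j z)]
  have hH : Hp χ (0, y, q) = graphMet c (fun z : V (l + 3) => b * wv q z) := by
    funext z
    ext i j
    simp only [Hp, Kp, Rp, Vp, graphMet, Matrix.of_apply, hpd, zero_smul, add_zero, zero_mul,
      ← hc, one_pow, one_mul]
    rw [hb]; ring
  rw [Gp, hH, graph_density hf hc0]
  have h1 : gradSq (fun z : V (l + 3) => b * wv q z) 0 = b ^ 2 * pq q := by
    rw [← gradSq_wv (l := l), gradSq, gradSq, Finset.mul_sum]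
    exact Finset.sum_congr rfl fun a _ => by rw [hpd]; ring
  have hl : lap (fun z : V (l + 3) => b * wv q z) 0 = b * lap (wv q : V (l + 3) → ℝ) 0 := by
    rw [lap, lap, Finset.mul_sum]
    exact Finset.sum_congr rfl fun a _ => by rw [hpd2]
  have h2 : sig2 (fun z : V (l + 3) => b * wv q z) 0 = b ^ 2 * s2q q := by
    have : ∑ a, ∑ d, pd a (pd d (fun z : V (l + 3) => b * wv q z)) 0 ^ 2
        = b ^ 2 * ∑ a, ∑ d, pd a (pd d (wv q : V (l + 3) → ℝ)) 0 ^ 2 := by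
      simp only [Finset.mul_sum]
      exact Finset.sum_congr rfl fun a _ => Finset.sum_congr rfl fun d _ => by rw [hpd2]; ring
    rw [← sig2_wv (l := l), sig2, sig2, hl, this]; ring
  have h3 : tau (fun z : V (l + 3) => b * wv q z) 0 = b ^ 4 * tauq q := by
    have e1 : ∑ a, ∑ d, pd a (pd d (fun z : V (l + 3) => b * wv q z)) 0
          * pd a (fun z : V (l + 3) => b * wv q z) 0 * pd d (fun z : V (l + 3) => b * wv q z) 0
        = b ^ 3 * ∑ a, ∑ d, pd a (pd d (wv q : V (l + 3) → ℝ)) 0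
          * pd a (wv q : V (l + 3) → ℝ) 0 * pd d (wv q : V (l + 3) → ℝ) 0 := by
      simp only [Finset.mul_sum]
      exact Finset.sum_congr rfl fun a _ => Finset.sum_congr rfl fun d _ => by
        rw [hpd2, hpd, hpd]; ring
    have e2 : ∑ a, (∑ d, pd a (pd d (fun z : V (l + 3) => b * wv q z)) 0
          * pd d (fun z : V (l + 3) => b * wv q z) 0) ^ 2
        = b ^ 4 * ∑ a, (∑ d, pd a (pd d (wv q : V (l + 3) → ℝ)) 0
          * pd d (wv q : V (l + 3) → ℝ) 0) ^ 2 := by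
      rw [Finset.mul_sum]
      refine Finset.sum_congr rfl fun a _ => ?_
      have : ∑ d, pd a (pd d (fun z : V (l + 3) => b * wv q z)) 0
          * pd d (fun z : V (l + 3) => b * wv q z) 0
          = b ^ 2 * ∑ d, pd a (pd d (wv q : V (l + 3) → ℝ)) 0 * pd d (wv q : V (l + 3) → ℝ) 0 := by
        rw [Finset.mul_sum]
        exact Finset.sum_congr rfl fun d _ => by rw [hpd2, hpd]; ring
      rw [this]; ring
    rw [← tau_wv (l := l), tau, tau, hl, e1, e2]; ring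
  rw [h1, h2, h3, brk]

theorem sum_Gp_zero_le (h0 : ∀ y, 0 ≤ χ y) (h1 : ∀ y, χ y ≤ 1) {y : V (l + 3)} (hy : sq y ≤ 1)
    (q : ℝ × ℝ × ℝ) :
    ∑ m : Ph, Gp χ (0, y, shift q m) ≤ -10 * (amp * χ y) ^ 4 := by
  have hs := sq_nonneg' y
  have hc1 : 1 ≤ 4 / (1 + sq y) ^ 2 := by
    rw [le_div_iff₀ (by positivity)]; nlinarith
  have hc4 : 4 / (1 + sq y) ^ 2 ≤ 4 := by
    rw [div_le_iff₀ (by positivity)]; nlinarith
  have hb : (amp * χ y) ^ 2 ≤ 1 / 1000000 := by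
    have h2 : χ y ^ 2 ≤ 1 := by nlinarith [h0 y, h1 y]
    have h3 : amp ^ 2 = 1 / 1000000 := by rw [amp]; norm_num
    rw [mul_pow, h3]; nlinarith
  simp_rw [Gp_zero]
  rw [← Finset.mul_sum]
  set c := 4 / (1 + sq y) ^ 2 with hc
  have hS := sum_brk_le hc1 hc4 hb q
  have hk : 1 ≤ √(c ^ (l + 2)) / c := by
    rw [le_div_iff₀ (by linarith), one_mul]
    apply Real.le_sqrt_of_sq_le
    have : (1 : ℝ) ≤ c ^ l := one_le_pow₀ hc1
    calc c ^ 2 = 1 * c ^ 2 := by ring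
      _ ≤ c ^ l * c ^ 2 := by gcongr
      _ = _ := by ring
  have hb4 : 0 ≤ (amp * χ y) ^ 4 := by positivity
  nlinarith

end

end Pool.Agent.H791.GBC
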