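import Pool.Agent.H791.GBC.Defs

namespace Pool.Agent.H791.GBC

open MeasureTheory Filter Topology

noncomputable section

variable {k : ℕ}

theorem pd_smooth {f : V k → ℝ} (hf : ContDiff ℝ (⊤ : ℕ∞) f) (i : Fin k) :
    ContDiff ℝ (⊤ : ℕ∞) (pd i f) := by
  have h1 : ContDiff ℝ (⊤ : ℕ∞) (fderiv ℝ f) := hf.fderiv_right (by exact_mod_cast le_top)
  exact h1.clm_apply contDiff_const

theorem pd_eq_of_hasFDerivAt {f : V k → ℝ} {L : V k →L[ℝ] ℝ} {x : V k} (h : HasFDerivAt f L x)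
    (i : Fin k) : pd i f x = L (Pi.single i 1) := by
  rw [pd, h.fderiv]

theorem pd_congr {f g : V k → ℝ} {x : V k} (h : f =ᶠ[𝓝 x] g) (i : Fin k) :
    pd i f x = pd i g x := by
  rw [pd, pd, h.fderiv_eq]

theorem pd_add {f g : V k → ℝ} {x : V k} (hf : DifferentiableAt ℝ f x)
    (hg : DifferentiableAt ℝ g x) (i : Fin k) :
    pd i (fun z => f z + g z) x = pd i f x + pd i g x := by
  have h : HasFDerivAt (fun z => f z + g z) (fderiv ℝ f x + fderiv ℝ g x) x :=
    hf.hasFDerivAt.add hg.hasFDerivAt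
  rw [pd_eq_of_hasFDerivAt h]; rfl

theorem pd_sub {f g : V k → ℝ} {x : V k} (hf : DifferentiableAt ℝ f x)
    (hg : DifferentiableAt ℝ g x) (i : Fin k) :
    pd i (fun z => f z - g z) x = pd i f x - pd i g x := by
  have h : HasFDerivAt (fun z => f z - g z) (fderiv ℝ f x - fderiv ℝ g x) x :=
    hf.hasFDerivAt.sub hg.hasFDerivAt
  rw [pd_eq_of_hasFDerivAt h]; rfl

theorem pd_mul {f g : V k → ℝ} {x : V k} (hf : DifferentiableAt ℝ f x)
    (hg : DifferentiableAt ℝ g x) (i : Fin k) :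
    pd i (fun z => f z * g z) x = pd i f x * g x + f x * pd i g x := by
  have h : HasFDerivAt (fun z => f z * g z) (f x • fderiv ℝ g x + g x • fderiv ℝ f x) x :=
    hf.hasFDerivAt.mul hg.hasFDerivAt
  rw [pd_eq_of_hasFDerivAt h]
  simp [pd]; ring

theorem pd_const_mul {f : V k → ℝ} {x : V k} (c : ℝ) (hf : DifferentiableAt ℝ f x) (i : Fin k) :
    pd i (fun z => c * f z) x = c * pd i f x := by
  rw [pd_eq_of_hasFDerivAt (hf.hasFDerivAt.const_mul c)]; rfl

@[simp] theorem pd_const (c : ℝ) (x : V k) (i : Fin k) : pd i (fun _ => c) x = 0 := by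
  simp [pd]

theorem pd_sum {ι : Type*} (s : Finset ι) {f : ι → V k → ℝ} {x : V k}
    (hf : ∀ j ∈ s, DifferentiableAt ℝ (f j) x) (i : Fin k) :
    pd i (fun z => ∑ j ∈ s, f j z) x = ∑ j ∈ s, pd i (f j) x := by
  have h : HasFDerivAt (fun z => ∑ j ∈ s, f j z) (∑ j ∈ s, fderiv ℝ (f j) x) x :=
    HasFDerivAt.fun_sum fun j hj => (hf j hj).hasFDerivAt
  rw [pd_eq_of_hasFDerivAt h]
  simp [pd]

theorem pd_coord (i j : Fin k) (x : V k) :
    pd i (fun z => z j) x = if i = j then 1 else 0 := by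
  have h : HasFDerivAt (fun z : V k => z j) (ContinuousLinearMap.proj (R := ℝ) j) x :=
    (ContinuousLinearMap.proj (R := ℝ) (φ := fun _ : Fin k => ℝ) j).hasFDerivAt
  rw [pd_eq_of_hasFDerivAt h]
  simp [Pi.single_apply, eq_comm]

/-- Chain rule for an outer function of one variable. -/
theorem pd_comp_real {f : V k → ℝ} {φ : ℝ → ℝ} {φ' : ℝ} {x : V k} (hφ : HasDerivAt φ φ' (f x))
    (hf : DifferentiableAt ℝ f x) (i : Fin k) :
    pd i (fun z => φ (f z)) x = φ' * pd i f x := by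
  have h := hφ.comp_hasFDerivAt x hf.hasFDerivAt
  have h2 : HasFDerivAt (fun z => φ (f z)) (φ' • fderiv ℝ f x) x := h
  rw [pd_eq_of_hasFDerivAt h2]; rfl

/-- Chain rule for an inner map between Euclidean spaces. -/
theorem pd_comp {l : ℕ} {f : V l → ℝ} {F : V k → V l} {x : V k}
    (hf : DifferentiableAt ℝ f (F x)) (hF : DifferentiableAt ℝ F x) (i : Fin k) :
    pd i (fun z => f (F z)) x = ∑ j, pd j f (F x) * pd i (fun z => F z j) x := by
  have h := hf.hasFDerivAt.comp x hF.hasFDerivAt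
  have h2 : HasFDerivAt (fun z => f (F z)) ((fderiv ℝ f (F x)).comp (fderiv ℝ F x)) x := h
  rw [pd_eq_of_hasFDerivAt h2]
  have h3 : ∀ j, pd i (fun z => F z j) x = fderiv ℝ F x (Pi.single i 1) j := by
    intro j
    have h4 : HasFDerivAt (fun z => F z j)
        ((ContinuousLinearMap.proj (R := ℝ) (φ := fun _ : Fin l => ℝ) j).comp (fderiv ℝ F x)) x :=
      (ContinuousLinearMap.proj (R := ℝ) (φ := fun _ : Fin l => ℝ) j).hasFDerivAt.comp x
        hF.hasFDerivAt
    rw [pd_eq_of_hasFDerivAt h4]; rfl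
  simp_rw [h3, pd]
  rw [ContinuousLinearMap.comp_apply]
  set v := fderiv ℝ F x (Pi.single i 1) with hv
  have h5 : v = ∑ j, v j • (Pi.single j (1 : ℝ) : V l) := by
    ext m; simp [Finset.sum_apply, Pi.single_apply]
  conv_lhs => rw [h5]
  rw [map_sum]
  refine Finset.sum_congr rfl fun j _ => ?_
  rw [map_smul, smul_eq_mul, mul_comm]

theorem pd_comm {f : V k → ℝ} (hf : ContDiff ℝ (⊤ : ℕ∞) f) (i j : Fin k) (x : V k) :
    pd i (pd j f) x = pd j (pd i f) x := by
  have h1 : ContDiff ℝ (⊤ : ℕ∞) (fderiv ℝ f) := hf.fderiv_right (by exact_mod_cast le_top)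
  have hd : DifferentiableAt ℝ (fderiv ℝ f) x := h1.differentiable (by simp) x
  have key : ∀ a b : Fin k, pd a (pd b f) x
      = fderiv ℝ (fderiv ℝ f) x (Pi.single a 1) (Pi.single b 1) := by
    intro a b
    have h2 : HasFDerivAt (fun z => fderiv ℝ f z (Pi.single b (1 : ℝ)))
        ((fderiv ℝ (fderiv ℝ f) x).flip (Pi.single b (1 : ℝ))) x := by
      have := hd.hasFDerivAt.clm_apply (hasFDerivAt_const (Pi.single b (1 : ℝ) : V k) x)
      simpa using this
    exact pd_eq_of_hasFDerivAt h2 a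
  rw [key, key]
  have hs : IsSymmSndFDerivAt ℝ f x := by
    apply ContDiffAt.isSymmSndFDerivAt (n := (⊤ : ℕ∞)) hf.contDiffAt
    rw [minSmoothness_of_isRCLikeNormedField]
    have h2 : ((2 : ℕ∞) : WithTop ℕ∞) ≤ ((⊤ : ℕ∞) : WithTop ℕ∞) := WithTop.coe_le_coe.mpr le_top
    exact h2
  exact hs _ _

/-- Partial derivatives of a function on a product in the direction of the second factor. -/
def pdr {P : Type*} [NormedAddCommGroup P] [NormedSpace ℝ P] (i : Fin k) (K : P × V k → ℝ)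
    (q : P × V k) : ℝ := fderiv ℝ K q (0, Pi.single i 1)

theorem pdr_smooth {P : Type*} [NormedAddCommGroup P] [NormedSpace ℝ P] {K : P × V k → ℝ}
    (hK : ContDiff ℝ (⊤ : ℕ∞) K) (i : Fin k) : ContDiff ℝ (⊤ : ℕ∞) (pdr i K) := by
  have h1 : ContDiff ℝ (⊤ : ℕ∞) (fderiv ℝ K) := hK.fderiv_right (by exact_mod_cast le_top)
  exact h1.clm_apply contDiff_const

theorem pd_param {P : Type*} [NormedAddCommGroup P] [NormedSpace ℝ P] {K : P × V k → ℝ}
    (hK : ContDiff ℝ (⊤ : ℕ∞) K) (i : Fin k) (p : P) (z : V k) :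
    pd i (fun z' => K (p, z')) z = pdr i K (p, z) := by
  have h1 : HasFDerivAt (fun z' : V k => (p, z')) (ContinuousLinearMap.inr ℝ P (V k)) z :=
    hasFDerivAt_prodMk_right p z
  have h2 : HasFDerivAt K (fderiv ℝ K (p, z)) (p, z) :=
    (hK.differentiable (by simp) (p, z)).hasFDerivAt
  have h3 := h2.comp z h1
  have h4 : HasFDerivAt (fun z' => K (p, z'))
    ((fderiv ℝ K (p, z)).comp (ContinuousLinearMap.inr ℝ P (V k))) z := h3
  rw [pd_eq_of_hasFDerivAt h4]
  simp [pdr]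

/-- Affine rescaling of the variable. -/
theorem pd_affine {f : V k → ℝ} (y : V k) (t : ℝ) (z : V k)
    (hf : DifferentiableAt ℝ f (y + t • z)) (i : Fin k) :
    pd i (fun z' => f (y + t • z')) z = t * pd i f (y + t • z) := by
  have h1 : HasFDerivAt (fun z' : V k => y + t • z') (t • ContinuousLinearMap.id ℝ (V k)) z :=
    ((ContinuousLinearMap.id ℝ (V k)).hasFDerivAt.const_smul t).const_add y
  have h2 := hf.hasFDerivAt.comp z h1
  have h3 : HasFDerivAt (fun z' => f (y + t • z'))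
    ((fderiv ℝ f (y + t • z)).comp (t • ContinuousLinearMap.id ℝ (V k))) z := h2
  rw [pd_eq_of_hasFDerivAt h3]
  simp [pd]

end

end Pool.Agent.H791.GBC
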