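import Mathlib

/-!
Total scalar curvature of star-shaped hypersurfaces in an asymptotically flat end: definitions.
-/

namespace Pool.Agent.H791.GBC

open MeasureTheory

noncomputable section

/-- The space `ℝ^k`. -/
abbrev V (k : ℕ) := Fin k → ℝ

/-- A field of `k × k` matrices on `ℝ^k`: the components `g_ij(x)` of a metric. -/
abbrev Met (k : ℕ) := V k → Matrix (Fin k) (Fin k) ℝ

variable {k : ℕ}

/-- The partial derivative `∂_i f` at `x`. -/
def pd (i : Fin k) (f : V k → ℝ) (x : V k) : ℝ := fderiv ℝ f x (Pi.single i 1)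

/-- The Euclidean norm `|x|`. -/
def nrm (x : V k) : ℝ := √(∑ i, x i ^ 2)

/-- Christoffel symbols of the first kind,
`Γ_{m,ij} = (∂_i g_mj + ∂_j g_mi - ∂_m g_ij) / 2`. -/
def Gam (g : Met k) (x : V k) (m i j : Fin k) : ℝ :=
  (pd i (fun z => g z m j) x + pd j (fun z => g z m i) x - pd m (fun z => g z i j) x) / 2

/-- The Riemann curvature tensor `R_ijkl` (all indices down), with the convention that
`R_ijij` is the sectional curvature of an orthonormal pair:
`R_ijkl = (∂_j∂_k g_il + ∂_i∂_l g_jk - ∂_i∂_k g_jl - ∂_j∂_l g_ik) / 2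
  + g^{pq} (Γ_{p,jk} Γ_{q,il} - Γ_{p,ik} Γ_{q,jl})`. -/
def Rm (g : Met k) (x : V k) (i j k' l : Fin k) : ℝ :=
  (pd j (pd k' (fun z => g z i l)) x + pd i (pd l (fun z => g z j k')) x
    - pd i (pd k' (fun z => g z j l)) x - pd j (pd l (fun z => g z i k')) x) / 2
  + ∑ p, ∑ q, (g x)⁻¹ p q *
      (Gam g x p j k' * Gam g x q i l - Gam g x p i k' * Gam g x q j l)

/-- The Ricci tensor `R_jl = g^{ik} R_ijkl`. -/
def Ric (g : Met k) (x : V k) (j l : Fin k) : ℝ :=
  ∑ i, ∑ k', (g x)⁻¹ i k' * Rm g x i j k' l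

/-- The scalar curvature `R = g^{jl} R_jl`. -/
def Scal (g : Met k) (x : V k) : ℝ := ∑ j, ∑ l, (g x)⁻¹ j l * Ric g x j l

/-- The density `R √(det g)` of the total scalar curvature. -/
def scalDensity (g : Met k) (x : V k) : ℝ := Scal g x * √((g x).det)

/-- The metric induced by the metric `g` of `ℝ^l` under the map `F : ℝ^k → ℝ^l`:
`h_ab = g_ij(F) ∂_a F^i ∂_b F^j`. -/
def induced {l : ℕ} (g : Met l) (F : V k → V l) : Met k := fun y =>
  Matrix.of fun a b => ∑ i, ∑ j, g (F y) i j * pd a (fun z => F z i) y * pd b (fun z => F z j) y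

/-- The inverse stereographic projections `ℝ^k → S^k ⊂ ℝ^{k+1}`,
`y ↦ (s (1 - |y|²), 2 y) / (1 + |y|²)`. For `s = 1` (for `s = -1`) it parametrizes
the closed hemisphere `x_0 ≥ 0` (the closed hemisphere `x_0 ≤ 0`) by the closed unit ball. -/
def stereo (s : ℝ) (y : V k) : V (k + 1) :=
  Fin.cons (s * (1 - ∑ i, y i ^ 2) / (1 + ∑ i, y i ^ 2)) fun i => 2 * y i / (1 + ∑ j, y j ^ 2)

/-- The parametrization of the star-shaped hypersurface `{ρ(x) x : |x| = 1}` of `ℝ^{k+1}`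
which belongs to the inverse stereographic projection `stereo s`. -/
def starParam (ρ : V (k + 1) → ℝ) (s : ℝ) (y : V k) : V (k + 1) := fun i =>
  ρ (stereo s y) * stereo s y i

/-- The total scalar curvature `∫_S R` of the star-shaped hypersurface `S = {ρ(x) x : |x| = 1}`
of `ℝ^{k+1}` with the metric induced by `g`: the sum of the integrals of `R` over
the parts of `S` over the two hemispheres `x_0 ≥ 0` and `x_0 ≤ 0`. -/
def totalScal (g : Met (k + 1)) (ρ : V (k + 1) → ℝ) : ℝ :=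
  (∫ y in {y : V k | ∑ i, y i ^ 2 ≤ 1}, scalDensity (induced g (starParam ρ 1)) y)
  + ∫ y in {y : V k | ∑ i, y i ^ 2 ≤ 1}, scalDensity (induced g (starParam ρ (-1))) y

/-- `g` is a smooth Riemannian metric on the open set `U`. -/
structure IsRiemannianOn (g : Met k) (U : Set (V k)) : Prop where
  smooth : ∀ i j, ContDiffOn ℝ (⊤ : ℕ∞) (fun x => g x i j) U
  posDef : ∀ x ∈ U, (g x).PosDef

/-- Asymptotic flatness of order `τ` in the given coordinates of `ℝ^k`: near infinity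
`g_ij - δ_ij = O(r^{-τ})`, `∂ g_ij = O(r^{-τ-1})`, `∂∂ g_ij = O(r^{-τ-2})`. -/
def IsAsymptoticallyFlat (g : Met k) (τ : ℝ) : Prop :=
  ∃ C R₀ : ℝ, 0 < R₀ ∧ ∀ x : V k, R₀ ≤ nrm x → ∀ i j a b : Fin k,
    |g x i j - (1 : Matrix (Fin k) (Fin k) ℝ) i j| ≤ C * nrm x ^ (-τ) ∧
    |pd a (fun z => g z i j) x| ≤ C * nrm x ^ (-τ - 1) ∧
    |pd b (pd a (fun z => g z i j)) x| ≤ C * nrm x ^ (-τ - 2)

end

end Pool.Agent.H791.GBC
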