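import Pool.Agent.H791.GBC.Unif

namespace Pool.Agent.H791.GBC

open MeasureTheory Filter Topology Real

noncomputable section

variable {l : ℕ}

/-! ### The cutoff functions -/

/-- The cutoff near the pole, in stereographic coordinates. -/
def cut (y : V (l + 3)) : ℝ := smoothTransition (1 - 3 * sq y)

theorem cut_smooth : ContDiff ℝ (⊤ : ℕ∞) (cut : V (l + 3) → ℝ) := by
  unfold cut
  exact Real.smoothTransition.contDiff.comp (contDiff_const.sub (contDiff_const.mul sq_smooth))

theorem cut_nonneg (y : V (l + 3)) : 0 ≤ cut y := Real.smoothTransition.nonneg _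

theorem cut_le_one (y : V (l + 3)) : cut y ≤ 1 := Real.smoothTransition.le_one _

theorem cut_eq_zero {y : V (l + 3)} (h : 1 / 3 ≤ sq y) : cut y = 0 :=
  Real.smoothTransition.zero_of_nonpos (by linarith)

theorem cut_pos {y : V (l + 3)} (h : sq y < 1 / 3) : 0 < cut y :=
  Real.smoothTransition.pos_of_pos (by linarith)

theorem integral_cut_pos : 0 < ∫ y in B (l + 3), cut y ^ 4 := by
  have hc : Continuous fun y : V (l + 3) => cut y ^ 4 := cut_smooth.continuous.pow 4
  have hint : IntegrableOn (fun y : V (l + 3) => cut y ^ 4) (B (l + 3)) :=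
    hc.continuousOn.integrableOn_compact (isCompact_B _)
  rw [setIntegral_pos_iff_support_of_nonneg_ae
    (Filter.Eventually.of_forall fun y => by positivity) hint]
  set U : Set (V (l + 3)) := {y | sq y < 1 / 3} with hU
  have hUo : IsOpen U := isOpen_lt sq_smooth.continuous continuous_const
  have hUn : U.Nonempty := ⟨0, by simp [hU, sq]⟩
  refine (hUo.measure_pos volume hUn).trans_le (measure_mono ?_)
  intro y hy
  refine ⟨?_, ?_⟩
  · simp only [Function.mem_support]
    exact pow_ne_zero 4 (cut_pos hy).ne'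
  · have : sq y < 1 / 3 := hy
    rw [mem_B]; linarith

/-- The scaled cutoff. -/
def cc (c : ℝ) (y : V (l + 3)) : ℝ := c * cut y

theorem cc_smooth (c : ℝ) : ContDiff ℝ (⊤ : ℕ∞) (cc c : V (l + 3) → ℝ) :=
  contDiff_const.mul cut_smooth

theorem cc_nonneg {c : ℝ} (hc : 0 < c) (y : V (l + 3)) : 0 ≤ cc c y :=
  mul_nonneg hc.le (cut_nonneg y)

theorem cc_le_one {c : ℝ} (hc1 : c ≤ 1) (y : V (l + 3)) : cc c y ≤ 1 :=
  mul_le_one₀ hc1 (cut_nonneg y) (cut_le_one y)

theorem integral_cc_pos {c : ℝ} (hc : 0 < c) : 0 < ∫ y in B (l + 3), cc c y ^ 4 := by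
  have h : ∀ y : V (l + 3), cc c y ^ 4 = c ^ 4 * cut y ^ 4 := fun y => by rw [cc]; ring
  simp_rw [h]
  rw [integral_const_mul]
  have := integral_cut_pos (l := l)
  positivity

/-! ### The radial functions -/

/-- Stereographic projection. -/
def ster (x : V (l + 4)) : V (l + 3) := fun i => x i.succ / (1 + x 0)

/-- The cutoff on the sphere. -/
def Pc (x : V (l + 4)) : ℝ := smoothTransition (4 * x 0 - 1) * cut (ster x)

/-- The radial function on the sphere. -/
def rho (c N : ℝ) (φ : ℝ × ℝ × ℝ) (x : V (l + 4)) : ℝ :=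
  1 + (1 / N * amp * c) * (Pc x * wv φ (N • ster x))

/-- The radial function in stereographic coordinates of the upper hemisphere. -/
def rr (c N : ℝ) (φ : ℝ × ℝ × ℝ) (y : V (l + 3)) : ℝ :=
  1 + (1 / N) * amp * cc c y * wv φ (N • y)

theorem ster_stereo (y : V (l + 3)) : ster (stereo 1 y) = y := by
  funext i
  have h0 : 1 + sq y ≠ 0 := by have := sq_nonneg' y; positivity
  simp only [ster, stereo_succ, stereo_zero]
  field_simp
  ring

theorem rho_stereo (c N : ℝ) (φ : ℝ × ℝ × ℝ) (y : V (l + 3)) :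
    rho c N φ (stereo 1 y) = rr c N φ y := by
  rw [rho, rr, Pc, ster_stereo, cc]
  by_cases h : 1 / 3 ≤ sq y
  · rw [cut_eq_zero h]; ring
  · have hs := sq_nonneg' y
    have h1 : smoothTransition (4 * stereo 1 y 0 - 1) = 1 := by
      apply Real.smoothTransition.one_of_one_le
      rw [stereo_zero]
      have : 1 / 2 ≤ 1 * (1 - sq y) / (1 + sq y) := by
        rw [le_div_iff₀ (by positivity)]; linarith
      linarith
    rw [h1]; ring

theorem Pc_eq_zero {x : V (l + 4)} (h : x 0 ≤ 1 / 4) : Pc x = 0 := by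
  rw [Pc, Real.smoothTransition.zero_of_nonpos (by linarith), zero_mul]

theorem rho_eq_one (c N : ℝ) (φ : ℝ × ℝ × ℝ) {x : V (l + 4)} (h : x 0 ≤ 1 / 4) :
    rho c N φ x = 1 := by
  rw [rho, Pc_eq_zero h]; ring

theorem ster_smoothAt {x : V (l + 4)} (h1 : 1 + x 0 ≠ 0) :
    ContDiffAt ℝ (⊤ : ℕ∞) (ster : V (l + 4) → V (l + 3)) x := by
  rw [contDiffAt_pi]
  intro i
  refine ContDiffAt.div ?_ ?_ h1 <;> fun_prop

/-- Smoothness of functions which are cut off by `Pc`. -/
theorem smooth_of_Pc {f : V (l + 4) → ℝ}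
    (hf : ∀ x : V (l + 4), 1 + x 0 ≠ 0 → ContDiffAt ℝ (⊤ : ℕ∞) f x) (hPf : ∀ x : V (l + 4),
      x 0 ≤ 1 / 4 → f x = 0) : ContDiff ℝ (⊤ : ℕ∞) f := by
  rw [contDiff_iff_contDiffAt]
  intro x
  by_cases h : x 0 < 1 / 4
  · have hc : Continuous fun x : V (l + 4) => x 0 := by fun_prop
    have h1 : f =ᶠ[𝓝 x] fun _ => 0 := by
      filter_upwards [(isOpen_lt hc continuous_const).mem_nhds h] with z hz
      exact hPf z (le_of_lt hz)
    exact contDiffAt_const.congr_of_eventuallyEq h1
  · exact hf x (by intro h2; apply h; linarith)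

theorem Pc_smoothAt {x : V (l + 4)} (h1 : 1 + x 0 ≠ 0) :
    ContDiffAt ℝ (⊤ : ℕ∞) (Pc : V (l + 4) → ℝ) x := by
  have hs := ster_smoothAt h1
  have h2 : ContDiffAt ℝ (⊤ : ℕ∞) (fun x : V (l + 4) => cut (ster x)) x :=
    ContDiffAt.comp (g := cut) (f := ster) x cut_smooth.contDiffAt hs
  have h4 : ContDiffAt ℝ (⊤ : ℕ∞) (fun x : V (l + 4) => smoothTransition (4 * x 0 - 1)) x := by
    refine ContDiffAt.comp (g := smoothTransition) (f := fun x : V (l + 4) => 4 * x 0 - 1) x
      Real.smoothTransition.contDiffAt ?_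
    fun_prop
  exact h4.mul h2

theorem Pc_smooth : ContDiff ℝ (⊤ : ℕ∞) (Pc : V (l + 4) → ℝ) :=
  smooth_of_Pc (fun _ h => Pc_smoothAt h) fun _ h => Pc_eq_zero h

theorem wvs_smoothAt (N : ℝ) (φ : ℝ × ℝ × ℝ) {x : V (l + 4)} (h1 : 1 + x 0 ≠ 0) :
    ContDiffAt ℝ (⊤ : ℕ∞) (fun x : V (l + 4) => wv φ (N • ster x)) x :=
  ContDiffAt.comp (g := wv φ) (f := fun x : V (l + 4) => N • ster x) x
    (wv_smooth φ).contDiffAt ((ster_smoothAt h1).const_smul N)

theorem rho_smooth (c N : ℝ) (φ : ℝ × ℝ × ℝ) :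
    ContDiff ℝ (⊤ : ℕ∞) (rho c N φ : V (l + 4) → ℝ) := by
  have h : ContDiff ℝ (⊤ : ℕ∞) (fun x : V (l + 4) => Pc x * wv φ (N • ster x)) :=
    smooth_of_Pc (fun _ h => (Pc_smoothAt h).mul (wvs_smoothAt N φ h)) fun _ h => by
      rw [Pc_eq_zero h, zero_mul]
  exact contDiff_const.add (contDiff_const.mul h)

theorem abs_Pc_le (x : V (l + 4)) : |Pc x| ≤ 1 := by
  have h1 : |smoothTransition (4 * x 0 - 1)| ≤ 1 := by
    rw [abs_of_nonneg (Real.smoothTransition.nonneg _)]; exact Real.smoothTransition.le_one _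
  have h2 : |cut (ster x)| ≤ 1 := by
    rw [abs_of_nonneg (cut_nonneg _)]; exact cut_le_one _
  exact (bmul h1 h2).trans (by norm_num)

theorem amp_pos : 0 < amp := by norm_num [amp]

theorem abs_rho_sub_one {c N : ℝ} (hc : 0 < c) (hc1 : c ≤ 1) (hN : 0 < N) (φ : ℝ × ℝ × ℝ)
    (x : V (l + 4)) : |rho c N φ x - 1| ≤ 1 / N * (1 / 500) := by
  have h3 : |1 / N * amp * c| ≤ 1 / N * (1 / 1000) * 1 := by
    have := amp_pos
    rw [abs_of_nonneg (by positivity), amp]
    gcongr
  have h4 := bmul h3 (bmul (abs_Pc_le x) (abs_wv_le φ (N • ster x)))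
  have h5 : rho c N φ x - 1 = (1 / N * amp * c) * (Pc x * wv φ (N • ster x)) := by rw [rho]; ring
  rw [h5]
  refine h4.trans (le_of_eq ?_)
  ring

/-! ### The gradient of the radial function -/

theorem abs_pd_wv_le (φ : ℝ × ℝ × ℝ) (a : Fin (l + 3)) (z : V (l + 3)) : |pd a (wv φ) z| ≤ 4 := by
  have hi : ∀ p : Prop, ∀ _ : Decidable p, |(if p then (1 : ℝ) else 0)| ≤ 1 := by
    intro p _; split_ifs <;> simp
  rw [pd_wv]
  refine (badd (badd (bmul (bmul (bneg (abs_sin_le_one _)) (hi _ _)) (abs_cos_le_one _))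
    (bmul (abs_cos_le_one _) (bmul (bneg (abs_sin_le_one _)) (hi _ _))))
    (badd (bmul (bmul (abs_cos_le_one _) (hi _ _)) (abs_cos_le_one _))
    (bmul (abs_sin_le_one _) (bmul (bneg (abs_sin_le_one _)) (hi _ _))))).trans (by norm_num)

theorem abs_pd_ster_le {x : V (l + 4)} (h : 1 / 4 ≤ x 0) (hx : ∀ i, |x i| ≤ 1) (i : Fin (l + 4))
    (j : Fin (l + 3)) : |pd i (fun z : V (l + 4) => ster z j) x| ≤ 2 := by
  have h0 : 1 + x 0 ≠ 0 := by intro h1; linarith
  have hd : HasDerivAt (fun q : ℝ => 1 / (1 + q)) (-1 / (1 + x 0) ^ 2) (x 0) := by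
    have h1 : HasDerivAt (fun _ : ℝ => (1 : ℝ)) 0 (x 0) := hasDerivAt_const _ _
    have h2 : HasDerivAt (fun q : ℝ => 1 + q) 1 (x 0) := (hasDerivAt_id (x 0)).const_add 1
    have h3 := h1.fun_div h2 h0
    have e : (0 * (1 + x 0) - 1 * 1) / (1 + x 0) ^ 2 = -1 / (1 + x 0) ^ 2 := by ring
    rw [e] at h3
    exact h3
  have hc0 : DifferentiableAt ℝ (fun z : V (l + 4) => z 0) x := by fun_prop
  have hcj : DifferentiableAt ℝ (fun z : V (l + 4) => z j.succ) x := by fun_prop
  have h2 := pd_comp_real (f := fun z : V (l + 4) => z 0) hd hc0 i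
  have hdd : DifferentiableAt ℝ (fun z : V (l + 4) => 1 / (1 + z 0)) x :=
    (hd.comp_hasFDerivAt (f := fun z : V (l + 4) => z 0) x hc0.hasFDerivAt).differentiableAt
  have h3 : (fun z : V (l + 4) => ster z j) = fun z => z j.succ * (1 / (1 + z 0)) := by
    funext z; rw [ster]; ring
  have hi : ∀ p : Prop, ∀ _ : Decidable p, |(if p then (1 : ℝ) else 0)| ≤ 1 := by
    intro p _; split_ifs <;> simp
  have hb1 : |1 / (1 + x 0)| ≤ 1 := by
    rw [abs_of_pos (by positivity), div_le_one (by linarith)]; linarith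
  have hb2 : |-1 / (1 + x 0) ^ 2| ≤ 1 := by
    rw [neg_div, abs_neg, abs_of_pos (by positivity), div_le_one (by positivity)]
    nlinarith
  rw [h3, pd_mul hcj hdd, h2, pd_coord, pd_coord]
  exact (badd (bmul (hi _ _) hb1) (bmul (hx _) (bmul hb2 (hi _ _)))).trans (by norm_num)

/-- A bound for the gradient of the radial function on the unit sphere. -/
theorem exists_grad_bound : ∃ C : ℝ, 0 < C ∧ ∀ c N : ℝ, 0 < c → 1 ≤ N → ∀ φ : ℝ × ℝ × ℝ,
    ∀ x : V (l + 4), nrm x = 1 → ∀ i, |pd i (rho c N φ) x| ≤ C * c := by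
  have hP : Continuous fun x : V (l + 4) => (fun i => pd i Pc x : V (l + 4)) :=
    continuous_pi fun i => (pd_smooth Pc_smooth i).continuous
  have hx1 : ∀ x : V (l + 4), nrm x = 1 → ∀ i, |x i| ≤ 1 := by
    intro x hx i
    have h1 : ∑ j, x j ^ 2 = 1 := by
      rw [nrm] at hx
      have h0 : 0 ≤ ∑ j, x j ^ 2 := Finset.sum_nonneg fun _ _ => sq_nonneg _
      have := Real.sq_sqrt h0
      rw [hx] at this
      linarith
    have h2 : x i ^ 2 ≤ 1 := h1 ▸ Finset.single_le_sum (f := fun j => x j ^ 2)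
      (fun j _ => sq_nonneg (x j)) (Finset.mem_univ i)
    exact abs_le.2 ⟨by nlinarith, by nlinarith⟩
  have hcomp : IsCompact {x : V (l + 4) | nrm x = 1} := by
    have hc : Continuous (nrm : V (l + 4) → ℝ) := by unfold nrm; fun_prop
    refine IsCompact.of_isClosed_subset (isCompact_univ_pi
      (s := fun _ : Fin (l + 4) => Set.Icc (-1 : ℝ) 1) fun _ => isCompact_Icc)
      (isClosed_eq hc continuous_const) ?_
    intro x hx i _
    exact ⟨(abs_le.1 (hx1 x hx i)).1, (abs_le.1 (hx1 x hx i)).2⟩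
  obtain ⟨C, hC⟩ := hcomp.exists_bound_of_continuousOn hP.continuousOn
  refine ⟨2 * |C| + 8 * (l + 3) + 1, by positivity, fun c N hc hN φ x hx i => ?_⟩
  have hN0 : 0 < N := by linarith
  have hamp := amp_pos
  by_cases h : x 0 < 1 / 4
  · have hcc : Continuous fun x : V (l + 4) => x 0 := by fun_prop
    have h1 : (rho c N φ : V (l + 4) → ℝ) =ᶠ[𝓝 x] fun _ => 1 := by
      filter_upwards [(isOpen_lt hcc continuous_const).mem_nhds h] with z hz
      exact rho_eq_one c N φ (le_of_lt hz)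
    rw [pd_congr h1 i, pd_const, abs_zero]
    positivity
  · push Not at h
    have h0 : 1 + x 0 ≠ 0 := by intro h1; linarith
    have hPd : DifferentiableAt ℝ (Pc : V (l + 4) → ℝ) x := Pc_smooth.differentiable (by simp) x
    have hsd : DifferentiableAt ℝ (ster : V (l + 4) → V (l + 3)) x :=
      (ster_smoothAt h0).differentiableAt (by simp)
    have hNsd : DifferentiableAt ℝ (fun x : V (l + 4) => N • ster x) x := hsd.const_smul N
    have hwd : DifferentiableAt ℝ (fun x : V (l + 4) => wv φ (N • ster x)) x :=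
      (wvs_smoothAt N φ h0).differentiableAt (by simp)
    have e1 : pd i (fun x : V (l + 4) => wv φ (N • ster x)) x
        = ∑ j, pd j (wv φ) (N • ster x) * (N * pd i (fun z : V (l + 4) => ster z j) x) := by
      have := pd_comp (f := wv φ) (F := fun x : V (l + 4) => N • ster x) (x := x)
        ((wv_smooth φ).differentiable (by simp) _) hNsd i
      rw [this]
      refine Finset.sum_congr rfl fun j _ => ?_
      congr 1
      have hsj : DifferentiableAt ℝ (fun z : V (l + 4) => ster z j) x :=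
        differentiableAt_pi.1 hsd j
      exact pd_const_mul N hsj i
    have e2 : pd i (rho c N φ) x = (1 / N * amp * c) * (pd i Pc x * wv φ (N • ster x)
        + Pc x * ∑ j, pd j (wv φ) (N • ster x) * (N * pd i (fun z : V (l + 4) => ster z j) x)) := by
      have e3 : (rho c N φ : V (l + 4) → ℝ)
          = fun x => 1 + (1 / N * amp * c) * (Pc x * wv φ (N • ster x)) := rfl
      rw [e3, pd_add (differentiableAt_const _) ((hPd.fun_mul hwd).const_mul _), pd_const,
        zero_add, pd_const_mul _ (hPd.fun_mul hwd), pd_mul hPd hwd, e1]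
    have b1 : |pd i Pc x| ≤ |C| := by
      have := (norm_le_pi_norm (fun i => pd i Pc x : V (l + 4)) i).trans (hC x hx)
      exact (Real.norm_eq_abs _ ▸ this).trans (le_abs_self C)
    have b2 : |∑ j, pd j (wv φ) (N • ster x) * (N * pd i (fun z : V (l + 4) => ster z j) x)|
        ≤ (l + 3) * (4 * (N * 2)) := by
      refine (Finset.abs_sum_le_sum_abs _ _).trans ?_
      calc ∑ j, |pd j (wv φ) (N • ster x) * (N * pd i (fun z : V (l + 4) => ster z j) x)|
          ≤ ∑ _j : Fin (l + 3), (4 * (N * 2) : ℝ) := Finset.sum_le_sum fun j _ =>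
            bmul (abs_pd_wv_le φ j _) (bmul (le_of_eq (abs_of_pos hN0))
              (abs_pd_ster_le h (hx1 x hx) i j))
        _ = (l + 3) * (4 * (N * 2)) := by
            rw [Finset.sum_const, Finset.card_univ, Fintype.card_fin, nsmul_eq_mul]
            push_cast; ring
    have b3 : |1 / N * amp * c| ≤ 1 / N * c := by
      rw [abs_of_pos (by positivity)]
      have : amp ≤ 1 := by norm_num [amp]
      calc 1 / N * amp * c ≤ 1 / N * 1 * c := by gcongr
        _ = _ := by ring
    rw [e2]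
    refine (bmul b3 (badd (bmul b1 (abs_wv_le φ _)) (bmul (abs_Pc_le x) b2))).trans ?_
    have e4 : 1 / N * c * (|C| * 2 + 1 * ((l + 3) * (4 * (N * 2))))
        = (2 * |C| * (1 / N) + 8 * (l + 3)) * c := by
      field_simp
      ring
    rw [e4]
    have h5 : 1 / N ≤ 1 := by rw [div_le_one hN0]; exact hN
    have h6 : 2 * |C| * (1 / N) ≤ 2 * |C| * 1 := by gcongr
    exact mul_le_mul_of_nonneg_right (by linarith) hc.le

/-! ### The density on the upper hemisphere -/

theorem wvN_smooth (N : ℝ) (φ : ℝ × ℝ × ℝ) :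
    ContDiff ℝ (⊤ : ℕ∞) (fun x : V (l + 3) => wv φ (N • x)) :=
  ContDiff.comp (g := wv φ) (f := fun x : V (l + 3) => N • x) (wv_smooth φ) (by fun_prop)

theorem rr_smooth (c N : ℝ) (φ : ℝ × ℝ × ℝ) :
    ContDiff ℝ (⊤ : ℕ∞) (rr c N φ : V (l + 3) → ℝ) :=
  contDiff_const.add ((contDiff_const.mul (cc_smooth c)).mul (wvN_smooth N φ))

/-- The induced metric in stereographic coordinates of the upper hemisphere. -/
def hN (c N : ℝ) (φ : ℝ × ℝ × ℝ) : Met (l + 3) := fun z => Matrix.of fun a b : Fin (l + 3) =>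
  (rr c N φ z) ^ 2 * (4 / (1 + sq z) ^ 2) * (if a = b then 1 else 0)
    + pd a (rr c N φ) z * pd b (rr c N φ) z

theorem hN_smooth (c N : ℝ) (φ : ℝ × ℝ × ℝ) (i j : Fin (l + 3)) :
    ContDiff ℝ (⊤ : ℕ∞) (fun z => hN (l := l) c N φ z i j) := by
  have h4 : ContDiff ℝ (⊤ : ℕ∞) (fun x : V (l + 3) => 4 / (1 + sq x) ^ 2) := by
    refine ContDiff.div contDiff_const ?_ ?_
    · exact (contDiff_const.add sq_smooth).pow 2
    · intro x
      have := sq_nonneg' x
      positivity
  exact ((((rr_smooth c N φ).pow 2).mul h4).mul contDiff_const).add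
    ((pd_smooth (rr_smooth c N φ) i).mul (pd_smooth (rr_smooth c N φ) j))

theorem wv_shift (φ : ℝ × ℝ × ℝ) (N : ℝ) (y z : V (l + 3)) :
    wv φ (N • y + z) = wv (φ.1 + N * y 0, φ.2.1 + N * y 1, φ.2.2 + N * y 2) z := by
  simp only [wv, Pi.add_apply, Pi.smul_apply, smul_eq_mul]
  have e0 : N * y 0 + z 0 + φ.1 = z 0 + (φ.1 + N * y 0) := by ring
  have e1 : N * y 1 + z 1 + φ.2.1 = z 1 + (φ.2.1 + N * y 1) := by ring
  have e2 : N * y 2 + z 2 + φ.2.2 = z 2 + (φ.2.2 + N * y 2) := by ring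
  rw [e0, e1, e2]

theorem shift_arg (N : ℝ) (y : V (l + 3)) (m : Ph) :
    shift (arg N y) m = ((shift 0 m).1 + N * y 0, (shift 0 m).2.1 + N * y 1,
      (shift 0 m).2.2 + N * y 2) := by
  simp only [shift, arg, Prod.fst_zero, Prod.snd_zero, zero_add]
  refine Prod.ext ?_ (Prod.ext ?_ ?_) <;> simp only <;> ring

theorem hN_affine (c : ℝ) {N : ℝ} (hN0 : 0 < N) (m : Ph) (y : V (l + 3)) :
    (fun z => hN (l := l) c N (shift 0 m) (y + (1 / N) • z))
      = Hp (cc c) ((1 / N, y, shift (arg N y) m) : Par l) := by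
  set φ := shift 0 m with hφ
  set q := shift (arg N y) m with hq
  have hq' : q = (φ.1 + N * y 0, φ.2.1 + N * y 1, φ.2.2 + N * y 2) := shift_arg N y m
  have hNy : ∀ z : V (l + 3), N • (y + (1 / N) • z) = N • y + z := by
    intro z
    rw [smul_add, smul_smul]
    have : N * (1 / N) = 1 := by field_simp
    rw [this, one_smul]
  have hwv : ∀ z : V (l + 3), wv φ (N • (y + (1 / N) • z)) = wv q z := by
    intro z
    rw [hNy, wv_shift, hq']
  have hdw : Differentiable ℝ (wv φ : V (l + 3) → ℝ) := (wv_smooth φ).differentiable (by simp)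
  have hwd : ∀ a, ∀ z : V (l + 3), pd a (wv φ) (N • (y + (1 / N) • z)) = pd a (wv q) z := by
    intro a z
    have h1 : (wv q : V (l + 3) → ℝ) = fun z => wv φ (N • y + (1 : ℝ) • z) := by
      funext z
      rw [one_smul, wv_shift, hq']
    rw [h1, pd_affine (f := wv φ) (N • y) 1 z (hdw _) a, hNy, one_smul, one_mul]
  have hr : ∀ z : V (l + 3), rr c N φ (y + (1 / N) • z)
      = Rp (cc c) (((1 / N, y, q) : Par l), z) := by
    intro z
    simp only [rr, Rp, hwv]
  have hrd : ∀ a, ∀ z : V (l + 3), pd a (rr c N φ) (y + (1 / N) • z)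
      = Vp (cc c) a (((1 / N, y, q) : Par l), z) := by
    intro a z
    have h1 : ∀ x : V (l + 3), pd a (rr c N φ) x = (1 / N) * amp *
        (pd a (cc c) x * wv φ (N • x) + cc c x * (N * pd a (wv φ) (N • x))) := by
      intro x
      have hcd : DifferentiableAt ℝ (cc c : V (l + 3) → ℝ) x :=
        (cc_smooth c).differentiable (by simp) x
      have e0 : (fun x : V (l + 3) => wv φ (N • x)) = fun x => wv φ (0 + N • x) := by
        funext x; rw [zero_add]
      have hwd' : DifferentiableAt ℝ (fun x : V (l + 3) => wv φ (N • x)) x :=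
        (wvN_smooth N φ).differentiable (by simp) x
      have e1 : pd a (fun x : V (l + 3) => wv φ (N • x)) x = N * pd a (wv φ) (N • x) := by
        rw [e0, pd_affine (f := wv φ) 0 N x (hdw _) a, zero_add]
      have e2 : (rr c N φ : V (l + 3) → ℝ)
          = fun x => 1 + (1 / N) * amp * (cc c x * wv φ (N • x)) := by
        funext x; rw [rr]; ring
      rw [e2, pd_add (differentiableAt_const _) ((hcd.fun_mul hwd').const_mul _), pd_const, zero_add,
        pd_const_mul _ (hcd.fun_mul hwd'), pd_mul hcd hwd', e1]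
    rw [h1, hwv, hwd, Vp]
    field_simp
    ring
  funext z
  ext a b
  simp only [hN, Hp, Kp, Matrix.of_apply, hr, hrd]

theorem density_upper (c : ℝ) {N : ℝ} (hN0 : 0 < N) (m : Ph) (y : V (l + 3)) :
    scalDensity (induced (fun _ => 1) (starParam (rho c N (shift 0 m)) 1)) y
      = N ^ 2 * Gp (cc c) ((1 / N, y, shift (arg N y) m) : Par l) := by
  have h1 : induced (fun _ => 1) (starParam (rho c N (shift 0 m)) 1)
      = hN (l := l) c N (shift 0 m) := by
    funext z
    have h2 : (starParam (rho c N (shift 0 m)) 1 : V (l + 3) → V (l + 4))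
        = fun (z : V (l + 3)) (i : Fin (l + 4)) => rr c N (shift 0 m) z * stereo 1 z i := by
      funext z i
      rw [starParam, rho_stereo]
    rw [h2]
    exact induced_flat (by norm_num) ((rr_smooth c N _).differentiable (by simp) z)
  rw [h1, Gp, ← hN_affine c hN0, density_affine (fun i j => hN_smooth c N _ i j)]
  field_simp

/-! ### The lower hemisphere -/

theorem jet_congr {k : ℕ} {h h' : Met k} {y : V k} (hh : h =ᶠ[𝓝 y] h') : jet h y = jet h' y := by
  have h1 : ∀ i j, (fun z => h z i j) =ᶠ[𝓝 y] fun z => h' z i j := fun i j => by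
    filter_upwards [hh] with z hz
    rw [hz]
  refine Prod.ext ?_ (Prod.ext ?_ ?_)
  · funext i j
    exact (h1 i j).eq_of_nhds
  · funext c i j
    exact pd_congr (h1 i j) c
  · funext d c i j
    refine pd_congr ?_ d
    filter_upwards [(h1 i j).eventuallyEq_nhds] with z hz
    exact pd_congr hz c

theorem induced_congr {k l : ℕ} {g : Met l} {F G : V k → V l} {y : V k} (hh : F =ᶠ[𝓝 y] G) :
    induced g F =ᶠ[𝓝 y] induced g G := by
  filter_upwards [hh.eventuallyEq_nhds] with z hz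
  have h1 : ∀ i, (fun x => F x i) =ᶠ[𝓝 z] fun x => G x i := fun i => by
    filter_upwards [hz] with x hx
    rw [hx]
  ext a b
  simp only [induced, Matrix.of_apply, hz.eq_of_nhds, pd_congr (h1 _) _]

theorem density_lower (g : Met (l + 4)) (c N : ℝ) (φ : ℝ × ℝ × ℝ) {y : V (l + 3)}
    (hy : y ∈ B (l + 3)) :
    scalDensity (induced g (starParam (rho c N φ) (-1))) y
      = scalDensity (induced g (starParam (fun _ => 1) (-1))) y := by
  rw [scalDensity_eq, scalDensity_eq]
  congr 1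
  apply jet_congr
  apply induced_congr
  have hc : Continuous fun z : V (l + 3) => stereo (-1) z 0 :=
    (stereo_smooth (-1) 0).continuous
  have h0 : stereo (-1) y 0 < 1 / 4 := by
    have hs := sq_nonneg' y
    have hy1 := mem_B.1 hy
    rw [stereo_zero]
    have : -1 * (1 - sq y) / (1 + sq y) ≤ 0 := by
      apply div_nonpos_of_nonpos_of_nonneg <;> linarith
    linarith
  filter_upwards [(isOpen_lt hc continuous_const).mem_nhds h0] with z hz
  funext i
  rw [starParam, starParam, rho_eq_one c N φ (le_of_lt hz)]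

theorem flat_exists (ε I : ℝ) (hε : 0 < ε) : ∃ ρ : V (l + 4) → ℝ, ContDiff ℝ (⊤ : ℕ∞) ρ ∧
    (∀ x, |ρ x - 1| < ε) ∧ (∀ x, nrm x = 1 → ∀ i, |pd i ρ x| < ε) ∧
    totalScal (fun _ => 1) ρ < I := by
  obtain ⟨C₁, hC₁, hgrad⟩ := exists_grad_bound (l := l)
  obtain ⟨c, hc, hc1, hcε⟩ : ∃ c : ℝ, 0 < c ∧ c ≤ 1 ∧ C₁ * c < ε := by
    refine ⟨min 1 (ε / (2 * C₁)), lt_min one_pos (by positivity), min_le_left _ _, ?_⟩
    calc C₁ * min 1 (ε / (2 * C₁)) ≤ C₁ * (ε / (2 * C₁)) := by
          gcongr; exact min_le_right _ _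
      _ = ε / 2 := by field_simp
      _ < ε := by linarith
  obtain ⟨κ, hκ, δ, hδ, hph⟩ := exists_phase (χ := (cc c : V (l + 3) → ℝ)) (cc_smooth c)
    (cc_nonneg hc) (cc_le_one hc1) (integral_cc_pos hc)
  set C := ∫ y in B (l + 3), scalDensity
    (induced (fun _ => 1) (starParam (fun _ : V (l + 4) => (1 : ℝ)) (-1))) y with hC
  -- choice of N
  obtain ⟨N, hN1⟩ := exists_gt (max (max (1 / δ) 1) (max (1 / ε) ((C - I) / κ)))
  have hNδ : 1 / δ < N := lt_of_le_of_lt (le_trans (le_max_left _ _) (le_max_left _ _)) hN1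
  have hN1' : 1 < N := lt_of_le_of_lt (le_trans (le_max_right _ _) (le_max_left _ _)) hN1
  have hNε : 1 / ε < N := lt_of_le_of_lt (le_trans (le_max_left _ _) (le_max_right _ _)) hN1
  have hNI : (C - I) / κ < N := lt_of_le_of_lt (le_trans (le_max_right _ _) (le_max_right _ _)) hN1
  have hN0 : 0 < N := by linarith
  have ht : |1 / N| < δ := by
    rw [abs_of_pos (by positivity), div_lt_iff₀ hN0]
    rwa [div_lt_iff₀ hδ, mul_comm] at hNδ
  obtain ⟨m, hm⟩ := hph (1 / N) ht N
  refine ⟨rho c N (shift 0 m), rho_smooth c N _, fun x => ?_, fun x hx i => ?_, ?_⟩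
  · refine (abs_rho_sub_one hc hc1 hN0 _ x).trans_lt ?_
    rw [div_lt_iff₀ hε] at hNε
    have : 1 / N < ε := by rw [div_lt_iff₀ hN0]; linarith
    have h2 : 0 < 1 / N := by positivity
    nlinarith
  · exact (hgrad c N hc hN1'.le _ x hx i).trans_lt hcε
  · have hmeas : MeasurableSet (B (l + 3)) := (isCompact_B _).isClosed.measurableSet
    have e1 : ∫ y in B (l + 3), scalDensity
        (induced (fun _ => 1) (starParam (rho c N (shift 0 m)) 1)) y
        = N ^ 2 * ∫ y in B (l + 3), Gp (cc c) ((1 / N, y, shift (arg N y) m) : Par l) := by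
      rw [← integral_const_mul]
      exact setIntegral_congr_fun hmeas fun y _ => density_upper c hN0 m y
    have e2 : ∫ y in B (l + 3), scalDensity
        (induced (fun _ => 1) (starParam (rho c N (shift 0 m)) (-1))) y = C :=
      setIntegral_congr_fun hmeas fun y hy => density_lower _ c N _ hy
    have e3 : totalScal (fun _ => 1) (rho c N (shift 0 m) : V (l + 4) → ℝ)
      = (∫ y in B (l + 3), scalDensity
        (induced (fun _ => 1) (starParam (rho c N (shift 0 m)) 1)) y)
        + ∫ y in B (l + 3), scalDensity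
        (induced (fun _ => 1) (starParam (rho c N (shift 0 m)) (-1))) y := rfl
    rw [e3, e1, e2]
    have e4 : N ^ 2 * (∫ y in B (l + 3), Gp (cc c) ((1 / N, y, shift (arg N y) m) : Par l))
        ≤ N ^ 2 * (-κ) := by gcongr
    have e5 : C - I < N * κ := by rwa [div_lt_iff₀ hκ] at hNI
    have e6 : N * κ ≤ N ^ 2 * κ := by
      have : N ≤ N ^ 2 := by nlinarith
      gcongr
    linarith

end

end Pool.Agent.H791.GBC
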