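import Pool.Agent.H791.GBC.Jets

namespace Pool.Agent.H791.GBC

open MeasureTheory Filter Topology

noncomputable section

variable {k : ℕ}

theorem inv_cI_add_vv (v : V k) {c : ℝ} (hc : 0 < c) :
    (Matrix.of fun i j : Fin k => c * (if i = j then 1 else 0) + v i * v j)⁻¹
      = Matrix.of fun i j : Fin k => c⁻¹ * ((if i = j then 1 else 0)
        - v i * v j / (c + ∑ a, v a ^ 2)) := by
  have hW : c + ∑ a, v a ^ 2 ≠ 0 := by
    have : 0 ≤ ∑ a, v a ^ 2 := Finset.sum_nonneg fun a _ => sq_nonneg _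
    linarith
  apply Matrix.inv_eq_right_inv
  ext i j
  simp only [Matrix.mul_apply, Matrix.of_apply, Matrix.one_apply]
  have h1 : ∀ x, (c * (if i = x then 1 else 0) + v i * v x) *
      (c⁻¹ * ((if x = j then 1 else 0) - v x * v j / (c + ∑ a, v a ^ 2)))
      = (if i = x then ((if x = j then 1 else 0) - v x * v j / (c + ∑ a, v a ^ 2)) else 0)
        + (if x = j then c⁻¹ * v i * v x else 0)
        - c⁻¹ * v i * v j / (c + ∑ a, v a ^ 2) * v x ^ 2 := by
    intro x
    split_ifs <;> field_simp <;> ring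
  simp_rw [h1]
  rw [Finset.sum_sub_distrib, Finset.sum_add_distrib, ← Finset.mul_sum]
  simp only [Finset.sum_ite_eq, Finset.sum_ite_eq', Finset.mem_univ, if_true]
  field_simp
  ring

theorem det_cI_add_vv (v : V (k + 1)) {c : ℝ} (hc : 0 < c) :
    (Matrix.of fun i j : Fin (k + 1) => c * (if i = j then 1 else 0) + v i * v j).det
      = c ^ k * (c + ∑ a, v a ^ 2) := by
  have h0 : (Matrix.of fun i j : Fin (k + 1) => c * (if i = j then 1 else 0) + v i * v j)
      = c • (1 + Matrix.replicateCol Unit (c⁻¹ • v) * Matrix.replicateRow Unit v) := by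
    ext i j
    simp [Matrix.mul_apply, Matrix.one_apply, mul_add]
    field_simp
  rw [h0, Matrix.det_smul, Matrix.det_one_add_replicateCol_mul_replicateRow, Fintype.card_fin]
  simp only [dotProduct, Pi.smul_apply, smul_eq_mul]
  have : ∑ x, v x * (c⁻¹ * v x) = c⁻¹ * ∑ a, v a ^ 2 := by
    rw [Finset.mul_sum]; exact Finset.sum_congr rfl fun a _ => by ring
  rw [this, pow_succ]
  field_simp

/-- The induced metric `c δ + ∇f ⊗ ∇f` of the graph of `f`. -/
def graphMet (c : ℝ) (f : V k → ℝ) : Met k := fun z =>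
  Matrix.of fun i j => c * (if i = j then 1 else 0) + pd i f z * pd j f z

/-- `|∇f|²`. -/
def gradSq (f : V k → ℝ) (z : V k) : ℝ := ∑ a, pd a f z ^ 2

/-- `Δf`. -/
def lap (f : V k → ℝ) (z : V k) : ℝ := ∑ a, pd a (pd a f) z

/-- `σ₂(D²f)`. -/
def sig2 (f : V k → ℝ) (z : V k) : ℝ := (lap f z ^ 2 - ∑ a, ∑ b, pd a (pd b f) z ^ 2) / 2

/-- `Δf D²f(∇f, ∇f) - |D²f ∇f|²`. -/
def tau (f : V k → ℝ) (z : V k) : ℝ :=
  lap f z * (∑ a, ∑ b, pd a (pd b f) z * pd a f z * pd b f z)
    - ∑ a, (∑ b, pd a (pd b f) z * pd b f z) ^ 2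

section

variable {f : V k → ℝ} (hf : ContDiff ℝ (⊤ : ℕ∞) f) (c : ℝ)

include hf in
theorem graph_pd1 (i j a : Fin k) (z : V k) :
    pd a (fun z => graphMet c f z i j) z = pd a (pd i f) z * pd j f z + pd i f z * pd a (pd j f) z := by
  have h1 : ∀ i, DifferentiableAt ℝ (pd i f) z := fun i => (pd_smooth hf i).differentiable (by simp) z
  simp only [graphMet, Matrix.of_apply]
  rw [pd_add (differentiableAt_const _) ((h1 i).fun_mul (h1 j)), pd_const, zero_add,
    pd_mul (h1 i) (h1 j)]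

include hf in
theorem graph_pd2 (i j a b : Fin k) (z : V k) :
    pd b (pd a (fun z => graphMet c f z i j)) z
      = pd b (pd a (pd i f)) z * pd j f z + pd a (pd i f) z * pd b (pd j f) z
        + (pd b (pd i f) z * pd a (pd j f) z + pd i f z * pd b (pd a (pd j f)) z) := by
  have h1 : ∀ i, Differentiable ℝ (pd i f) := fun i => (pd_smooth hf i).differentiable (by simp)
  have h2 : ∀ a i, Differentiable ℝ (pd a (pd i f)) := fun a i =>
    (pd_smooth (pd_smooth hf i) a).differentiable (by simp)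
  have h0 : pd a (fun z => graphMet c f z i j)
      = fun z => pd a (pd i f) z * pd j f z + pd i f z * pd a (pd j f) z :=
    funext fun z => graph_pd1 hf c i j a z
  rw [h0, pd_add ((h2 a i z).fun_mul (h1 j z)) ((h1 i z).fun_mul (h2 a j z)), pd_mul (h2 a i z) (h1 j z),
    pd_mul (h1 i z) (h2 a j z)]

include hf in
theorem graph_Gam (m i j : Fin k) (z : V k) :
    Gam (graphMet c f) z m i j = pd i (pd j f) z * pd m f z := by
  have hc := fun a b => pd_comm hf a b z
  rw [Gam, graph_pd1 hf, graph_pd1 hf, graph_pd1 hf, hc j i, hc m i, hc m j]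
  ring

include hf in
theorem graph_Rm (i j a l : Fin k) (z : V k) :
    Rm (graphMet c f) z i j a l
      = (1 - ∑ p, ∑ q, (graphMet c f z)⁻¹ p q * (pd p f z * pd q f z))
        * (pd i (pd a f) z * pd j (pd l f) z - pd j (pd a f) z * pd i (pd l f) z) := by
  have hc := fun a b => pd_comm hf a b z
  have hc3 : ∀ a b m, pd a (pd b (pd m f)) z = pd b (pd a (pd m f)) z := fun a b m =>
    pd_comm (pd_smooth hf m) a b z
  have hc4 : ∀ a b m, pd a (pd b (pd m f)) z = pd a (pd m (pd b f)) z := by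
    intro a b m
    have : pd b (pd m f) = pd m (pd b f) := funext fun z => pd_comm hf b m z
    rw [this]
  rw [Rm]
  simp only [graph_Gam hf, graph_pd2 hf]
  have h1 : ∀ p q, (graphMet c f z)⁻¹ p q *
      (pd j (pd a f) z * pd p f z * (pd i (pd l f) z * pd q f z)
        - pd i (pd a f) z * pd p f z * (pd j (pd l f) z * pd q f z))
      = (graphMet c f z)⁻¹ p q * (pd p f z * pd q f z)
        * (-(pd i (pd a f) z * pd j (pd l f) z - pd j (pd a f) z * pd i (pd l f) z)) := by
    intro p q; ring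
  simp_rw [h1, ← Finset.sum_mul]
  have e1 : pd j (pd a (pd i f)) z = pd i (pd a (pd j f)) z := by
    rw [hc4 j a i, hc3 j i a, hc4 i j a]
  have e2 : pd i (pd l (pd j f)) z = pd j (pd l (pd i f)) z := by
    rw [hc4 i l j, hc3 i j l, hc4 j i l]
  have e3 : pd j (pd a (pd l f)) z = pd j (pd l (pd a f)) z := hc4 j a l
  have e4 : pd i (pd l (pd a f)) z = pd i (pd a (pd l f)) z := hc4 i l a
  rw [e1, e2, e3, e4, hc a i, hc a j, hc l j, hc l i, hc j i, hc l a]
  ring

end

/-- The algebra of the contraction. -/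
theorem contract_aux (H : Fin k → Fin k → ℝ) (hH : ∀ a b, H a b = H b a) (v : V k) (c : ℝ)
    (P : Matrix (Fin k) (Fin k) ℝ) (W2 Q : ℝ) (hW : W2 ≠ 0) (hc : c ≠ 0)
    (hP : P = Matrix.of fun i j : Fin k => c⁻¹ * ((if i = j then 1 else 0) - v i * v j / W2)) :
    (∑ j, ∑ l, P j l * ∑ i, ∑ a, P i a * (Q * (H i a * H j l - H j a * H i l)))
      = Q * (c⁻¹) ^ 2 * ((∑ a, H a a) ^ 2 - ∑ a, ∑ b, H a b ^ 2
        - 2 * ((∑ a, H a a) * (∑ a, ∑ b, H a b * v a * v b)
          - ∑ a, (∑ b, H a b * v b) ^ 2) / W2) := by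
  set u : V k := fun a => ∑ b, H a b * v b with hu
  have hE : ∀ a l, ∑ i, P i a * H i l = c⁻¹ * (H a l - v a * u l / W2) := by
    intro a l
    have h1 : ∀ i, P i a * H i l = (if i = a then c⁻¹ * H i l else 0)
        - c⁻¹ * v a / W2 * (H l i * v i) := by
      intro i
      rw [hP, hH l i]
      simp only [Matrix.of_apply]
      split_ifs <;> field_simp <;> ring
    simp_rw [h1]
    rw [Finset.sum_sub_distrib, ← Finset.mul_sum]
    simp only [Finset.sum_ite_eq', Finset.mem_univ, if_true]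
    rw [hu]; ring
  have hPs : ∀ i j, P i j = P j i := by
    intro i j
    rw [hP]; simp only [Matrix.of_apply, eq_comm]
    ring_nf
  have hg : ∑ a, v a * u a = ∑ a, ∑ b, H a b * v a * v b := by
    refine Finset.sum_congr rfl fun a _ => ?_
    rw [hu, Finset.mul_sum]; exact Finset.sum_congr rfl fun b _ => by ring
  have hA1 : ∑ i, ∑ a, P i a * H i a = c⁻¹ * ((∑ a, H a a) - (∑ a, ∑ b, H a b * v a * v b) / W2) := by
    rw [Finset.sum_comm]
    simp_rw [hE]
    rw [← Finset.mul_sum, Finset.sum_sub_distrib, ← Finset.sum_div, hg]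
  have hA2 : ∑ j, ∑ l, P j l * ∑ i, ∑ a, P i a * (H j a * H i l)
      = (c⁻¹) ^ 2 * ((∑ a, ∑ b, H a b ^ 2) - 2 * (∑ a, u a ^ 2) / W2
        + (∑ a, v a * u a) ^ 2 / W2 ^ 2) := by
    have h1 : ∀ j l, ∑ i, ∑ a, P i a * (H j a * H i l)
        = ∑ a, H j a * (c⁻¹ * (H a l - v a * u l / W2)) := by
      intro j l
      rw [Finset.sum_comm]
      refine Finset.sum_congr rfl fun a _ => ?_
      rw [← hE, Finset.mul_sum]
      exact Finset.sum_congr rfl fun i _ => by ring
    simp_rw [h1, Finset.mul_sum]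
    rw [Finset.sum_comm]
    have h2 : ∀ l, ∑ j, ∑ a, P j l * (H j a * (c⁻¹ * (H a l - v a * u l / W2)))
        = ∑ a, (c⁻¹ * (H l a - v l * u a / W2)) * (c⁻¹ * (H a l - v a * u l / W2)) := by
      intro l
      rw [Finset.sum_comm]
      refine Finset.sum_congr rfl fun a _ => ?_
      rw [← hE l a, Finset.sum_mul]
      exact Finset.sum_congr rfl fun j _ => by ring
    simp_rw [h2]
    have h3 : ∀ l a, (c⁻¹ * (H l a - v l * u a / W2)) * (c⁻¹ * (H a l - v a * u l / W2))
        = (c⁻¹) ^ 2 * (H l a ^ 2 - (v l * u a * H l a) / W2 - (v a * u l * H l a) / W2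
          + (v l * u l) * (v a * u a) / W2 ^ 2) := by
      intro l a
      rw [hH a l]; field_simp; ring
    simp_rw [h3]
    simp_rw [← Finset.mul_sum]
    congr 1
    simp_rw [Finset.sum_add_distrib, Finset.sum_sub_distrib, ← Finset.sum_div]
    have h4 : ∑ l, ∑ a, v l * u a * H l a = ∑ a, u a ^ 2 := by
      rw [Finset.sum_comm]
      refine Finset.sum_congr rfl fun a _ => ?_
      rw [pow_two]
      nth_rewrite 3 [hu]
      rw [Finset.mul_sum]
      exact Finset.sum_congr rfl fun l _ => by rw [hH a l]; ring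
    have h5 : ∑ l, ∑ a, v a * u l * H l a = ∑ a, u a ^ 2 := by
      refine Finset.sum_congr rfl fun a _ => ?_
      rw [pow_two]
      nth_rewrite 3 [hu]
      rw [Finset.mul_sum]
      exact Finset.sum_congr rfl fun l _ => by ring
    have h6 : ∑ l, ∑ a, (v l * u l) * (v a * u a) = (∑ a, v a * u a) ^ 2 := by
      rw [pow_two, Finset.sum_mul_sum]
    rw [h4, h5, h6]; ring
  have hmain : (∑ j, ∑ l, P j l * ∑ i, ∑ a, P i a * (Q * (H i a * H j l - H j a * H i l)))
      = Q * ((∑ i, ∑ a, P i a * H i a) * (∑ i, ∑ a, P i a * H i a)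
        - ∑ j, ∑ l, P j l * ∑ i, ∑ a, P i a * (H j a * H i l)) := by
    have h1 : ∀ j l, ∑ i, ∑ a, P i a * (Q * (H i a * H j l - H j a * H i l))
        = Q * ((∑ i, ∑ a, P i a * H i a) * H j l - ∑ i, ∑ a, P i a * (H j a * H i l)) := by
      intro j l
      rw [Finset.sum_mul, ← Finset.sum_sub_distrib, Finset.mul_sum]
      refine Finset.sum_congr rfl fun i _ => ?_
      rw [Finset.sum_mul, ← Finset.sum_sub_distrib, Finset.mul_sum]
      exact Finset.sum_congr rfl fun a _ => by ring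
    simp_rw [h1]
    rw [Finset.mul_sum, ← Finset.sum_sub_distrib, Finset.mul_sum]
    refine Finset.sum_congr rfl fun j _ => ?_
    rw [Finset.mul_sum, ← Finset.sum_sub_distrib, Finset.mul_sum]
    exact Finset.sum_congr rfl fun l _ => by ring
  rw [hmain, hA1, hA2, hg]
  field_simp
  ring

theorem graph_density {f : V (k + 1) → ℝ} (hf : ContDiff ℝ (⊤ : ℕ∞) f) {c : ℝ} (hc : 0 < c)
    (z : V (k + 1)) :
    scalDensity (graphMet c f) z = 2 * (√(c ^ k) / c) *
      (sig2 f z / √(c + gradSq f z) - tau f z / √(c + gradSq f z) ^ 3) := by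
  have hS : 0 ≤ gradSq f z := Finset.sum_nonneg fun a _ => sq_nonneg _
  have hW : 0 < c + gradSq f z := by linarith
  have hinv := inv_cI_add_vv (fun a => pd a f z) hc
  have hdet := det_cI_add_vv (fun a => pd a f z) hc
  have hinv' : (graphMet c f z)⁻¹ = Matrix.of fun i j : Fin (k + 1) =>
      c⁻¹ * ((if i = j then 1 else 0) - pd i f z * pd j f z / (c + gradSq f z)) := hinv
  have hdet' : (graphMet c f z).det = c ^ k * (c + gradSq f z) := hdet
  have hQ : ∑ p, ∑ q, (graphMet c f z)⁻¹ p q * (pd p f z * pd q f z)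
      = gradSq f z / (c + gradSq f z) := by
    rw [hinv']
    have h1 : ∀ p q, (Matrix.of fun i j : Fin (k + 1) =>
        c⁻¹ * ((if i = j then 1 else 0) - pd i f z * pd j f z / (c + gradSq f z))) p q
          * (pd p f z * pd q f z)
        = (if p = q then c⁻¹ * (pd p f z) ^ 2 else 0)
          - c⁻¹ / (c + gradSq f z) * (pd p f z ^ 2 * pd q f z ^ 2) := by
      intro p q
      simp only [Matrix.of_apply]
      split_ifs with h
      · subst h; field_simp
      · field_simp; ring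
    simp_rw [h1, Finset.sum_sub_distrib, ← Finset.mul_sum]
    simp only [Finset.sum_ite_eq, Finset.mem_univ, if_true]
    rw [← Finset.mul_sum, ← Finset.sum_mul]
    change c⁻¹ * gradSq f z - c⁻¹ / (c + gradSq f z) * (gradSq f z * gradSq f z) = _
    field_simp
    ring
  have hScal : Scal (graphMet c f) z = 2 / (c * (c + gradSq f z)) *
      (sig2 f z - tau f z / (c + gradSq f z)) := by
    rw [Scal]
    simp only [Ric, graph_Rm hf, hQ]
    rw [contract_aux (fun a b => pd a (pd b f) z) (fun a b => pd_comm hf a b z)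
      (fun a => pd a f z) c _ (c + gradSq f z) _ hW.ne' hc.ne' hinv']
    simp only [sig2, tau, lap]
    field_simp
    ring
  rw [scalDensity, hScal, hdet', Real.sqrt_mul (by positivity)]
  set W := √(c + gradSq f z) with hWdef
  have hW2 : c + gradSq f z = W ^ 2 := (Real.sq_sqrt hW.le).symm
  have hW0 : W ≠ 0 := (Real.sqrt_pos.2 hW).ne'
  rw [hW2]
  field_simp

end

end Pool.Agent.H791.GBC
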