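import Pool.Agent.H791.GBC.Calc

namespace Pool.Agent.H791.GBC

open MeasureTheory Filter Topology

noncomputable section

variable {k : ℕ}

/-- Second order jets of matrix fields. -/
abbrev Jet (k : ℕ) := (Fin k → Fin k → ℝ) × (Fin k → Fin k → Fin k → ℝ) ×
  (Fin k → Fin k → Fin k → Fin k → ℝ)

def jet (h : Met k) (x : V k) : Jet k :=
  (fun i j => h x i j, fun c i j => pd c (fun z => h z i j) x,
    fun d c i j => pd d (pd c (fun z => h z i j)) x)

def GamJ (J : Jet k) (m i j : Fin k) : ℝ := (J.2.1 i m j + J.2.1 j m i - J.2.1 m i j) / 2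

def RmJ (J : Jet k) (i j a l : Fin k) : ℝ :=
  (J.2.2 j a i l + J.2.2 i l j a - J.2.2 i a j l - J.2.2 j l i a) / 2
  + ∑ p, ∑ q, (Matrix.of J.1)⁻¹ p q * (GamJ J p j a * GamJ J q i l - GamJ J p i a * GamJ J q j l)

def ScalJ (J : Jet k) : ℝ :=
  ∑ j, ∑ l, (Matrix.of J.1)⁻¹ j l * ∑ i, ∑ a, (Matrix.of J.1)⁻¹ i a * RmJ J i j a l

def sJ (J : Jet k) : ℝ := ScalJ J * √((Matrix.of J.1).det)

theorem scalDensity_eq (h : Met k) (x : V k) : scalDensity h x = sJ (jet h x) := rfl

theorem sJ_scale (G : Fin k → Fin k → ℝ) (A : Fin k → Fin k → Fin k → ℝ)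
    (B : Fin k → Fin k → Fin k → Fin k → ℝ) (t : ℝ) :
    sJ (G, t • A, t ^ 2 • B) = t ^ 2 * sJ (G, A, B) := by
  have h1 : ∀ i j a l, RmJ (G, t • A, t ^ 2 • B) i j a l = t ^ 2 * RmJ (G, A, B) i j a l := by
    intro i j a l
    simp only [RmJ, GamJ, Pi.smul_apply, smul_eq_mul, mul_add, Finset.mul_sum]
    congr 1
    · ring
    · refine Finset.sum_congr rfl fun p _ => Finset.sum_congr rfl fun q _ => ?_
      ring
  simp only [sJ, ScalJ, h1]
  rw [← mul_assoc]
  congr 1
  simp only [Finset.mul_sum]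
  refine Finset.sum_congr rfl fun j _ => Finset.sum_congr rfl fun l _ =>
    Finset.sum_congr rfl fun i _ => Finset.sum_congr rfl fun a _ => ?_
  ring

theorem sJ_smul (J : Jet k) {c : ℝ} (hc : 0 < c) :
    sJ (c ^ 2 • J) = c ^ k / c ^ 2 * sJ J := by
  obtain ⟨G, A, B⟩ := J
  have hc2 : c ^ 2 ≠ 0 := by positivity
  have e0 : c ^ 2 • ((G, A, B) : Jet k) = (c ^ 2 • G, c ^ 2 • A, c ^ 2 • B) := rfl
  rw [e0]
  have hof : Matrix.of (c ^ 2 • G) = c ^ 2 • Matrix.of G := rfl
  have hdet0 : (c ^ 2 • Matrix.of G).det = (c ^ 2) ^ k * (Matrix.of G).det := by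
    rw [Matrix.det_smul, Fintype.card_fin]
  have hinv : (Matrix.of (c ^ 2 • G))⁻¹ = (c ^ 2)⁻¹ • (Matrix.of G)⁻¹ := by
    rw [hof]
    by_cases hd : IsUnit (Matrix.of G).det
    · have h0 : c ^ 2 • Matrix.of G = (Units.mk0 (c ^ 2) hc2) • Matrix.of G := rfl
      rw [h0, Matrix.inv_smul' _ _ hd]; rfl
    · have hd' : (Matrix.of G).det = 0 := by
        rwa [isUnit_iff_ne_zero, not_not] at hd
      have h1 : ¬ IsUnit (c ^ 2 • Matrix.of G).det := by
        rw [hdet0, hd', mul_zero]; exact not_isUnit_zero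
      rw [Matrix.nonsing_inv_apply_not_isUnit _ h1, Matrix.nonsing_inv_apply_not_isUnit _ hd]
      simp
  have hdet : √((Matrix.of (c ^ 2 • G)).det) = c ^ k * √((Matrix.of G).det) := by
    rw [hof, hdet0, Real.sqrt_mul (by positivity), ← pow_mul,
      mul_comm 2 k, pow_mul, Real.sqrt_sq (by positivity)]
  have h1 : ∀ i j a l, RmJ (c ^ 2 • G, c ^ 2 • A, c ^ 2 • B) i j a l
      = c ^ 2 * RmJ (G, A, B) i j a l := by
    intro i j a l
    simp only [RmJ, GamJ, hinv, Matrix.smul_apply, Pi.smul_apply,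
      smul_eq_mul, mul_add, Finset.mul_sum]
    congr 1
    · ring
    · refine Finset.sum_congr rfl fun p _ => Finset.sum_congr rfl fun q _ => ?_
      field_simp
      try ring
  have h2 : ScalJ (c ^ 2 • G, c ^ 2 • A, c ^ 2 • B) = (c ^ 2)⁻¹ * ScalJ (G, A, B) := by
    simp only [ScalJ, hinv, h1, Matrix.smul_apply, smul_eq_mul, Finset.mul_sum]
    refine Finset.sum_congr rfl fun j _ => Finset.sum_congr rfl fun l _ =>
      Finset.sum_congr rfl fun i _ => Finset.sum_congr rfl fun a _ => ?_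
    field_simp
  simp only [sJ, h2, hdet]
  field_simp

theorem continuousAt_inv (G : Fin k → Fin k → ℝ) (hG : (Matrix.of G).det ≠ 0) (i j : Fin k) :
    ContinuousAt (fun G' : Fin k → Fin k → ℝ => (Matrix.of G')⁻¹ i j) G := by
  have h1 : Continuous fun G' : Fin k → Fin k → ℝ => Matrix.of G' := continuous_id
  have h2 : (fun G' : Fin k → Fin k → ℝ => (Matrix.of G')⁻¹ i j)
      = fun G' => ((Matrix.of G').det)⁻¹ * (Matrix.of G').adjugate i j := by
    funext G'
    rw [Matrix.inv_def, Ring.inverse_eq_inv', Matrix.smul_apply, smul_eq_mul]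
  rw [h2]
  refine ContinuousAt.mul (ContinuousAt.inv₀ ?_ hG) ?_
  · exact (h1.matrix_det).continuousAt
  · exact ((h1.matrix_adjugate).matrix_elem i j).continuousAt

theorem continuousAt_sJ (J : Jet k) (hJ : (Matrix.of J.1).det ≠ 0) : ContinuousAt sJ J := by
  have hinv : ∀ i j, ContinuousAt (fun J' : Jet k => (Matrix.of J'.1)⁻¹ i j) J := fun i j =>
    ContinuousAt.comp (f := fun J' : Jet k => J'.1)
      (g := fun G' : Fin k → Fin k → ℝ => (Matrix.of G')⁻¹ i j)
      (continuousAt_inv J.1 hJ i j) continuous_fst.continuousAt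
  have hA : ∀ a b c, Continuous (fun J' : Jet k => J'.2.1 a b c) := by
    intro a b c; fun_prop
  have hB : ∀ a b c d, Continuous (fun J' : Jet k => J'.2.2 a b c d) := by
    intro a b c d; fun_prop
  have hGam : ∀ m i j, Continuous (fun J' : Jet k => GamJ J' m i j) := by
    intro m i j
    exact (((hA i m j).add (hA j m i)).sub (hA m i j)).div_const 2
  have hRm : ∀ i j a l, ContinuousAt (fun J' : Jet k => RmJ J' i j a l) J := by
    intro i j a l
    refine ContinuousAt.add ?_ ?_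
    · exact (((((hB j a i l).add (hB i l j a)).sub (hB i a j l)).sub
        (hB j l i a)).div_const 2).continuousAt
    · refine tendsto_finsetSum _ fun p _ => tendsto_finsetSum _ fun q _ => ?_
      exact (hinv p q).mul (((hGam p j a).mul (hGam q i l)).sub
        ((hGam p i a).mul (hGam q j l))).continuousAt
  refine ContinuousAt.mul ?_ ?_
  · refine tendsto_finsetSum _ fun j _ => tendsto_finsetSum _ fun l _ => ?_
    refine (hinv j l).mul ?_
    refine tendsto_finsetSum _ fun i _ => tendsto_finsetSum _ fun a _ => ?_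
    exact (hinv i a).mul (hRm i j a l)
  · have h1 : Continuous fun J' : Jet k => (Matrix.of J'.1).det := by
      have h0 : Continuous fun J' : Jet k => Matrix.of J'.1 := continuous_fst
      exact h0.matrix_det
    exact h1.continuousAt.sqrt

/-- Uniform continuity of `sJ` near compact sets of nondegenerate jets. -/
theorem sJ_unif {S : Set (Jet k)} (hS : IsCompact S) (hd : ∀ J ∈ S, (Matrix.of J.1).det ≠ 0)
    {ε : ℝ} (hε : 0 < ε) : ∃ δ > 0, ∀ J ∈ S, ∀ J' : Jet k, dist J J' < δ →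
      |sJ J' - sJ J| < ε := by
  have h := hS.uniformContinuousAt_of_continuousAt sJ (fun J hJ => continuousAt_sJ J (hd J hJ))
    (Metric.dist_mem_uniformity hε)
  obtain ⟨δ, hδ, h2⟩ := Metric.mem_uniformity_dist.1 h
  refine ⟨δ, hδ, fun J hJ J' hJJ' => ?_⟩
  have := h2 hJJ' hJ
  simp only [Set.mem_ofPred_eq] at this
  rwa [dist_comm, Real.dist_eq] at this

end

end Pool.Agent.H791.GBC
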