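import Pool.Agent.H791.GBC.AF

namespace Pool.Agent.H791.GBC

open MeasureTheory Filter Topology Real

noncomputable section

variable {k m l : ℕ}

/-- The jet of the Euclidean metric. -/
def J1 (m : ℕ) : Jet m := (fun i j => (1 : Matrix (Fin m) (Fin m) ℝ) i j, 0, 0)

theorem jet_flat (x : V m) : jet (fun _ : V m => (1 : Matrix (Fin m) (Fin m) ℝ)) x = J1 m := by
  refine Prod.ext rfl (Prod.ext ?_ ?_)
  · funext c i j
    exact pd_const _ x c
  · funext d c i j
    have h : pd c (fun _ : V m => (1 : Matrix (Fin m) (Fin m) ℝ) i j) = fun _ => 0 := by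
      funext z; exact pd_const _ z c
    change pd d (pd c (fun _ : V m => (1 : Matrix (Fin m) (Fin m) ℝ) i j)) x = 0
    rw [h, pd_const]

theorem jet_induced_flat {F : V k → V m} (hF : ∀ i, ContDiff ℝ (⊤ : ℕ∞) fun z => F z i) (y : V k) :
    jet (induced (fun _ => 1) F) y = Psi (J1 m, ed F y) := by
  rw [jet_induced (g := fun _ => 1) hF fun i j => contDiffAt_const, jet_flat]

theorem unif_near {F : V k → V m} (hF : ∀ i, ContDiff ℝ (⊤ : ℕ∞) fun z => F z i)
    (hdet : ∀ y ∈ B k, (induced (fun _ => 1) F y).det ≠ 0) {η : ℝ} (hη : 0 < η) :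
    ∃ δ > 0, ∀ y ∈ B k, ∀ J : Jet m, dist J (J1 m) < δ →
      (Matrix.of (Psi (J, ed F y)).1).det ≠ 0 ∧
      |sJ (Psi (J, ed F y)) - sJ (Psi (J1 m, ed F y))| < η := by
  set S : Set (Jet m × ED k m) := (fun y => (J1 m, ed F y)) '' B k with hS
  have hSc : IsCompact S := (isCompact_B k).image (continuous_const.prodMk (ed_continuous hF))
  have hSd : ∀ P ∈ S, (Matrix.of (Psi P).1).det ≠ 0 := by
    rintro P ⟨y, hy, rfl⟩
    have h := jet_induced_flat hF y
    have h1 := hdet y hy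
    have h2 : Matrix.of (Psi (J1 m, ed F y)).1 = induced (fun _ => 1) F y := by
      rw [← h]; rfl
    change (Matrix.of (Psi (J1 m, ed F y)).1).det ≠ 0
    rw [h2]; exact h1
  set O : Set (Jet m × ED k m) := {P | (Matrix.of (Psi P).1).det ≠ 0} with hO
  have hOo : IsOpen O := by
    have h0 : Continuous fun P : Jet m × ED k m => Matrix.of (Psi P).1 := Psi_continuous.fst
    exact isOpen_ne_fun h0.matrix_det continuous_const
  obtain ⟨δ₁, hδ₁, h1⟩ := hSc.exists_thickening_subset_open hOo hSd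
  have hca : ∀ P ∈ S, ContinuousAt (fun P => sJ (Psi P)) P := fun P hP =>
    ContinuousAt.comp (g := sJ) (continuousAt_sJ _ (hSd P hP)) Psi_continuous.continuousAt
  have h2 := hSc.uniformContinuousAt_of_continuousAt (fun P => sJ (Psi P)) hca
    (Metric.dist_mem_uniformity hη)
  obtain ⟨δ₂, hδ₂, h3⟩ := Metric.mem_uniformity_dist.1 h2
  refine ⟨min δ₁ δ₂, lt_min hδ₁ hδ₂, fun y hy J hJ => ?_⟩
  have hmem : (J1 m, ed F y) ∈ S := ⟨y, hy, rfl⟩
  have hd : dist (J, ed F y) (J1 m, ed F y) < min δ₁ δ₂ := by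
    rw [Prod.dist_eq]
    simp only [dist_self]
    exact max_lt hJ (lt_min hδ₁ hδ₂)
  refine ⟨?_, ?_⟩
  · apply h1
    exact Metric.mem_thickening_iff.2 ⟨_, hmem, hd.trans_le (min_le_left _ _)⟩
  · have h4 : dist (J1 m, ed F y) (J, ed F y) < δ₂ := by
      rw [dist_comm]; exact hd.trans_le (min_le_right _ _)
    have h5 := h3 h4
    simp only [Set.mem_ofPred_eq] at h5
    have h6 := h5 hmem
    rwa [dist_comm, Real.dist_eq] at h6

theorem jet_continuousAt {h : Met m} {x : V m} (hh : ∀ i j, ContDiffAt ℝ 2 (fun z => h z i j) x) :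
    ContinuousAt (jet h) x := by
  have h0 : ∀ i j c, ContDiffAt ℝ 1 (pd c fun z => h z i j) x := fun i j c =>
    pd_contDiffAt (hh i j) c
  have h1 : ∀ i j c d, ContinuousAt (pd d (pd c fun z => h z i j)) x := by
    intro i j c d
    have h2 : ContDiffAt ℝ 0 (fderiv ℝ (pd c fun z => h z i j)) x :=
      (h0 i j c).fderiv_right (by norm_num)
    exact (h2.clm_apply (contDiffAt_const (c := (Pi.single d (1 : ℝ) : V m)))).continuousAt
  refine ContinuousAt.prodMk ?_ (ContinuousAt.prodMk ?_ ?_)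
  · exact continuousAt_pi.2 fun i => continuousAt_pi.2 fun j => (hh i j).continuousAt
  · exact continuousAt_pi.2 fun c => continuousAt_pi.2 fun i => continuousAt_pi.2 fun j =>
      (h0 i j c).continuousAt
  · exact continuousAt_pi.2 fun d => continuousAt_pi.2 fun c => continuousAt_pi.2 fun i =>
      continuousAt_pi.2 fun j => h1 i j c d

theorem two_le_top : (2 : WithTop ℕ∞) ≤ ((⊤ : ℕ∞) : WithTop ℕ∞) := by
  have : ((2 : ℕ∞) : WithTop ℕ∞) ≤ ((⊤ : ℕ∞) : WithTop ℕ∞) := WithTop.coe_le_coe.mpr le_top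
  exact this

section

variable {g : Met m} {r₀ τ : ℝ} (hg : IsRiemannianOn g {x | r₀ < nrm x})

include hg in
theorem g_contDiffAt {x : V m} (hx : r₀ < nrm x) (i j : Fin m) :
    ContDiffAt ℝ (⊤ : ℕ∞) (fun z => g z i j) x :=
  (hg.smooth i j).contDiffAt ((isOpen_end r₀).mem_nhds hx)

theorem pd_resc {f : V m → ℝ} {lam : ℝ} {x : V m} (hf : DifferentiableAt ℝ f (lam • x)) (a : Fin m) :
    pd a (fun z => f (lam • z)) x = lam * pd a f (lam • x) := by
  have e0 : (fun z : V m => f (lam • z)) = fun z => f (0 + lam • z) := by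
    funext z; rw [zero_add]
  rw [e0, pd_affine 0 lam x (by rwa [zero_add]) a, zero_add]

include hg in
theorem jet_resc {lam : ℝ} (hlam : 0 < lam) {x : V m} (hx : r₀ < lam * nrm x) :
    jet (resc g lam) x = ((jet g (lam • x)).1, lam • (jet g (lam • x)).2.1,
      lam ^ 2 • (jet g (lam • x)).2.2) := by
  have hU : IsOpen {z : V m | r₀ < lam * nrm z} :=
    isOpen_lt continuous_const (continuous_const.mul nrm_continuous)
  have hs : ∀ z : V m, r₀ < lam * nrm z → ∀ i j, ContDiffAt ℝ (⊤ : ℕ∞) (fun z => g z i j) (lam • z) :=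
    fun z hz i j => g_contDiffAt hg (by rwa [nrm_smul hlam.le]) i j
  have h1 : ∀ z : V m, r₀ < lam * nrm z → ∀ c i j, pd c (fun z => resc g lam z i j) z
      = lam * pd c (fun z => g z i j) (lam • z) := fun z hz c i j =>
    pd_resc (f := fun z => g z i j) ((hs z hz i j).differentiableAt (by simp)) c
  refine Prod.ext rfl (Prod.ext ?_ ?_)
  · funext c i j
    exact h1 x hx c i j
  · funext d c i j
    change pd d (pd c (fun z => resc g lam z i j)) x = lam ^ 2 * pd d (pd c (fun z => g z i j)) (lam • x)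
    have e1 : pd c (fun z => resc g lam z i j)
        =ᶠ[𝓝 x] fun z => lam * pd c (fun z => g z i j) (lam • z) := by
      filter_upwards [hU.mem_nhds hx] with z hz
      exact h1 z hz c i j
    have hd : DifferentiableAt ℝ (pd c (fun z => g z i j)) (lam • x) :=
      (pd_contDiffAt ((hs x hx i j).of_le two_le_top) c).differentiableAt (by simp)
    rw [pd_congr e1 d, pd_smul, pd_resc hd]
    ring

include hg in
theorem af_near (hAF : IsAsymptoticallyFlat g τ) (hτ : 0 < τ) {δ : ℝ} (hδ : 0 < δ) :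
    ∃ L : ℝ, ∀ lam ≥ L, ∀ x : V m, 1 / 2 ≤ nrm x →
      r₀ < lam * nrm x ∧ dist (jet (resc g lam) x) (J1 m) < δ := by
  obtain ⟨C, R₀, hR₀, h⟩ := hAF
  have ht : Tendsto (fun x : ℝ => 4 * |C| * x ^ (-τ)) atTop (𝓝 (4 * |C| * 0)) :=
    (tendsto_rpow_neg_atTop hτ).const_mul _
  rw [mul_zero] at ht
  have hev := ht.eventually (gt_mem_nhds hδ)
  obtain ⟨L₀, hL₀⟩ := Filter.eventually_atTop.1 hev
  refine ⟨max (2 * L₀) (max (2 * R₀) (2 * |r₀| + 1)), fun lam hlam x hx => ?_⟩
  have h1 : 2 * L₀ ≤ lam := (le_max_left _ _).trans hlam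
  have h2 : 2 * R₀ ≤ lam := (le_max_left _ _).trans ((le_max_right _ _).trans hlam)
  have h3 : 2 * |r₀| + 1 ≤ lam := (le_max_right _ _).trans ((le_max_right _ _).trans hlam)
  have hlam0 : 0 < lam := by linarith
  have hn : lam / 2 ≤ lam * nrm x := by nlinarith
  have hr : r₀ < lam * nrm x := by
    have := le_abs_self r₀
    linarith
  refine ⟨hr, ?_⟩
  have hb := hL₀ (lam / 2) (by linarith)
  rw [jet_resc hg hlam0 hr]
  have hnn : nrm (lam • x) = lam * nrm x := nrm_smul hlam0.le x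
  have hAFx := h (lam • x) (by rw [hnn]; linarith)
  have hP : 0 < lam / 2 := by positivity
  set T := (lam / 2) ^ (-τ) with hT
  have hT0 : 0 < T := Real.rpow_pos_of_pos hP _
  have hC0 : 0 ≤ |C| := abs_nonneg C
  have hpw : ∀ p : ℝ, p ≤ 0 → C * nrm (lam • x) ^ p ≤ |C| * (lam / 2) ^ p := by
    intro p hp
    have e1 : nrm (lam • x) ^ p ≤ (lam / 2) ^ p := by
      rw [hnn]; exact Real.rpow_le_rpow_of_nonpos hP hn hp
    have e2 : 0 ≤ nrm (lam • x) ^ p := by
      rw [hnn]; exact Real.rpow_nonneg (by linarith) _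
    calc C * nrm (lam • x) ^ p ≤ |C| * nrm (lam • x) ^ p := by
          gcongr; exact le_abs_self C
      _ ≤ _ := by gcongr
  have hT1 : (lam / 2) ^ (-τ - 1) = T / (lam / 2) := by
    rw [Real.rpow_sub_one hP.ne']
  have hT2 : (lam / 2) ^ (-τ - 2) = T / (lam / 2) ^ 2 := by
    rw [Real.rpow_sub hP, Real.rpow_two]
  have hd0 : dist (jet g (lam • x)).1 (J1 m).1 < δ := by
    rw [dist_pi_lt_iff hδ]
    intro i
    rw [dist_pi_lt_iff hδ]
    intro j
    rw [Real.dist_eq]
    have e1 := (hAFx i j i i).1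
    have e2 : |g (lam • x) i j - (1 : Matrix (Fin m) (Fin m) ℝ) i j| ≤ |C| * T :=
      e1.trans (hpw _ (by linarith))
    refine lt_of_le_of_lt e2 (lt_of_le_of_lt ?_ hb)
    nlinarith [mul_nonneg hC0 hT0.le]
  have hd1 : dist (lam • (jet g (lam • x)).2.1) (J1 m).2.1 < δ := by
    rw [dist_pi_lt_iff hδ]
    intro c
    rw [dist_pi_lt_iff hδ]
    intro i
    rw [dist_pi_lt_iff hδ]
    intro j
    rw [Real.dist_eq]
    have e1 := (hAFx i j c c).2.1
    have e2 : |pd c (fun z => g z i j) (lam • x)| ≤ |C| * (T / (lam / 2)) :=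
      e1.trans ((hpw _ (by linarith)).trans (le_of_eq (by rw [hT1])))
    have e3 : |lam * pd c (fun z => g z i j) (lam • x) - 0| ≤ 2 * |C| * T := by
      rw [sub_zero, abs_mul, abs_of_pos hlam0]
      calc lam * |pd c (fun z => g z i j) (lam • x)| ≤ lam * (|C| * (T / (lam / 2))) := by gcongr
        _ = 2 * |C| * T := by field_simp
    refine lt_of_le_of_lt e3 (lt_of_le_of_lt ?_ hb)
    nlinarith [mul_nonneg hC0 hT0.le]
  have hd2 : dist (lam ^ 2 • (jet g (lam • x)).2.2) (J1 m).2.2 < δ := by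
    rw [dist_pi_lt_iff hδ]
    intro d
    rw [dist_pi_lt_iff hδ]
    intro c
    rw [dist_pi_lt_iff hδ]
    intro i
    rw [dist_pi_lt_iff hδ]
    intro j
    rw [Real.dist_eq]
    have e1 := (hAFx i j c d).2.2
    have e2 : |pd d (pd c (fun z => g z i j)) (lam • x)| ≤ |C| * (T / (lam / 2) ^ 2) :=
      e1.trans ((hpw _ (by linarith)).trans (le_of_eq (by rw [hT2])))
    have e3 : |lam ^ 2 * pd d (pd c (fun z => g z i j)) (lam • x) - 0| ≤ 4 * |C| * T := by
      rw [sub_zero, abs_mul, abs_of_pos (by positivity : 0 < lam ^ 2)]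
      calc lam ^ 2 * |pd d (pd c (fun z => g z i j)) (lam • x)|
          ≤ lam ^ 2 * (|C| * (T / (lam / 2) ^ 2)) := by gcongr
        _ = 4 * |C| * T := by field_simp; ring
    exact lt_of_le_of_lt e3 hb
  rw [Prod.dist_eq, Prod.dist_eq]
  exact max_lt hd0 (max_lt hd1 hd2)

end

end

end Pool.Agent.H791.GBC
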