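import Pool.Agent.H791.GBC.Lim

namespace Pool.Agent.H791.GBC

open MeasureTheory Filter Topology Real

noncomputable section

variable {l : ℕ}

theorem starParam_smooth {ρ : V (l + 4) → ℝ} (hρ : ContDiff ℝ (⊤ : ℕ∞) ρ) (s : ℝ)
    (i : Fin (l + 4)) : ContDiff ℝ (⊤ : ℕ∞) fun z : V (l + 3) => starParam ρ s z i := by
  have h : ContDiff ℝ (⊤ : ℕ∞) fun z : V (l + 3) => stereo s z :=
    contDiff_pi.2 fun i => stereo_smooth s i
  exact (ContDiff.comp (g := ρ) (f := fun z : V (l + 3) => stereo s z) hρ h).mul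
    (stereo_smooth s i)

theorem starParam_det {ρ : V (l + 4) → ℝ} (hρ : ContDiff ℝ (⊤ : ℕ∞) ρ) (hρ0 : ∀ x, 0 < ρ x)
    {s : ℝ} (hs : s ^ 2 = 1) (y : V (l + 3)) :
    (induced (fun _ => 1) (starParam ρ s) y).det ≠ 0 := by
  set r : V (l + 3) → ℝ := fun z => ρ (stereo s z) with hr
  have h : ContDiff ℝ (⊤ : ℕ∞) fun z : V (l + 3) => stereo s z :=
    contDiff_pi.2 fun i => stereo_smooth s i
  have hrs : ContDiff ℝ (⊤ : ℕ∞) r :=
    ContDiff.comp (g := ρ) (f := fun z : V (l + 3) => stereo s z) hρ h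
  have h1 : (starParam ρ s : V (l + 3) → V (l + 4))
      = fun (z : V (l + 3)) (i : Fin (l + 4)) => r z * stereo s z i := rfl
  rw [h1, induced_flat hs (hrs.differentiable (by simp) y)]
  have hq := sq_nonneg' y
  have hr0 : 0 < r y := hρ0 _
  have hc : 0 < r y ^ 2 * (4 / (1 + sq y) ^ 2) := by positivity
  rw [det_cI_add_vv (fun a => pd a r y) hc]
  have hS : 0 ≤ ∑ a, (fun a => pd a r y) a ^ 2 := Finset.sum_nonneg fun a _ => sq_nonneg _
  positivity

theorem near_half {g : Met (l + 4)} {r₀ τ : ℝ} (hg : IsRiemannianOn g {x | r₀ < nrm x})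
    (hAF : IsAsymptoticallyFlat g τ) (hτ : 0 < τ) {ρ : V (l + 4) → ℝ} (hρ : ContDiff ℝ (⊤ : ℕ∞) ρ)
    (hρ1 : ∀ x, 1 / 2 < ρ x) {s : ℝ} (hs : s ^ 2 = 1) {η : ℝ} (hη : 0 < η) :
    ∃ L : ℝ, ∀ lam ≥ L,
      IntegrableOn (fun y => scalDensity (induced (resc g lam) (starParam ρ s)) y) (B (l + 3)) ∧
      ∫ y in B (l + 3), scalDensity (induced (resc g lam) (starParam ρ s)) y
      ≤ (∫ y in B (l + 3), scalDensity (induced (fun _ => 1) (starParam ρ s)) y) + η := by
  have hρ0 : ∀ x, 0 < ρ x := fun x => lt_trans (by norm_num) (hρ1 x)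
  set F : V (l + 3) → V (l + 4) := starParam ρ s with hF
  have hFs : ∀ i, ContDiff ℝ (⊤ : ℕ∞) fun z => F z i := fun i => starParam_smooth hρ s i
  have hFc : Continuous F := continuous_pi fun i => (hFs i).continuous
  set v := (volume : Measure (V (l + 3))).real (B (l + 3)) with hv
  have hv0 : 0 ≤ v := measureReal_nonneg
  set η' := η / (v + 1) with hη'
  have hη'0 : 0 < η' := by positivity
  obtain ⟨δ, hδ, hU⟩ := unif_near hFs (fun y _ => starParam_det hρ hρ0 hs y) hη'0
  obtain ⟨L, hL⟩ := af_near hg hAF hτ hδ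
  refine ⟨max L 1, fun lam hlam => ?_⟩
  have hlamL : lam ≥ L := (le_max_left _ _).trans hlam
  have hlam1 : 1 ≤ lam := (le_max_right _ _).trans hlam
  have hlam0 : 0 < lam := by linarith
  have hmeas : MeasurableSet (B (l + 3)) := (isCompact_B _).isClosed.measurableSet
  have hn : ∀ y, 1 / 2 ≤ nrm (F y) := fun y => by
    rw [hF, nrm_starParam hs hρ0]; exact (hρ1 _).le
  have hgs : ∀ y, ∀ i j, ContDiffAt ℝ 2 (fun x => resc g lam x i j) (F y) := by
    intro y i j
    have h1 : ContDiffAt ℝ (⊤ : ℕ∞) (fun z => g z i j) (lam • F y) := by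
      apply g_contDiffAt hg
      rw [nrm_smul hlam0.le]
      exact (hL lam hlamL (F y) (hn y)).1
    have h2 : ContDiffAt ℝ (⊤ : ℕ∞) (fun x => g (lam • x) i j) (F y) :=
      ContDiffAt.comp (g := fun z => g z i j) (f := fun x : V (l + 4) => lam • x) (F y) h1
        (by fun_prop)
    exact h2.of_le two_le_top
  have hj : ∀ y, scalDensity (induced (resc g lam) F) y
      = sJ (Psi (jet (resc g lam) (F y), ed F y)) := fun y => by
    rw [scalDensity_eq, jet_induced hFs (hgs y)]
  have hj1 : ∀ y, scalDensity (induced (fun _ => 1) F) y = sJ (Psi (J1 (l + 4), ed F y)) :=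
    fun y => by rw [scalDensity_eq, jet_induced_flat hFs]
  have hc1 : ContinuousOn (fun y => scalDensity (induced (resc g lam) F) y) (B (l + 3)) := by
    intro y hy
    apply ContinuousAt.continuousWithinAt
    have h0 := (hU y hy _ (hL lam hlamL (F y) (hn y)).2).1
    have h1 : ContinuousAt (fun y => jet (resc g lam) (F y)) y :=
      ContinuousAt.comp (g := jet (resc g lam)) (f := F) (jet_continuousAt (hgs y))
        hFc.continuousAt
    have h2 : ContinuousAt (fun y => (jet (resc g lam) (F y), ed F y)) y :=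
      h1.prodMk (ed_continuous hFs).continuousAt
    have h3 : ContinuousAt (fun y => Psi (jet (resc g lam) (F y), ed F y)) y :=
      ContinuousAt.comp (g := Psi) (f := fun y => (jet (resc g lam) (F y), ed F y))
        Psi_continuous.continuousAt h2
    have h4 : ContinuousAt (fun y => sJ (Psi (jet (resc g lam) (F y), ed F y))) y :=
      ContinuousAt.comp (g := sJ) (f := fun y => Psi (jet (resc g lam) (F y), ed F y))
        (continuousAt_sJ _ h0) h3
    simp_rw [hj]
    exact h4
  have hc2 : ContinuousOn (fun y => scalDensity (induced (fun _ => 1) F) y) (B (l + 3)) := by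
    intro y hy
    apply ContinuousAt.continuousWithinAt
    have h0 : (Matrix.of (Psi (J1 (l + 4), ed F y)).1).det ≠ 0 :=
      (hU y hy (J1 (l + 4)) (by rw [dist_self]; exact hδ)).1
    have h2 : Continuous (fun y => (J1 (l + 4), ed F y)) :=
      continuous_const.prodMk (ed_continuous hFs)
    have h3 : ContinuousAt (fun y => Psi (J1 (l + 4), ed F y)) y :=
      (Psi_continuous.comp h2).continuousAt
    have h4 : ContinuousAt (fun y => sJ (Psi (J1 (l + 4), ed F y))) y :=
      ContinuousAt.comp (g := sJ) (f := fun y => Psi (J1 (l + 4), ed F y))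
        (continuousAt_sJ _ h0) h3
    simp_rw [hj1]
    exact h4
  have hi1 : IntegrableOn (fun y => scalDensity (induced (resc g lam) F) y) (B (l + 3)) :=
    hc1.integrableOn_compact (isCompact_B _)
  have hi2 : IntegrableOn (fun y => scalDensity (induced (fun _ => 1) F) y) (B (l + 3)) :=
    hc2.integrableOn_compact (isCompact_B _)
  have hcst : IntegrableOn (fun _ : V (l + 3) => η') (B (l + 3)) :=
    integrableOn_const (volume_B_lt _).ne
  have e1 : ∫ y in B (l + 3), scalDensity (induced (resc g lam) F) y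
      ≤ ∫ y in B (l + 3), (scalDensity (induced (fun _ => 1) F) y + η') := by
    refine setIntegral_mono_on hi1 (hi2.add hcst) hmeas fun y hy => ?_
    have h0 := (hU y hy _ (hL lam hlamL (F y) (hn y)).2).2
    rw [hj, hj1]
    have := (abs_lt.1 h0).2
    linarith
  have e2 : ∫ y in B (l + 3), (scalDensity (induced (fun _ => 1) F) y + η')
      = (∫ y in B (l + 3), scalDensity (induced (fun _ => 1) F) y) + v * η' := by
    rw [integral_add hi2 hcst, setIntegral_const, smul_eq_mul]
  have e3 : v * η' ≤ η := by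
    rw [hη']
    have : v * (η / (v + 1)) = v / (v + 1) * η := by ring
    rw [this]
    have h3 : v / (v + 1) ≤ 1 := by
      rw [div_le_one (by positivity)]; linarith
    nlinarith
  exact ⟨hi1, by linarith⟩

theorem scaled_eq {g : Met (l + 4)} {ρ : V (l + 4) → ℝ} {lam : ℝ} (hlam : 0 < lam) (s : ℝ) :
    (fun y : V (l + 3) => scalDensity (induced g (starParam (fun x => lam * ρ x) s)) y)
      = fun y => lam ^ (l + 3) / lam ^ 2 *
        scalDensity (induced (resc g lam) (starParam ρ s)) y := by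
  have h : starParam (fun x => lam * ρ x) s
      = fun (y : V (l + 3)) i => lam * starParam ρ s y i := by
    funext y i; rw [starParam, starParam]; ring
  funext y
  rw [h, scalDensity_smul _ hlam]

theorem main (g : Met (l + 4)) (r₀ τ : ℝ) (hτ : 0 < τ)
    (hg : IsRiemannianOn g {x | r₀ < nrm x}) (hAF : IsAsymptoticallyFlat g τ)
    (I R ε : ℝ) (hε : 0 < ε) :
    ∃ (ρ : V (l + 4) → ℝ) (lam : ℝ), ContDiff ℝ (⊤ : ℕ∞) ρ ∧ R < lam ∧
      (∀ x, 0 < ρ x ∧ r₀ < ρ x ∧ R < ρ x ∧ |ρ x - lam| < ε * lam) ∧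
      (∀ x, nrm x = 1 → ∀ i, |pd i ρ x| < ε * lam) ∧
      (∀ s : ℝ, s = 1 ∨ s = -1 →
        IntegrableOn (fun y : V (l + 3) => scalDensity (induced g (starParam ρ s)) y)
          {y : V (l + 3) | ∑ i, y i ^ 2 ≤ 1}) ∧
      totalScal g ρ < I := by
  obtain ⟨ρ, hρ, hρε, hρd, hT⟩ := flat_exists (l := l) (min ε (1 / 2)) (-3)
    (lt_min hε (by norm_num))
  have hρ1 : ∀ x, 1 / 2 < ρ x := fun x => by
    have := (abs_lt.1 ((hρε x).trans_le (min_le_right _ _))).1
    linarith
  obtain ⟨L₁, hL₁⟩ := near_half hg hAF hτ hρ hρ1 (s := 1) (by norm_num) (η := 1) one_pos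
  obtain ⟨L₂, hL₂⟩ := near_half hg hAF hτ hρ hρ1 (s := -1) (by norm_num) (η := 1) one_pos
  obtain ⟨lam, hlam⟩ := exists_gt (max (max L₁ L₂) (max (max (2 * |r₀|) (2 * |R|)) (max |I| 1)))
  have h1 : L₁ ≤ lam := (le_max_left _ _).trans ((le_max_left _ _).trans hlam.le)
  have h2 : L₂ ≤ lam := (le_max_right _ _).trans ((le_max_left _ _).trans hlam.le)
  have h3 : 2 * |r₀| < lam := lt_of_le_of_lt
    ((le_max_left _ _).trans ((le_max_left _ _).trans (le_max_right _ _))) hlam
  have h4 : 2 * |R| < lam := lt_of_le_of_lt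
    ((le_max_right _ _).trans ((le_max_left _ _).trans (le_max_right _ _))) hlam
  have h5 : |I| < lam := lt_of_le_of_lt
    ((le_max_left _ _).trans ((le_max_right _ _).trans (le_max_right _ _))) hlam
  have h6 : 1 < lam := lt_of_le_of_lt
    ((le_max_right _ _).trans ((le_max_right _ _).trans (le_max_right _ _))) hlam
  have hlam0 : 0 < lam := by linarith
  refine ⟨fun x => lam * ρ x, lam, contDiff_const.mul hρ, ?_, fun x => ⟨?_, ?_, ?_, ?_⟩,
    fun x hx i => ?_, fun s hs => ?_, ?_⟩
  · have := le_abs_self R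
    have := abs_nonneg R
    linarith
  · have := hρ1 x
    positivity
  · have := hρ1 x
    have := le_abs_self r₀
    nlinarith
  · have := hρ1 x
    have := le_abs_self R
    nlinarith
  · have e : lam * ρ x - lam = lam * (ρ x - 1) := by ring
    rw [e, abs_mul, abs_of_pos hlam0, mul_comm]
    exact mul_lt_mul_of_pos_right ((hρε x).trans_le (min_le_left _ _)) hlam0
  · rw [pd_smul, abs_mul, abs_of_pos hlam0, mul_comm]
    exact mul_lt_mul_of_pos_right ((hρd x hx i).trans_le (min_le_left _ _)) hlam0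
  · rw [scaled_eq hlam0 s]
    rcases hs with rfl | rfl
    · exact (hL₁ lam h1).1.const_mul _
    · exact (hL₂ lam h2).1.const_mul _
  · rw [totalScal_smul g ρ hlam0]
    have e1 : totalScal (resc g lam) ρ ≤ totalScal (fun _ => 1) ρ + 2 := by
      have a1 := (hL₁ lam h1).2
      have a2 := (hL₂ lam h2).2
      have b1 : totalScal (resc g lam) ρ
        = (∫ y in B (l + 3), scalDensity (induced (resc g lam) (starParam ρ 1)) y)
          + ∫ y in B (l + 3), scalDensity (induced (resc g lam) (starParam ρ (-1))) y := rfl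
      have b2 : totalScal (fun _ => 1) ρ
        = (∫ y in B (l + 3), scalDensity (induced (fun _ => 1) (starParam ρ 1)) y)
          + ∫ y in B (l + 3), scalDensity (induced (fun _ => 1) (starParam ρ (-1))) y := rfl
      rw [b1, b2]
      linarith
    have e2 : totalScal (resc g lam) ρ < -1 := by linarith
    have e3 : lam ≤ lam ^ (l + 3) / lam ^ 2 := by
      rw [le_div_iff₀ (by positivity)]
      have : (1 : ℝ) ≤ lam ^ l := one_le_pow₀ h6.le
      calc lam * lam ^ 2 = 1 * lam ^ 3 := by ring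
        _ ≤ lam ^ l * lam ^ 3 := by gcongr
        _ = _ := by ring
    have e4 : lam ^ (l + 3) / lam ^ 2 * totalScal (resc g lam) ρ
        ≤ lam ^ (l + 3) / lam ^ 2 * (-1) := by
      gcongr
    have := neg_abs_le I
    linarith

end

end Pool.Agent.H791.GBC
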