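import Pool.Agent.H791.GBC.Stereo

namespace Pool.Agent.H791.GBC

open MeasureTheory Filter Topology

noncomputable section

variable {l : ℕ}

/-- The wave `cos(z₀+α) cos(z₁+β) + sin(z₀+α) cos(z₂+γ)`. -/
def wv (q : ℝ × ℝ × ℝ) (z : V (l + 3)) : ℝ :=
  Real.cos (z 0 + q.1) * Real.cos (z 1 + q.2.1) + Real.sin (z 0 + q.1) * Real.cos (z 2 + q.2.2)

theorem wv_smooth2 : ContDiff ℝ (⊤ : ℕ∞) (fun x : (ℝ × ℝ × ℝ) × V (l + 3) => wv x.1 x.2) := by
  unfold wv
  fun_prop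

theorem wv_smooth (q : ℝ × ℝ × ℝ) : ContDiff ℝ (⊤ : ℕ∞) (wv q : V (l + 3) → ℝ) := by
  unfold wv
  fun_prop

theorem abs_wv_le (q : ℝ × ℝ × ℝ) (z : V (l + 3)) : |wv q z| ≤ 2 := by
  unfold wv
  have h1 := Real.abs_cos_le_one (z 0 + q.1)
  have h2 := Real.abs_cos_le_one (z 1 + q.2.1)
  have h3 := Real.abs_sin_le_one (z 0 + q.1)
  have h4 := Real.abs_cos_le_one (z 2 + q.2.2)
  calc _ ≤ |Real.cos (z 0 + q.1) * Real.cos (z 1 + q.2.1)|
        + |Real.sin (z 0 + q.1) * Real.cos (z 2 + q.2.2)| := abs_add_le _ _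
    _ ≤ 1 * 1 + 1 * 1 := by
        rw [abs_mul, abs_mul]
        gcongr
    _ = 2 := by norm_num

/-- The parameter space: `(t, y, (α, β, γ))`. -/
abbrev Par (l : ℕ) := ℝ × V (l + 3) × (ℝ × ℝ × ℝ)

/-- The amplitude. -/
def amp : ℝ := 1 / 1000

variable (χ : V (l + 3) → ℝ)

/-- The radial function of the hypersurface near a point, at scale `t`. -/
def Rp (x : Par l × V (l + 3)) : ℝ :=
  1 + x.1.1 * amp * χ (x.1.2.1 + x.1.1 • x.2) * wv x.1.2.2 x.2

/-- Its gradient. -/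
def Vp (i : Fin (l + 3)) (x : Par l × V (l + 3)) : ℝ :=
  amp * (χ (x.1.2.1 + x.1.1 • x.2) * pd i (wv x.1.2.2) x.2
    + x.1.1 * pd i χ (x.1.2.1 + x.1.1 • x.2) * wv x.1.2.2 x.2)

/-- The rescaled induced metric. -/
def Kp (i j : Fin (l + 3)) (x : Par l × V (l + 3)) : ℝ :=
  (Rp χ x) ^ 2 * (4 / (1 + sq (x.1.2.1 + x.1.1 • x.2)) ^ 2) * (if i = j then 1 else 0)
    + Vp χ i x * Vp χ j x

def Hp (p : Par l) : Met (l + 3) := fun z => Matrix.of fun i j => Kp χ i j (p, z)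

/-- The rescaled density. -/
def Gp (p : Par l) : ℝ := scalDensity (Hp χ p) 0

variable {χ} (hχ : ContDiff ℝ (⊤ : ℕ∞) χ)

theorem pd_wv_smooth2 (i : Fin (l + 3)) :
    ContDiff ℝ (⊤ : ℕ∞) (fun x : (ℝ × ℝ × ℝ) × V (l + 3) => pd i (wv x.1) x.2) := by
  have h : (fun x : (ℝ × ℝ × ℝ) × V (l + 3) => pd i (wv x.1) x.2)
      = pdr i (fun x : (ℝ × ℝ × ℝ) × V (l + 3) => wv x.1 x.2) := by
    funext x
    exact pd_param wv_smooth2 i x.1 x.2
  rw [h]
  exact pdr_smooth wv_smooth2 i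

theorem arg_smooth : ContDiff ℝ (⊤ : ℕ∞)
    (fun x : Par l × V (l + 3) => x.1.2.1 + x.1.1 • x.2) := by
  fun_prop

theorem arg2_smooth : ContDiff ℝ (⊤ : ℕ∞)
    (fun x : Par l × V (l + 3) => (x.1.2.2, x.2)) := by
  fun_prop

include hχ in
theorem chi_smooth : ContDiff ℝ (⊤ : ℕ∞)
    (fun x : Par l × V (l + 3) => χ (x.1.2.1 + x.1.1 • x.2)) :=
  ContDiff.comp (g := χ) (f := fun x : Par l × V (l + 3) => x.1.2.1 + x.1.1 • x.2) hχ arg_smooth

theorem wv_smooth3 : ContDiff ℝ (⊤ : ℕ∞) (fun x : Par l × V (l + 3) => wv x.1.2.2 x.2) :=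
  ContDiff.comp (g := fun x : (ℝ × ℝ × ℝ) × V (l + 3) => wv x.1 x.2)
    (f := fun x : Par l × V (l + 3) => (x.1.2.2, x.2)) wv_smooth2 arg2_smooth

theorem pd_wv_smooth3 (i : Fin (l + 3)) :
    ContDiff ℝ (⊤ : ℕ∞) (fun x : Par l × V (l + 3) => pd i (wv x.1.2.2) x.2) :=
  ContDiff.comp (g := fun x : (ℝ × ℝ × ℝ) × V (l + 3) => pd i (wv x.1) x.2)
    (f := fun x : Par l × V (l + 3) => (x.1.2.2, x.2)) (pd_wv_smooth2 i) arg2_smooth

theorem t_smooth : ContDiff ℝ (⊤ : ℕ∞) (fun x : Par l × V (l + 3) => x.1.1) := by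
  fun_prop

include hχ in
theorem Rp_smooth : ContDiff ℝ (⊤ : ℕ∞) (Rp χ) :=
  contDiff_const.add (((t_smooth.mul contDiff_const).mul (chi_smooth hχ)).mul wv_smooth3)

include hχ in
theorem Vp_smooth (i : Fin (l + 3)) : ContDiff ℝ (⊤ : ℕ∞) (Vp χ i) :=
  contDiff_const.mul (((chi_smooth hχ).mul (pd_wv_smooth3 i)).add
    ((t_smooth.mul (chi_smooth (pd_smooth hχ i))).mul wv_smooth3))

include hχ in
theorem Kp_smooth (i j : Fin (l + 3)) : ContDiff ℝ (⊤ : ℕ∞) (Kp χ i j) := by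
  unfold Kp
  have h4 : ContDiff ℝ (⊤ : ℕ∞)
      (fun x : Par l × V (l + 3) => 4 / (1 + sq (x.1.2.1 + x.1.1 • x.2)) ^ 2) := by
    refine ContDiff.div contDiff_const ?_ ?_
    · exact (contDiff_const.add (sq_smooth.comp arg_smooth)).pow 2
    · intro x
      have := sq_nonneg' (x.1.2.1 + x.1.1 • x.2)
      positivity
  exact ((((Rp_smooth hχ).pow 2).mul h4).mul contDiff_const).add
    ((Vp_smooth hχ i).mul (Vp_smooth hχ j))

include hχ in
theorem jet_Hp_continuous : Continuous fun p : Par l => jet (Hp χ p) 0 := by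
  have hz : Continuous fun p : Par l => (p, (0 : V (l + 3))) := by fun_prop
  have h1 : ∀ p : Par l, jet (Hp χ p) 0 = (fun i j => Kp χ i j (p, 0),
      fun c i j => pdr c (Kp χ i j) (p, 0),
      fun d c i j => pdr d (pdr c (Kp χ i j)) (p, 0)) := by
    intro p
    refine Prod.ext rfl (Prod.ext ?_ ?_)
    · funext c i j
      exact pd_param (Kp_smooth hχ i j) c p 0
    · funext d c i j
      have h2 : pd c (fun z => Hp χ p z i j) = fun z => pdr c (Kp χ i j) (p, z) := by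
        funext z
        exact pd_param (Kp_smooth hχ i j) c p z
      change pd d (pd c (fun z => Hp χ p z i j)) 0 = _
      rw [h2]
      exact pd_param (pdr_smooth (Kp_smooth hχ i j) c) d p 0
  simp_rw [h1]
  refine Continuous.prodMk ?_ (Continuous.prodMk ?_ ?_)
  · exact continuous_pi fun i => continuous_pi fun j => (Kp_smooth hχ i j).continuous.comp hz
  · exact continuous_pi fun c => continuous_pi fun i => continuous_pi fun j =>
      (pdr_smooth (Kp_smooth hχ i j) c).continuous.comp hz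
  · exact continuous_pi fun d => continuous_pi fun c => continuous_pi fun i => continuous_pi fun j =>
      (pdr_smooth (pdr_smooth (Kp_smooth hχ i j) c) d).continuous.comp hz

theorem Rp_pos (h0 : ∀ y, 0 ≤ χ y) (h1 : ∀ y, χ y ≤ 1) {x : Par l × V (l + 3)}
    (ht : |x.1.1| ≤ 1) : 0 < Rp χ x := by
  have hw := abs_wv_le x.1.2.2 x.2
  have hb : |x.1.1 * amp * χ (x.1.2.1 + x.1.1 • x.2) * wv x.1.2.2 x.2| ≤ 1 * amp * 1 * 2 := by
    have ha : |amp| = amp := abs_of_pos (by norm_num [amp])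
    have hc : |χ (x.1.2.1 + x.1.1 • x.2)| ≤ 1 := by
      rw [abs_of_nonneg (h0 _)]; exact h1 _
    rw [abs_mul, abs_mul, abs_mul, ha]
    have : 0 ≤ amp := by norm_num [amp]
    gcongr
  have h2 := neg_abs_le (x.1.1 * amp * χ (x.1.2.1 + x.1.1 • x.2) * wv x.1.2.2 x.2)
  have h3 : (1 : ℝ) * amp * 1 * 2 ≤ 1 / 2 := by norm_num [amp]
  unfold Rp
  linarith

theorem Hp_det_pos (h0 : ∀ y, 0 ≤ χ y) (h1 : ∀ y, χ y ≤ 1) {p : Par l} (ht : |p.1| ≤ 1) :
    (Hp χ p 0).det ≠ 0 := by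
  have hR := Rp_pos h0 h1 (x := (p, 0)) ht
  have hs := sq_nonneg' (p.2.1 + p.1 • (0 : V (l + 3)))
  have hc : 0 < (Rp χ (p, 0)) ^ 2 * (4 / (1 + sq (p.2.1 + p.1 • (0 : V (l + 3)))) ^ 2) := by
    positivity
  have hd := det_cI_add_vv (fun i => Vp χ i (p, 0)) hc
  have : (Hp χ p 0).det = _ := hd
  rw [this]
  have hS : 0 ≤ ∑ a, (fun i => Vp χ i (p, 0)) a ^ 2 := Finset.sum_nonneg fun a _ => sq_nonneg _
  positivity

include hχ in
theorem Gp_continuousAt (h0 : ∀ y, 0 ≤ χ y) (h1 : ∀ y, χ y ≤ 1) {p : Par l} (ht : |p.1| ≤ 1) :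
    ContinuousAt (Gp χ) p := by
  have h : Gp χ = fun p => sJ (jet (Hp χ p) 0) := rfl
  rw [h]
  exact ContinuousAt.comp (f := fun p : Par l => jet (Hp χ p) 0) (g := sJ)
    (continuousAt_sJ _ (Hp_det_pos h0 h1 ht)) (jet_Hp_continuous hχ).continuousAt

/-- Jets of affinely rescaled matrix fields. -/
theorem jet_affine {k : ℕ} {h : Met k} (hh : ∀ i j, ContDiff ℝ (⊤ : ℕ∞) (fun z => h z i j)) (y : V k)
    (t : ℝ) : jet (fun z => h (y + t • z)) 0
      = ((jet h y).1, t • (jet h y).2.1, t ^ 2 • (jet h y).2.2) := by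
  have hy : y + t • (0 : V k) = y := by simp
  have h1 : ∀ c i j, ∀ z, pd c (fun z => h (y + t • z) i j) z
      = t * pd c (fun z => h z i j) (y + t • z) := fun c i j z =>
    pd_affine (f := fun z => h z i j) y t z ((hh i j).differentiable (by simp) _) c
  refine Prod.ext ?_ (Prod.ext ?_ ?_)
  · funext i j
    simp [jet]
  · funext c i j
    change pd c (fun z => h (y + t • z) i j) 0 = t * pd c (fun z => h z i j) y
    rw [h1, hy]
  · funext d c i j
    change pd d (pd c (fun z => h (y + t • z) i j)) 0 = t ^ 2 * pd d (pd c (fun z => h z i j)) y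
    have h2 : pd c (fun z => h (y + t • z) i j)
        = fun z => t * pd c (fun z => h z i j) (y + t • z) := funext fun z => h1 c i j z
    have h3 : DifferentiableAt ℝ (pd c (fun z => h z i j)) (y + t • (0 : V k)) :=
      (pd_smooth (hh i j) c).differentiable (by simp) _
    have h4 : DifferentiableAt ℝ (fun z => pd c (fun z => h z i j) (y + t • z)) 0 := by
      refine DifferentiableAt.comp (0 : V k) (g := pd c (fun z => h z i j)) h3 ?_
      fun_prop
    rw [h2, pd_const_mul t h4, pd_affine y t 0 h3, hy]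
    ring

theorem density_affine {k : ℕ} {h : Met k} (hh : ∀ i j, ContDiff ℝ (⊤ : ℕ∞) (fun z => h z i j))
    (y : V k) (t : ℝ) :
    scalDensity (fun z => h (y + t • z)) 0 = t ^ 2 * scalDensity h y := by
  rw [scalDensity_eq, jet_affine hh, sJ_scale]
  rfl

end

end Pool.Agent.H791.GBC
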