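import Pool.Agent.H791.GBC.Flat

namespace Pool.Agent.H791.GBC

open MeasureTheory Filter Topology Real

noncomputable section

variable {k m : ℕ}

/-! ### Second order jets of functions -/

/-- Scalar 2-jets. -/
abbrev SJ (k : ℕ) := ℝ × (Fin k → ℝ) × (Fin k → Fin k → ℝ)

def sj (u : V k → ℝ) (y : V k) : SJ k :=
  (u y, fun c => pd c u y, fun d c => pd d (pd c u) y)

/-- The product of jets. -/
def sjm (p q : SJ k) : SJ k :=
  (p.1 * q.1, fun c => p.2.1 c * q.1 + p.1 * q.2.1 c,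
    fun d c => (p.2.2 d c * q.1 + p.2.1 c * q.2.1 d) + (p.2.1 d * q.2.1 c + p.1 * q.2.2 d c))

/-- The composition of jets. -/
def sjc (p : SJ m) (D : Fin k → Fin m → ℝ) (E : Fin k → Fin k → Fin m → ℝ) : SJ k :=
  (p.1, fun c => ∑ j, p.2.1 j * D c j,
    fun d c => ∑ j, ((∑ n, p.2.2 n j * D d n) * D c j + p.2.1 j * E d c j))

theorem pd_contDiffAt {u : V k → ℝ} {y : V k} (hu : ContDiffAt ℝ 2 u y) (c : Fin k) :
    ContDiffAt ℝ 1 (pd c u) y := by
  have h1 : ContDiffAt ℝ 1 (fderiv ℝ u) y := hu.fderiv_right (by norm_num)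
  exact h1.clm_apply contDiffAt_const

theorem ev_diff {u : V k → ℝ} {y : V k} (hu : ContDiffAt ℝ 2 u y) :
    ∀ᶠ z in 𝓝 y, DifferentiableAt ℝ u z := by
  filter_upwards [hu.eventually (by simp)] with z hz
  exact hz.differentiableAt (by simp)

theorem sj_mul {u v : V k → ℝ} {y : V k} (hu : ContDiffAt ℝ 2 u y) (hv : ContDiffAt ℝ 2 v y) :
    sj (fun z => u z * v z) y = sjm (sj u y) (sj v y) := by
  have hu1 := ev_diff hu
  have hv1 := ev_diff hv
  have e1 : ∀ c, pd c (fun z => u z * v z) =ᶠ[𝓝 y] fun z => pd c u z * v z + u z * pd c v z := by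
    intro c
    filter_upwards [hu1, hv1] with z h1 h2
    exact pd_mul h1 h2 c
  refine Prod.ext rfl (Prod.ext ?_ ?_)
  · funext c
    exact (e1 c).eq_of_nhds
  · funext d c
    change pd d (pd c (fun z => u z * v z)) y = _
    have du := hu1.self_of_nhds
    have dv := hv1.self_of_nhds
    have du1 := (pd_contDiffAt hu c).differentiableAt (by simp)
    have dv1 := (pd_contDiffAt hv c).differentiableAt (by simp)
    rw [pd_congr (e1 c) d, pd_add (du1.fun_mul dv) (du.fun_mul dv1), pd_mul du1 dv, pd_mul du dv1]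
    rfl

theorem sj_sum {ι : Type*} (s : Finset ι) {u : ι → V k → ℝ} {y : V k}
    (hu : ∀ i ∈ s, ContDiffAt ℝ 2 (u i) y) :
    sj (fun z => ∑ i ∈ s, u i z) y = ∑ i ∈ s, sj (u i) y := by
  have hu1 : ∀ᶠ z in 𝓝 y, ∀ i ∈ s, DifferentiableAt ℝ (u i) z := by
    rw [Filter.eventually_all_finset]
    exact fun i hi => ev_diff (hu i hi)
  have e1 : ∀ c, pd c (fun z => ∑ i ∈ s, u i z) =ᶠ[𝓝 y] fun z => ∑ i ∈ s, pd c (u i) z := by
    intro c
    filter_upwards [hu1] with z h1
    exact pd_sum s h1 c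
  refine Prod.ext ?_ (Prod.ext ?_ ?_)
  · rw [Prod.fst_sum]; rfl
  · rw [Prod.snd_sum, Prod.fst_sum]
    funext c
    rw [Finset.sum_apply]
    exact (e1 c).eq_of_nhds
  · rw [Prod.snd_sum, Prod.snd_sum]
    funext d c
    rw [Finset.sum_apply, Finset.sum_apply]
    change pd d (pd c (fun z => ∑ i ∈ s, u i z)) y = _
    rw [pd_congr (e1 c) d, pd_sum s fun i hi => (pd_contDiffAt (hu i hi) c).differentiableAt (by simp)]
    rfl

theorem sj_comp {f : V m → ℝ} {F : V k → V m} {y : V k} (hf : ContDiffAt ℝ 2 f (F y))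
    (hF : ContDiffAt ℝ 2 F y) :
    sj (fun z => f (F z)) y = sjc (sj f (F y)) (fun c j => pd c (fun z => F z j) y)
      (fun d c j => pd d (pd c (fun z => F z j)) y) := by
  have hf1 : ∀ᶠ z in 𝓝 y, DifferentiableAt ℝ f (F z) :=
    hF.continuousAt.eventually (ev_diff hf)
  have hF1 : ∀ᶠ z in 𝓝 y, DifferentiableAt ℝ F z := by
    filter_upwards [hF.eventually (by simp)] with z hz
    exact hz.differentiableAt (by simp)
  have hFj : ∀ j, ContDiffAt ℝ 2 (fun z => F z j) y := contDiffAt_pi.1 hF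
  have e1 : ∀ c, pd c (fun z => f (F z)) =ᶠ[𝓝 y]
      fun z => ∑ j, pd j f (F z) * pd c (fun z => F z j) z := by
    intro c
    filter_upwards [hf1, hF1] with z h1 h2
    exact pd_comp h1 h2 c
  refine Prod.ext rfl (Prod.ext ?_ ?_)
  · funext c
    exact (e1 c).eq_of_nhds
  · funext d c
    change pd d (pd c (fun z => f (F z))) y = _
    have d1 : ∀ j, DifferentiableAt ℝ (pd j f) (F y) := fun j =>
      (pd_contDiffAt hf j).differentiableAt (by simp)
    have d2 : ∀ j, DifferentiableAt ℝ (fun z => pd j f (F z)) y := fun j =>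
      DifferentiableAt.comp (g := pd j f) y (d1 j) hF1.self_of_nhds
    have d3 : ∀ j, DifferentiableAt ℝ (pd c (fun z => F z j)) y := fun j =>
      (pd_contDiffAt (hFj j) c).differentiableAt (by simp)
    rw [pd_congr (e1 c) d, pd_sum _ fun j _ => (d2 j).fun_mul (d3 j)]
    refine Finset.sum_congr rfl fun j _ => ?_
    rw [pd_mul (d2 j) (d3 j), pd_comp (d1 j) hF1.self_of_nhds]
    rfl

theorem sjm_continuous : Continuous fun x : SJ k × SJ k => sjm x.1 x.2 := by
  unfold sjm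
  fun_prop

theorem sjc_continuous : Continuous fun x : SJ m × (Fin k → Fin m → ℝ) ×
    (Fin k → Fin k → Fin m → ℝ) => sjc x.1 x.2.1 x.2.2 := by
  unfold sjc
  fun_prop

end

end Pool.Agent.H791.GBC
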