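import Pool.Agent.H791.GBC.Graph

namespace Pool.Agent.H791.GBC

open MeasureTheory Filter Topology

noncomputable section

variable {k : ℕ}

/-- `|y|²`. -/
def sq (y : V k) : ℝ := ∑ i, y i ^ 2

theorem sq_nonneg' (y : V k) : 0 ≤ sq y := Finset.sum_nonneg fun _ _ => sq_nonneg _

theorem sq_smooth : ContDiff ℝ (⊤ : ℕ∞) (sq : V k → ℝ) := by
  unfold sq; fun_prop

theorem pd_sq (y : V k) (a : Fin k) : pd a sq y = 2 * y a := by
  have h : ∀ i : Fin k, DifferentiableAt ℝ (fun z : V k => z i) y := fun i => by fun_prop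
  have h1 : pd a (fun z : V k => ∑ i, z i ^ 2) y = ∑ i, pd a (fun z : V k => z i ^ 2) y :=
    pd_sum _ (fun i _ => (h i).pow 2) a
  change pd a (fun z : V k => ∑ i, z i ^ 2) y = _
  rw [h1]
  have h2 : ∀ i, pd a (fun z : V k => z i ^ 2) y = if i = a then 2 * y a else 0 := by
    intro i
    have h3 : (fun z : V k => z i ^ 2) = fun z => z i * z i := by funext z; ring
    rw [h3, pd_mul (h i) (h i), pd_coord]
    split_ifs with h4 h5 h5
    · subst h4; ring
    · exact absurd h4.symm h5
    · exact absurd h5.symm h4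
    · ring
  simp_rw [h2]
  simp

theorem stereo_zero (s : ℝ) (y : V k) : stereo s y 0 = s * (1 - sq y) / (1 + sq y) := rfl

theorem stereo_succ (s : ℝ) (y : V k) (i : Fin k) : stereo s y i.succ = 2 * y i / (1 + sq y) := rfl

theorem stereo_smooth (s : ℝ) (i : Fin (k + 1)) :
    ContDiff ℝ (⊤ : ℕ∞) (fun y : V k => stereo s y i) := by
  have h0 : ∀ y : V k, 1 + sq y ≠ 0 := fun y => by have := sq_nonneg' y; positivity
  refine Fin.cases ?_ (fun i => ?_) i
  · simp only [stereo_zero]
    exact (contDiff_const.mul (contDiff_const.sub sq_smooth)).div (contDiff_const.add sq_smooth) h0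
  · simp only [stereo_succ]
    refine ContDiff.div ?_ (contDiff_const.add sq_smooth) h0
    fun_prop

theorem pd_stereo_zero (s : ℝ) (y : V k) (a : Fin k) :
    pd a (fun y : V k => stereo s y 0) y = -4 * s * y a / (1 + sq y) ^ 2 := by
  have h0 : 1 + sq y ≠ 0 := by have := sq_nonneg' y; positivity
  have hd : HasDerivAt (fun q : ℝ => s * (1 - q) / (1 + q)) (-2 * s / (1 + sq y) ^ 2) (sq y) := by
    have h1 : HasDerivAt (fun q : ℝ => s * (1 - q)) (s * (-1)) (sq y) :=
      ((hasDerivAt_id (sq y)).const_sub 1).const_mul s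
    have h2 : HasDerivAt (fun q : ℝ => 1 + q) 1 (sq y) := (hasDerivAt_id (sq y)).const_add 1
    have h3 := h1.fun_div h2 h0
    have e : (s * (-1) * (1 + sq y) - s * (1 - sq y) * 1) / (1 + sq y) ^ 2
        = -2 * s / (1 + sq y) ^ 2 := by ring
    rw [e] at h3
    exact h3
  have h := pd_comp_real (f := sq) hd (sq_smooth.differentiable (by simp) y) a
  simp only [stereo_zero]
  rw [h, pd_sq]; ring

theorem pd_stereo_succ (s : ℝ) (y : V k) (a i : Fin k) :
    pd a (fun y : V k => stereo s y i.succ) y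
      = (if a = i then 2 / (1 + sq y) else 0) - 4 * y i * y a / (1 + sq y) ^ 2 := by
  have h0 : 1 + sq y ≠ 0 := by have := sq_nonneg' y; positivity
  have hd : HasDerivAt (fun q : ℝ => 2 / (1 + q)) (-2 / (1 + sq y) ^ 2) (sq y) := by
    have h1 : HasDerivAt (fun _ : ℝ => (2 : ℝ)) 0 (sq y) := hasDerivAt_const _ _
    have h2 : HasDerivAt (fun q : ℝ => 1 + q) 1 (sq y) := (hasDerivAt_id (sq y)).const_add 1
    have h3 := h1.fun_div h2 h0
    have e : (0 * (1 + sq y) - 2 * 1) / (1 + sq y) ^ 2 = -2 / (1 + sq y) ^ 2 := by ring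
    rw [e] at h3
    exact h3
  have hsd := sq_smooth.differentiable (by simp) y
  have h := pd_comp_real (f := sq) hd hsd a
  have hdd : DifferentiableAt ℝ (fun z : V k => 2 / (1 + sq z)) y :=
    (hd.comp_hasFDerivAt y hsd.hasFDerivAt).differentiableAt
  have hco : DifferentiableAt ℝ (fun z : V k => z i) y := by fun_prop
  have h3 : (fun y : V k => stereo s y i.succ) = fun y => y i * (2 / (1 + sq y)) := by
    funext y; rw [stereo_succ]; ring
  rw [h3, pd_mul hco hdd, h, pd_sq, pd_coord]
  split_ifs <;> ring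

theorem stereo_norm {s : ℝ} (hs : s ^ 2 = 1) (y : V k) : ∑ i, stereo s y i ^ 2 = 1 := by
  have h0 : 1 + sq y ≠ 0 := by have := sq_nonneg' y; positivity
  rw [Fin.sum_univ_succ]
  simp only [stereo_zero, stereo_succ]
  have : ∑ i, (2 * y i / (1 + sq y)) ^ 2 = 4 * sq y / (1 + sq y) ^ 2 := by
    have h1 : ∀ i, (2 * y i / (1 + sq y)) ^ 2 = 4 / (1 + sq y) ^ 2 * y i ^ 2 := fun i => by
      field_simp; ring
    simp_rw [h1, ← Finset.mul_sum]
    change _ * sq y = _
    ring
  rw [this]
  field_simp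
  rw [hs]; ring

theorem stereo_dot_pd {s : ℝ} (hs : s ^ 2 = 1) (y : V k) (a : Fin k) :
    ∑ i, stereo s y i * pd a (fun z : V k => stereo s z i) y = 0 := by
  have h0 : 1 + sq y ≠ 0 := by have := sq_nonneg' y; positivity
  rw [Fin.sum_univ_succ]
  simp only [pd_stereo_zero, pd_stereo_succ]
  simp only [stereo_zero, stereo_succ]
  have : ∑ i, 2 * y i / (1 + sq y) *
      ((if a = i then 2 / (1 + sq y) else 0) - 4 * y i * y a / (1 + sq y) ^ 2)
      = 4 * y a / (1 + sq y) ^ 2 - 8 * y a / (1 + sq y) ^ 3 * sq y := by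
    have h1 : ∀ i, 2 * y i / (1 + sq y) *
      ((if a = i then 2 / (1 + sq y) else 0) - 4 * y i * y a / (1 + sq y) ^ 2)
      = (if a = i then 4 * y i / (1 + sq y) ^ 2 else 0) - 8 * y a / (1 + sq y) ^ 3 * y i ^ 2 := by
      intro i; split_ifs <;> field_simp <;> ring
    simp_rw [h1, Finset.sum_sub_distrib, ← Finset.mul_sum]
    simp [sq]
  rw [this]
  field_simp
  linear_combination (-4 : ℝ) * y a * (1 - sq y) * hs

theorem pd_dot_pd {s : ℝ} (hs : s ^ 2 = 1) (y : V k) (a b : Fin k) :
    ∑ i, pd a (fun z : V k => stereo s z i) y * pd b (fun z : V k => stereo s z i) y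
      = 4 / (1 + sq y) ^ 2 * (if a = b then 1 else 0) := by
  have h0 : 1 + sq y ≠ 0 := by have := sq_nonneg' y; positivity
  rw [Fin.sum_univ_succ]
  simp only [pd_stereo_zero, pd_stereo_succ]
  have h1 : ∀ i, ((if a = i then 2 / (1 + sq y) else 0) - 4 * y i * y a / (1 + sq y) ^ 2) *
      ((if b = i then 2 / (1 + sq y) else 0) - 4 * y i * y b / (1 + sq y) ^ 2)
      = (if a = i then (if b = i then 4 / (1 + sq y) ^ 2 else 0) else 0)
        - (if a = i then 8 * y i * y b / (1 + sq y) ^ 3 else 0)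
        - (if b = i then 8 * y i * y a / (1 + sq y) ^ 3 else 0)
        + 16 * y a * y b / (1 + sq y) ^ 4 * y i ^ 2 := by
    intro i; split_ifs <;> field_simp <;> ring
  simp_rw [h1]
  rw [Finset.sum_add_distrib, Finset.sum_sub_distrib, Finset.sum_sub_distrib, ← Finset.mul_sum]
  simp only [Finset.sum_ite_eq, Finset.mem_univ, if_true]
  change _ + (_ - _ - _ + _ * sq y) = _
  have h2 : (if b = a then 4 / (1 + sq y) ^ 2 else 0)
      = 4 / (1 + sq y) ^ 2 * (if a = b then 1 else 0) := by
    by_cases h : a = b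
    · simp [h]
    · simp [h, Ne.symm h]
  rw [h2]
  field_simp
  linear_combination (16 : ℝ) * y a * y b * hs

/-- The induced metric of a star-shaped hypersurface of Euclidean space in stereographic
coordinates. -/
theorem induced_flat {s : ℝ} (hs : s ^ 2 = 1) {r : V k → ℝ} {y : V k}
    (hr : DifferentiableAt ℝ r y) :
    induced (fun _ => 1) (fun (z : V k) (i : Fin (k + 1)) => r z * stereo s z i) y
      = Matrix.of fun a b : Fin k =>
        (r y) ^ 2 * (4 / (1 + sq y) ^ 2) * (if a = b then 1 else 0) + pd a r y * pd b r y := by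
  have hst : ∀ i, DifferentiableAt ℝ (fun z : V k => stereo s z i) y := fun i =>
    (stereo_smooth s i).differentiable (by simp) y
  ext a b
  simp only [induced, Matrix.of_apply, Matrix.one_apply]
  have h1 : ∀ i j : Fin (k + 1), (if i = j then (1 : ℝ) else 0) *
      pd a (fun z => r z * stereo s z i) y * pd b (fun z => r z * stereo s z j) y
      = if i = j then pd a (fun z => r z * stereo s z i) y *
        pd b (fun z => r z * stereo s z j) y else 0 := by
    intro i j; split_ifs <;> ring
  simp_rw [h1]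
  simp only [Finset.sum_ite_eq, Finset.mem_univ, if_true]
  have h2 : ∀ i : Fin (k + 1), pd a (fun z => r z * stereo s z i) y *
        pd b (fun z => r z * stereo s z i) y
      = pd a r y * pd b r y * stereo s y i ^ 2
        + pd a r y * r y * (stereo s y i * pd b (fun z : V k => stereo s z i) y)
        + pd b r y * r y * (stereo s y i * pd a (fun z : V k => stereo s z i) y)
        + r y ^ 2 * (pd a (fun z : V k => stereo s z i) y *
          pd b (fun z : V k => stereo s z i) y) := by
    intro i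
    rw [pd_mul hr (hst i), pd_mul hr (hst i)]; ring
  simp_rw [h2]
  rw [Finset.sum_add_distrib, Finset.sum_add_distrib, Finset.sum_add_distrib, ← Finset.mul_sum,
    ← Finset.mul_sum, ← Finset.mul_sum, ← Finset.mul_sum, stereo_norm hs, stereo_dot_pd hs,
    stereo_dot_pd hs, pd_dot_pd hs]
  ring

end

end Pool.Agent.H791.GBC
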