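import Pool.Agent.H791.GBC.Prof

namespace Pool.Agent.H791.GBC

open Filter Topology Real

noncomputable section

/-- A monomial in cosine and sine, evaluated at a shifted phase. -/
def cs (α : ℝ) (i j : ℕ) (m : Fin 8) : ℝ :=
  cos (α + (m : ℕ) * (π / 4)) ^ i * sin (α + (m : ℕ) * (π / 4)) ^ j

def S8 (α : ℝ) (i j : ℕ) : ℝ := ∑ m, cs α i j m

theorem S8_expand (α : ℝ) (i j : ℕ) : ∃ r : ℝ, r ^ 2 = 1 / 2 ∧
    S8 α i j = cos α ^ i * sin α ^ j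
      + ((cos α - sin α) * r) ^ i * ((cos α + sin α) * r) ^ j
      + (-sin α) ^ i * (cos α) ^ j
      + (-(cos α + sin α) * r) ^ i * ((cos α - sin α) * r) ^ j
      + (-cos α) ^ i * (-sin α) ^ j
      + (-(cos α - sin α) * r) ^ i * (-(cos α + sin α) * r) ^ j
      + (sin α) ^ i * (-cos α) ^ j
      + ((cos α + sin α) * r) ^ i * (-(cos α - sin α) * r) ^ j := by
  refine ⟨√2 / 2, ?_, ?_⟩
  · rw [div_pow, Real.sq_sqrt (by norm_num)]; norm_num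
  have hc : cos (π / 4) = √2 / 2 := cos_pi_div_four
  have hs : sin (π / 4) = √2 / 2 := sin_pi_div_four
  have e0 : cos (α + ((0 : Fin 8) : ℕ) * (π / 4)) = cos α ∧
      sin (α + ((0 : Fin 8) : ℕ) * (π / 4)) = sin α := by simp
  have e1 : cos (α + ((1 : Fin 8) : ℕ) * (π / 4)) = (cos α - sin α) * (√2 / 2) ∧
      sin (α + ((1 : Fin 8) : ℕ) * (π / 4)) = (cos α + sin α) * (√2 / 2) := by
    have : α + ((1 : Fin 8) : ℕ) * (π / 4) = α + π / 4 := by simp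
    rw [this, cos_add, sin_add, hc, hs]
    constructor <;> ring
  have e2 : cos (α + ((2 : Fin 8) : ℕ) * (π / 4)) = -sin α ∧
      sin (α + ((2 : Fin 8) : ℕ) * (π / 4)) = cos α := by
    have : α + ((2 : Fin 8) : ℕ) * (π / 4) = α + π / 2 := by
      have : ((2 : Fin 8) : ℕ) = 2 := rfl
      rw [this]; push_cast; ring
    rw [this, cos_add_pi_div_two, sin_add_pi_div_two]
    exact ⟨rfl, rfl⟩
  have e3 : cos (α + ((3 : Fin 8) : ℕ) * (π / 4)) = -(cos α + sin α) * (√2 / 2) ∧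
      sin (α + ((3 : Fin 8) : ℕ) * (π / 4)) = (cos α - sin α) * (√2 / 2) := by
    have : α + ((3 : Fin 8) : ℕ) * (π / 4) = (α + π / 4) + π / 2 := by
      have : ((3 : Fin 8) : ℕ) = 3 := rfl
      rw [this]; push_cast; ring
    rw [this, cos_add_pi_div_two, sin_add_pi_div_two, cos_add, sin_add, hc, hs]
    constructor <;> ring
  have e4 : cos (α + ((4 : Fin 8) : ℕ) * (π / 4)) = -cos α ∧
      sin (α + ((4 : Fin 8) : ℕ) * (π / 4)) = -sin α := by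
    have : α + ((4 : Fin 8) : ℕ) * (π / 4) = α + π := by
      have : ((4 : Fin 8) : ℕ) = 4 := rfl
      rw [this]; push_cast; ring
    rw [this, cos_add_pi, sin_add_pi]
    exact ⟨rfl, rfl⟩
  have e5 : cos (α + ((5 : Fin 8) : ℕ) * (π / 4)) = -(cos α - sin α) * (√2 / 2) ∧
      sin (α + ((5 : Fin 8) : ℕ) * (π / 4)) = -(cos α + sin α) * (√2 / 2) := by
    have : α + ((5 : Fin 8) : ℕ) * (π / 4) = (α + π / 4) + π := by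
      have : ((5 : Fin 8) : ℕ) = 5 := rfl
      rw [this]; push_cast; ring
    rw [this, cos_add_pi, sin_add_pi, cos_add, sin_add, hc, hs]
    constructor <;> ring
  have e6 : cos (α + ((6 : Fin 8) : ℕ) * (π / 4)) = sin α ∧
      sin (α + ((6 : Fin 8) : ℕ) * (π / 4)) = -cos α := by
    have : α + ((6 : Fin 8) : ℕ) * (π / 4) = (α + π / 2) + π := by
      have : ((6 : Fin 8) : ℕ) = 6 := rfl
      rw [this]; push_cast; ring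
    rw [this, cos_add_pi, sin_add_pi, cos_add_pi_div_two, sin_add_pi_div_two]
    constructor <;> ring
  have e7 : cos (α + ((7 : Fin 8) : ℕ) * (π / 4)) = (cos α + sin α) * (√2 / 2) ∧
      sin (α + ((7 : Fin 8) : ℕ) * (π / 4)) = -(cos α - sin α) * (√2 / 2) := by
    have : α + ((7 : Fin 8) : ℕ) * (π / 4) = ((α + π / 4) + π / 2) + π := by
      have : ((7 : Fin 8) : ℕ) = 7 := rfl
      rw [this]; push_cast; ring
    rw [this, cos_add_pi, sin_add_pi, cos_add_pi_div_two, sin_add_pi_div_two, cos_add, sin_add,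
      hc, hs]
    constructor <;> ring
  rw [S8, Fin.sum_univ_eight]
  simp only [cs]
  rw [e0.1, e0.2, e1.1, e1.2, e2.1, e2.2, e3.1, e3.2, e4.1, e4.2, e5.1, e5.2, e6.1, e6.2,
    e7.1, e7.2]

theorem S8_00 (α : ℝ) : S8 α 0 0 = 8 := by
  simp [S8, cs]

theorem S8_10 (α : ℝ) : S8 α 1 0 = 0 := by
  obtain ⟨r, hr, h⟩ := S8_expand α 1 0
  rw [h]; ring

theorem S8_30 (α : ℝ) : S8 α 3 0 = 0 := by
  obtain ⟨r, hr, h⟩ := S8_expand α 3 0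
  rw [h]; ring

theorem S8_12 (α : ℝ) : S8 α 1 2 = 0 := by
  obtain ⟨r, hr, h⟩ := S8_expand α 1 2
  rw [h]; ring

theorem S8_11 (α : ℝ) : S8 α 1 1 = 0 := by
  obtain ⟨r, hr, h⟩ := S8_expand α 1 1
  rw [h]; ring

theorem S8_20 (α : ℝ) : S8 α 2 0 = 4 := by
  obtain ⟨r, hr, h⟩ := S8_expand α 2 0
  have hcs := sin_sq_add_cos_sq α
  rw [h]; linear_combination (2 + 4 * r ^ 2) * hcs + 4 * hr

theorem S8_02 (α : ℝ) : S8 α 0 2 = 4 := by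
  obtain ⟨r, hr, h⟩ := S8_expand α 0 2
  have hcs := sin_sq_add_cos_sq α
  rw [h]; linear_combination (2 + 4 * r ^ 2) * hcs + 4 * hr

theorem S8_40 (α : ℝ) : S8 α 4 0 = 3 := by
  obtain ⟨r, hr, h⟩ := S8_expand α 4 0
  have hcs := sin_sq_add_cos_sq α
  rw [h]
  linear_combination (4 * (cos α ^ 4 + 6 * cos α ^ 2 * sin α ^ 2 + sin α ^ 4) * (r ^ 2 + 1 / 2)) * hr
    + 3 * (cos α ^ 2 + sin α ^ 2 + 1) * hcs

theorem S8_04 (α : ℝ) : S8 α 0 4 = 3 := by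
  obtain ⟨r, hr, h⟩ := S8_expand α 0 4
  have hcs := sin_sq_add_cos_sq α
  rw [h]
  linear_combination (4 * (cos α ^ 4 + 6 * cos α ^ 2 * sin α ^ 2 + sin α ^ 4) * (r ^ 2 + 1 / 2)) * hr
    + 3 * (cos α ^ 2 + sin α ^ 2 + 1) * hcs

theorem S8_22 (α : ℝ) : S8 α 2 2 = 1 := by
  obtain ⟨r, hr, h⟩ := S8_expand α 2 2
  have hcs := sin_sq_add_cos_sq α
  rw [h]
  linear_combination (4 * (cos α ^ 2 - sin α ^ 2) ^ 2 * (r ^ 2 + 1 / 2)) * hr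
    + (cos α ^ 2 + sin α ^ 2 + 1) * hcs

theorem S8_31 (α : ℝ) : S8 α 3 1 = 0 := by
  obtain ⟨r, hr, h⟩ := S8_expand α 3 1
  rw [h]
  linear_combination (-8 * cos α * sin α * (cos α ^ 2 - sin α ^ 2) * (r ^ 2 + 1 / 2)) * hr

theorem S8_13 (α : ℝ) : S8 α 1 3 = 0 := by
  obtain ⟨r, hr, h⟩ := S8_expand α 1 3
  rw [h]
  linear_combination (8 * cos α * sin α * (cos α ^ 2 - sin α ^ 2) * (r ^ 2 + 1 / 2)) * hr

/-- The index set of the phases. -/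
abbrev Ph := Fin 8 × Fin 8 × Fin 8

/-- The shifted phases. -/
def shift (q : ℝ × ℝ × ℝ) (m : Ph) : ℝ × ℝ × ℝ :=
  (q.1 + (m.1 : ℕ) * (π / 4), q.2.1 + (m.2.1 : ℕ) * (π / 4), q.2.2 + (m.2.2 : ℕ) * (π / 4))

theorem sum_ph (κ α β γ : ℝ) (i₁ j₁ i₂ j₂ i₃ j₃ : ℕ) :
    ∑ m : Ph, κ * (cs α i₁ j₁ m.1 * cs β i₂ j₂ m.2.1 * cs γ i₃ j₃ m.2.2)
      = κ * (S8 α i₁ j₁ * S8 β i₂ j₂ * S8 γ i₃ j₃) := by
  simp only [S8]
  rw [← Finset.mul_sum, Fintype.sum_prod_type, mul_assoc (∑ m, cs α i₁ j₁ m),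
    Finset.sum_mul_sum, Finset.sum_mul]
  congr 1
  refine Finset.sum_congr rfl fun a _ => ?_
  rw [Fintype.sum_prod_type, Finset.mul_sum]
  refine Finset.sum_congr rfl fun b _ => ?_
  rw [Finset.mul_sum]
  exact Finset.sum_congr rfl fun c _ => by ring

section poly

variable (ca sa cb sb cg sg : ℝ)

def g0P : ℝ := ca * cg - sa * cb
def g1P : ℝ := -(ca * sb)
def g2P : ℝ := -(sa * sg)
def A00P : ℝ := -(ca * cb + sa * cg)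
def A01P : ℝ := sa * sb
def A02P : ℝ := -(ca * sg)
def A11P : ℝ := -(ca * cb)
def A22P : ℝ := -(sa * cg)
end poly

/-- `σ₂`, `|∇w|²` and `τ` as polynomials. -/
def s2P (ca sa cb sb cg sg : ℝ) : ℝ :=
  A00P ca sa cb cg * A11P ca cb + A00P ca sa cb cg * A22P sa cg + A11P ca cb * A22P sa cg
    - A01P sa sb ^ 2 - A02P ca sg ^ 2

def pP (ca sa cb sb cg sg : ℝ) : ℝ := g0P ca sa cb cg ^ 2 + g1P ca sb ^ 2 + g2P sa sg ^ 2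

def u0P (ca sa cb sb cg sg : ℝ) : ℝ :=
  A00P ca sa cb cg * g0P ca sa cb cg + A01P sa sb * g1P ca sb + A02P ca sg * g2P sa sg
def u1P (ca sa cb sb cg sg : ℝ) : ℝ := A01P sa sb * g0P ca sa cb cg + A11P ca cb * g1P ca sb
def u2P (ca sa cb sb cg sg : ℝ) : ℝ := A02P ca sg * g0P ca sa cb cg + A22P sa cg * g2P sa sg

def tauP (ca sa cb sb cg sg : ℝ) : ℝ :=
  (A00P ca sa cb cg + A11P ca cb + A22P sa cg) *
    (g0P ca sa cb cg * u0P ca sa cb sb cg sg + g1P ca sb * u1P ca sa cb sb cg sg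
      + g2P sa sg * u2P ca sa cb sb cg sg)
  - (u0P ca sa cb sb cg sg ^ 2 + u1P ca sa cb sb cg sg ^ 2 + u2P ca sa cb sb cg sg ^ 2)

/-- The functions on the space of phases. -/
def s2q (q : ℝ × ℝ × ℝ) : ℝ :=
  s2P (cos q.1) (sin q.1) (cos q.2.1) (sin q.2.1) (cos q.2.2) (sin q.2.2)
def pq (q : ℝ × ℝ × ℝ) : ℝ :=
  pP (cos q.1) (sin q.1) (cos q.2.1) (sin q.2.1) (cos q.2.2) (sin q.2.2)
def tauq (q : ℝ × ℝ × ℝ) : ℝ :=
  tauP (cos q.1) (sin q.1) (cos q.2.1) (sin q.2.1) (cos q.2.2) (sin q.2.2)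

theorem sum_s2 (q : ℝ × ℝ × ℝ) : ∑ m : Ph, s2q (shift q m) = 0 := by
  have h : ∀ m : Ph, s2q (shift q m) =
      (1 : ℝ) * (cs q.1 0 2 m.1 * cs q.2.1 0 0 m.2.1 * cs q.2.2 2 0 m.2.2)
      + (-1 : ℝ) * (cs q.1 0 2 m.1 * cs q.2.1 0 2 m.2.1 * cs q.2.2 0 0 m.2.2)
      + (3 : ℝ) * (cs q.1 1 1 m.1 * cs q.2.1 1 0 m.2.1 * cs q.2.2 1 0 m.2.2)
      + (-1 : ℝ) * (cs q.1 2 0 m.1 * cs q.2.1 0 0 m.2.1 * cs q.2.2 0 2 m.2.2)
      + (1 : ℝ) * (cs q.1 2 0 m.1 * cs q.2.1 2 0 m.2.1 * cs q.2.2 0 0 m.2.2) := by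
    intro m
    simp only [s2q, shift, s2P, A00P, A11P, A22P, A01P, A02P, cs]
    ring
  simp_rw [h, Finset.sum_add_distrib, sum_ph]
  simp only [S8_00, S8_10, S8_11, S8_20, S8_02]
  norm_num

theorem sum_J (q : ℝ × ℝ × ℝ) :
    ∑ m : Ph, (s2q (shift q m) * pq (shift q m) / 2 + tauq (shift q m)) = 48 := by
  have h : ∀ m : Ph, s2q (shift q m) * pq (shift q m) / 2 + tauq (shift q m) =
      (3/2 : ℝ) * (cs q.1 0 4 m.1 * cs q.2.1 0 0 m.2.1 * cs q.2.2 2 2 m.2.2)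
      + (-1/2 : ℝ) * (cs q.1 0 4 m.1 * cs q.2.1 0 2 m.2.1 * cs q.2.2 0 2 m.2.2)
      + (3/2 : ℝ) * (cs q.1 0 4 m.1 * cs q.2.1 2 0 m.2.1 * cs q.2.2 2 0 m.2.2)
      + (-3/2 : ℝ) * (cs q.1 0 4 m.1 * cs q.2.1 2 2 m.2.1 * cs q.2.2 0 0 m.2.2)
      + (7/2 : ℝ) * (cs q.1 1 3 m.1 * cs q.2.1 1 0 m.2.1 * cs q.2.2 1 2 m.2.2)
      + (-3 : ℝ) * (cs q.1 1 3 m.1 * cs q.2.1 1 0 m.2.1 * cs q.2.2 3 0 m.2.2)
      + (1 : ℝ) * (cs q.1 1 3 m.1 * cs q.2.1 1 2 m.2.1 * cs q.2.2 1 0 m.2.2)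
      + (7/2 : ℝ) * (cs q.1 1 3 m.1 * cs q.2.1 3 0 m.2.1 * cs q.2.2 1 0 m.2.2)
      + (-3/2 : ℝ) * (cs q.1 2 2 m.1 * cs q.2.1 0 0 m.2.1 * cs q.2.2 0 4 m.2.2)
      + (3/2 : ℝ) * (cs q.1 2 2 m.1 * cs q.2.1 0 0 m.2.1 * cs q.2.2 4 0 m.2.2)
      + (2 : ℝ) * (cs q.1 2 2 m.1 * cs q.2.1 0 2 m.2.1 * cs q.2.2 0 2 m.2.2)
      + (1 : ℝ) * (cs q.1 2 2 m.1 * cs q.2.1 0 2 m.2.1 * cs q.2.2 2 0 m.2.2)
      + (-3/2 : ℝ) * (cs q.1 2 2 m.1 * cs q.2.1 0 4 m.2.1 * cs q.2.2 0 0 m.2.2)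
      + (1 : ℝ) * (cs q.1 2 2 m.1 * cs q.2.1 2 0 m.2.1 * cs q.2.2 0 2 m.2.2)
      + (-7 : ℝ) * (cs q.1 2 2 m.1 * cs q.2.1 2 0 m.2.1 * cs q.2.2 2 0 m.2.2)
      + (3/2 : ℝ) * (cs q.1 2 2 m.1 * cs q.2.1 4 0 m.2.1 * cs q.2.2 0 0 m.2.2)
      + (1 : ℝ) * (cs q.1 3 1 m.1 * cs q.2.1 1 0 m.2.1 * cs q.2.2 1 2 m.2.2)
      + (7/2 : ℝ) * (cs q.1 3 1 m.1 * cs q.2.1 1 0 m.2.1 * cs q.2.2 3 0 m.2.2)
      + (7/2 : ℝ) * (cs q.1 3 1 m.1 * cs q.2.1 1 2 m.2.1 * cs q.2.2 1 0 m.2.2)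
      + (-3 : ℝ) * (cs q.1 3 1 m.1 * cs q.2.1 3 0 m.2.1 * cs q.2.2 1 0 m.2.2)
      + (-3/2 : ℝ) * (cs q.1 4 0 m.1 * cs q.2.1 0 0 m.2.1 * cs q.2.2 2 2 m.2.2)
      + (-1/2 : ℝ) * (cs q.1 4 0 m.1 * cs q.2.1 0 2 m.2.1 * cs q.2.2 0 2 m.2.2)
      + (3/2 : ℝ) * (cs q.1 4 0 m.1 * cs q.2.1 2 0 m.2.1 * cs q.2.2 2 0 m.2.2)
      + (3/2 : ℝ) * (cs q.1 4 0 m.1 * cs q.2.1 2 2 m.2.1 * cs q.2.2 0 0 m.2.2) := by
    intro m
    simp only [s2q, pq, tauq, shift, s2P, pP, tauP, u0P, u1P, u2P, g0P, g1P, g2P, A00P, A11P,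
      A22P, A01P, A02P, cs]
    ring
  simp_rw [h, Finset.sum_add_distrib, sum_ph]
  simp only [S8_00, S8_10, S8_20, S8_02, S8_40, S8_04, S8_22, S8_31, S8_13, S8_30, S8_12]
  norm_num

end

end Pool.Agent.H791.GBC
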