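import Pool.Agent.H791.GBC.Bound

namespace Pool.Agent.H791.GBC

open MeasureTheory Filter Topology Real

noncomputable section

variable {l : ℕ}

theorem Gp_congr (χ : V (l + 3) → ℝ) (t : ℝ) (y : V (l + 3)) {q q' : ℝ × ℝ × ℝ}
    (h : (wv q : V (l + 3) → ℝ) = wv q') : Gp χ (t, y, q) = Gp χ (t, y, q') := by
  have : Hp χ (t, y, q) = Hp χ (t, y, q') := by
    funext z
    ext i j
    simp only [Hp, Kp, Rp, Vp, Matrix.of_apply, h]
  rw [Gp, Gp, this]

theorem reduce_angle (α : ℝ) : ∃ α' ∈ Set.Icc 0 (2 * π),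
    ∀ x, cos (x + α') = cos (x + α) ∧ sin (x + α') = sin (x + α) := by
  have hp : 0 < 2 * π := by positivity
  refine ⟨α - ⌊α / (2 * π)⌋ * (2 * π), ⟨?_, ?_⟩, fun x => ?_⟩
  · have := Int.floor_le (α / (2 * π))
    rw [le_div_iff₀ hp] at this
    linarith
  · have := (Int.lt_floor_add_one (α / (2 * π))).le
    rw [div_le_iff₀ hp] at this
    linarith
  · have : x + (α - ⌊α / (2 * π)⌋ * (2 * π)) = (x + α) - ⌊α / (2 * π)⌋ * (2 * π) := by ring
    rw [this, cos_sub_int_mul_two_pi, sin_sub_int_mul_two_pi]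
    exact ⟨rfl, rfl⟩

theorem reduce_phase (q : ℝ × ℝ × ℝ) : ∃ q' ∈ Set.Icc 0 (2 * π) ×ˢ
    (Set.Icc 0 (2 * π) ×ˢ Set.Icc 0 (2 * π)), (wv q' : V (l + 3) → ℝ) = wv q := by
  obtain ⟨α, hα, h1⟩ := reduce_angle q.1
  obtain ⟨β, hβ, h2⟩ := reduce_angle q.2.1
  obtain ⟨γ, hγ, h3⟩ := reduce_angle q.2.2
  refine ⟨(α, β, γ), ⟨hα, hβ, hγ⟩, ?_⟩
  funext z
  simp only [wv]
  rw [(h1 _).1, (h1 _).2, (h2 _).1, (h3 _).1]

/-- The unit ball. -/
def B (k : ℕ) : Set (V k) := {y | ∑ i, y i ^ 2 ≤ 1}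

theorem mem_B {k : ℕ} {y : V k} : y ∈ B k ↔ sq y ≤ 1 := Iff.rfl

theorem isCompact_B (k : ℕ) : IsCompact (B k) := by
  have hc : IsClosed (B k) := by
    have h : Continuous fun y : V k => ∑ i, y i ^ 2 := by fun_prop
    exact isClosed_le h continuous_const
  refine IsCompact.of_isClosed_subset (isCompact_univ_pi (s := fun _ : Fin k => Set.Icc (-1 : ℝ) 1)
    fun _ => isCompact_Icc) hc ?_
  intro y hy i _
  have h1 : y i ^ 2 ≤ 1 := le_trans (Finset.single_le_sum (f := fun i => y i ^ 2)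
    (fun i _ => sq_nonneg (y i)) (Finset.mem_univ i)) hy
  exact ⟨by nlinarith, by nlinarith⟩

variable {χ : V (l + 3) → ℝ}

theorem Gp_unif (hχ : ContDiff ℝ (⊤ : ℕ∞) χ) (h0 : ∀ y, 0 ≤ χ y) (h1 : ∀ y, χ y ≤ 1)
    {ε : ℝ} (hε : 0 < ε) : ∃ δ > 0, ∀ t : ℝ, |t| < δ → ∀ y ∈ B (l + 3), ∀ q : ℝ × ℝ × ℝ,
      |Gp χ (t, y, q) - Gp χ (0, y, q)| < ε := by
  set K : Set (Par l) := {(0 : ℝ)} ×ˢ (B (l + 3) ×ˢ (Set.Icc 0 (2 * π) ×ˢ
    (Set.Icc 0 (2 * π) ×ˢ Set.Icc 0 (2 * π)))) with hK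
  have hKc : IsCompact K := isCompact_singleton.prod ((isCompact_B _).prod
    (isCompact_Icc.prod (isCompact_Icc.prod isCompact_Icc)))
  have h := hKc.uniformContinuousAt_of_continuousAt (Gp χ)
    (fun p hp => Gp_continuousAt hχ h0 h1 (by
      have : p.1 = 0 := hp.1
      rw [this]; simp)) (Metric.dist_mem_uniformity hε)
  obtain ⟨δ, hδ, h2⟩ := Metric.mem_uniformity_dist.1 h
  refine ⟨δ, hδ, fun t ht y hy q => ?_⟩
  obtain ⟨q', hq', hw⟩ := reduce_phase (l := l) q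
  rw [← Gp_congr χ t y hw, ← Gp_congr χ 0 y hw]
  have hd : dist ((0, y, q') : Par l) (t, y, q') < δ := by
    rw [Prod.dist_eq]
    simp only [dist_self]
    rw [Real.dist_eq, zero_sub, abs_neg]
    exact max_lt ht hδ
  have h3 := h2 hd
  simp only [Set.mem_ofPred_eq] at h3
  have h4 := h3 ⟨rfl, hy, hq'⟩
  rwa [dist_comm, Real.dist_eq] at h4

/-- The phase `N y`. -/
def arg (N : ℝ) (y : V (l + 3)) : ℝ × ℝ × ℝ := (N * y 0, N * y 1, N * y 2)

theorem Gp_cont_y (hχ : ContDiff ℝ (⊤ : ℕ∞) χ) (h0 : ∀ y, 0 ≤ χ y) (h1 : ∀ y, χ y ≤ 1)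
    {t : ℝ} (ht : |t| ≤ 1) (N : ℝ) (m : Ph) :
    Continuous fun y : V (l + 3) => Gp χ (t, y, shift (arg N y) m) := by
  rw [continuous_iff_continuousAt]
  intro y
  refine ContinuousAt.comp (f := fun y : V (l + 3) => ((t, y, shift (arg N y) m) : Par l))
    (g := Gp χ) (Gp_continuousAt hχ h0 h1 ht) ?_
  apply Continuous.continuousAt
  unfold shift arg
  fun_prop

theorem volume_B_lt (k : ℕ) : volume (B k) < ⊤ := (isCompact_B k).measure_lt_top

/-- Selection of a phase for which the total density over the ball is negative. -/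
theorem exists_phase (hχ : ContDiff ℝ (⊤ : ℕ∞) χ) (h0 : ∀ y, 0 ≤ χ y) (h1 : ∀ y, χ y ≤ 1)
    (hpos : 0 < ∫ y in B (l + 3), χ y ^ 4) :
    ∃ κ > 0, ∃ δ > 0, ∀ t : ℝ, |t| < δ → ∀ N : ℝ, ∃ m : Ph,
      ∫ y in B (l + 3), Gp χ (t, y, shift (arg N y) m) ≤ -κ := by
  set J := ∫ y in B (l + 3), χ y ^ 4 with hJ
  have hamp : 0 < amp := by norm_num [amp]
  set v := (volume : Measure (V (l + 3))).real (B (l + 3)) with hv
  have hv0 : 0 ≤ v := measureReal_nonneg
  set ε := 5 * amp ^ 4 * J / (512 * (v + 1)) with hε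
  have hε0 : 0 < ε := by positivity
  obtain ⟨δ, hδ, hU⟩ := Gp_unif hχ h0 h1 hε0
  refine ⟨5 * amp ^ 4 * J / 512, by positivity, min δ 1, lt_min hδ one_pos, fun t ht N => ?_⟩
  have htδ : |t| < δ := ht.trans_le (min_le_left _ _)
  have ht1 : |t| ≤ 1 := (ht.trans_le (min_le_right _ _)).le
  have hmeas : MeasurableSet (B (l + 3)) := (isCompact_B _).isClosed.measurableSet
  have hint : ∀ m : Ph, IntegrableOn (fun y => Gp χ (t, y, shift (arg N y) m)) (B (l + 3)) :=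
    fun m => (Gp_cont_y hχ h0 h1 ht1 N m).continuousOn.integrableOn_compact (isCompact_B _)
  have hχ4 : IntegrableOn (fun y => -10 * amp ^ 4 * χ y ^ 4) (B (l + 3)) := by
    have : Continuous fun y => -10 * amp ^ 4 * χ y ^ 4 := by
      have := hχ.continuous
      fun_prop
    exact this.continuousOn.integrableOn_compact (isCompact_B _)
  have hcst : IntegrableOn (fun _ : V (l + 3) => 512 * ε) (B (l + 3)) :=
    integrableOn_const (volume_B_lt _).ne
  have hpt : ∀ y ∈ B (l + 3), ∑ m : Ph, Gp χ (t, y, shift (arg N y) m)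
      ≤ -10 * amp ^ 4 * χ y ^ 4 + 512 * ε := by
    intro y hy
    have e1 : ∀ m : Ph, Gp χ (t, y, shift (arg N y) m) ≤ Gp χ (0, y, shift (arg N y) m) + ε := by
      intro m
      have := (abs_lt.1 (hU t htδ y hy (shift (arg N y) m))).2
      linarith
    have e2 := Finset.sum_le_sum fun m (_ : m ∈ (Finset.univ : Finset Ph)) => e1 m
    rw [Finset.sum_add_distrib] at e2
    have e3 : ∑ _m : Ph, ε = 512 * ε := by
      rw [Finset.sum_const, Finset.card_univ, Fintype.card_prod, Fintype.card_prod,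
        Fintype.card_fin]
      norm_num
    have e4 := sum_Gp_zero_le h0 h1 hy (arg N y)
    rw [e3] at e2
    have e5 : -10 * (amp * χ y) ^ 4 = -10 * amp ^ 4 * χ y ^ 4 := by ring
    linarith
  have hsum : ∑ m : Ph, ∫ y in B (l + 3), Gp χ (t, y, shift (arg N y) m)
      ≤ ∑ _m : Ph, (-(5 * amp ^ 4 * J / 512)) := by
    rw [← integral_finsetSum _ fun m _ => hint m]
    have e1 : ∫ y in B (l + 3), ∑ m : Ph, Gp χ (t, y, shift (arg N y) m)
        ≤ ∫ y in B (l + 3), (-10 * amp ^ 4 * χ y ^ 4 + 512 * ε) :=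
      setIntegral_mono_on (integrable_finsetSum _ fun m _ => hint m) (hχ4.add hcst) hmeas hpt
    have e2 : ∫ y in B (l + 3), (-10 * amp ^ 4 * χ y ^ 4 + 512 * ε)
        = -10 * amp ^ 4 * J + v * (512 * ε) := by
      rw [integral_add hχ4 hcst, integral_const_mul, setIntegral_const, smul_eq_mul]
    have e3 : ∑ _m : Ph, (-(5 * amp ^ 4 * J / 512)) = -(5 * amp ^ 4 * J) := by
      rw [Finset.sum_const, Finset.card_univ, Fintype.card_prod, Fintype.card_prod,
        Fintype.card_fin]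
      norm_num
      ring
    have e4 : v * (512 * ε) ≤ 5 * amp ^ 4 * J := by
      rw [hε]
      have : v * (512 * (5 * amp ^ 4 * J / (512 * (v + 1)))) = (v / (v + 1)) * (5 * amp ^ 4 * J) := by
        field_simp
      rw [this]
      have h3 : v / (v + 1) ≤ 1 := by
        rw [div_le_one (by positivity)]; linarith
      have h4 : 0 ≤ 5 * amp ^ 4 * J := by positivity
      nlinarith
    rw [e3]
    linarith
  obtain ⟨m, _, hm⟩ := Finset.exists_le_of_sum_le (Finset.univ_nonempty (α := Ph)) hsum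
  exact ⟨m, hm⟩

end

end Pool.Agent.H791.GBC
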