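import Pool.Agent.H791.GBC.Trig

namespace Pool.Agent.H791.GBC

open Filter Topology Real

noncomputable section

variable {l : ℕ}

/-! ### Sums over the indices -/

theorem f01 : (0 : Fin (l + 3)) ≠ 1 := by
  intro h; have := congrArg Fin.val h; simp at this

theorem f02 : (0 : Fin (l + 3)) ≠ 2 := by
  intro h; have := congrArg Fin.val h; rw [Fin.val_two] at this; simp at this

theorem f12 : (1 : Fin (l + 3)) ≠ 2 := by
  intro h; have := congrArg Fin.val h; rw [Fin.val_two] at this; simp at this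

theorem fs0 (a : Fin l) : a.succ.succ.succ ≠ (0 : Fin (l + 3)) := Fin.succ_ne_zero _

theorem fs1 (a : Fin l) : a.succ.succ.succ ≠ (1 : Fin (l + 3)) := by
  intro h; have := congrArg Fin.val h; simp at this

theorem fs2 (a : Fin l) : a.succ.succ.succ ≠ (2 : Fin (l + 3)) := by
  intro h; have := congrArg Fin.val h; rw [Fin.val_two] at this; simp at this

theorem sum_three (F : Fin (l + 3) → ℝ) (h : ∀ a : Fin l, F a.succ.succ.succ = 0) :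
    ∑ a, F a = F 0 + F 1 + F 2 := by
  rw [Fin.sum_univ_succ, Fin.sum_univ_succ, Fin.sum_univ_succ, Finset.sum_eq_zero fun a _ => h a]
  have h1 : (Fin.succ 0 : Fin (l + 3)) = 1 := rfl
  have h2 : (Fin.succ (Fin.succ 0) : Fin (l + 3)) = 2 := rfl
  rw [h1, h2]; ring

/-! ### Derivatives of the wave -/

theorem pd_cos (a i : Fin (l + 3)) (α : ℝ) (z : V (l + 3)) :
    pd a (fun z : V (l + 3) => cos (z i + α)) z = -sin (z i + α) * (if a = i then 1 else 0) := by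
  have h1 : HasDerivAt (fun t : ℝ => cos (t + α)) (-sin (z i + α) * 1) (z i) :=
    ((hasDerivAt_id' (z i)).add_const α).cos
  have h2 : DifferentiableAt ℝ (fun z : V (l + 3) => z i) z := by fun_prop
  have h3 := pd_comp_real (f := fun z : V (l + 3) => z i) h1 h2 a
  rw [h3, pd_coord, mul_one]

theorem pd_sin (a i : Fin (l + 3)) (α : ℝ) (z : V (l + 3)) :
    pd a (fun z : V (l + 3) => sin (z i + α)) z = cos (z i + α) * (if a = i then 1 else 0) := by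
  have h1 : HasDerivAt (fun t : ℝ => sin (t + α)) (cos (z i + α) * 1) (z i) :=
    ((hasDerivAt_id' (z i)).add_const α).sin
  have h2 : DifferentiableAt ℝ (fun z : V (l + 3) => z i) z := by fun_prop
  have h3 := pd_comp_real (f := fun z : V (l + 3) => z i) h1 h2 a
  rw [h3, pd_coord, mul_one]

theorem dc (i : Fin (l + 3)) (α : ℝ) (z : V (l + 3)) :
    DifferentiableAt ℝ (fun z : V (l + 3) => cos (z i + α)) z := by fun_prop

theorem ds (i : Fin (l + 3)) (α : ℝ) (z : V (l + 3)) :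
    DifferentiableAt ℝ (fun z : V (l + 3) => sin (z i + α)) z := by fun_prop

theorem pd_wv (q : ℝ × ℝ × ℝ) (a : Fin (l + 3)) (z : V (l + 3)) :
    pd a (wv q) z =
      (-sin (z 0 + q.1) * (if a = 0 then 1 else 0)) * cos (z 1 + q.2.1)
      + cos (z 0 + q.1) * (-sin (z 1 + q.2.1) * (if a = 1 then 1 else 0))
      + ((cos (z 0 + q.1) * (if a = 0 then 1 else 0)) * cos (z 2 + q.2.2)
      + sin (z 0 + q.1) * (-sin (z 2 + q.2.2) * (if a = 2 then 1 else 0))) := by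
  have h : (wv q : V (l + 3) → ℝ) = fun z => cos (z 0 + q.1) * cos (z 1 + q.2.1)
    + sin (z 0 + q.1) * cos (z 2 + q.2.2) := rfl
  rw [h, pd_add ((dc 0 _ z).fun_mul (dc 1 _ z)) ((ds 0 _ z).fun_mul (dc 2 _ z)),
    pd_mul (dc 0 _ z) (dc 1 _ z), pd_mul (ds 0 _ z) (dc 2 _ z), pd_cos, pd_cos, pd_sin, pd_cos]

theorem pd_wv0 (q : ℝ × ℝ × ℝ) : pd 0 (wv q : V (l + 3) → ℝ) =
    fun z => cos (z 0 + q.1) * cos (z 2 + q.2.2) - sin (z 0 + q.1) * cos (z 1 + q.2.1) := by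
  funext z
  rw [pd_wv, if_pos rfl, if_neg f01, if_neg f02]
  ring

theorem pd_wv1 (q : ℝ × ℝ × ℝ) : pd 1 (wv q : V (l + 3) → ℝ) =
    fun z => (-1) * (cos (z 0 + q.1) * sin (z 1 + q.2.1)) := by
  funext z
  rw [pd_wv, if_pos rfl, if_neg f01.symm, if_neg f12]
  ring

theorem pd_wv2 (q : ℝ × ℝ × ℝ) : pd 2 (wv q : V (l + 3) → ℝ) =
    fun z => (-1) * (sin (z 0 + q.1) * sin (z 2 + q.2.2)) := by
  funext z
  rw [pd_wv, if_pos rfl, if_neg f02.symm, if_neg f12.symm]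
  ring

theorem pd_wv3 (q : ℝ × ℝ × ℝ) (a : Fin l) : pd a.succ.succ.succ (wv q : V (l + 3) → ℝ) =
    fun _ => 0 := by
  funext z
  rw [pd_wv, if_neg (fs0 a), if_neg (fs1 a), if_neg (fs2 a)]
  ring

/-- The gradient of the wave at the origin. -/
theorem g0_eq (q : ℝ × ℝ × ℝ) : pd 0 (wv q : V (l + 3) → ℝ) 0
    = g0P (cos q.1) (sin q.1) (cos q.2.1) (cos q.2.2) := by
  rw [pd_wv0]; simp [g0P]

theorem g1_eq (q : ℝ × ℝ × ℝ) : pd 1 (wv q : V (l + 3) → ℝ) 0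
    = g1P (cos q.1) (sin q.2.1) := by
  rw [pd_wv1]; simp [g1P]

theorem g2_eq (q : ℝ × ℝ × ℝ) : pd 2 (wv q : V (l + 3) → ℝ) 0
    = g2P (sin q.1) (sin q.2.2) := by
  rw [pd_wv2]; simp [g2P]

theorem pd_pd_wv0 (q : ℝ × ℝ × ℝ) (a : Fin (l + 3)) : pd a (pd 0 (wv q : V (l + 3) → ℝ)) 0 =
    (-sin q.1 * (if a = 0 then 1 else 0)) * cos q.2.2
      + cos q.1 * (-sin q.2.2 * (if a = 2 then 1 else 0))
      - ((cos q.1 * (if a = 0 then 1 else 0)) * cos q.2.1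
      + sin q.1 * (-sin q.2.1 * (if a = 1 then 1 else 0))) := by
  rw [pd_wv0, pd_sub ((dc 0 _ _).fun_mul (dc 2 _ _)) ((ds 0 _ _).fun_mul (dc 1 _ _)),
    pd_mul (dc 0 _ _) (dc 2 _ _), pd_mul (ds 0 _ _) (dc 1 _ _), pd_cos, pd_cos, pd_sin, pd_cos]
  simp

theorem pd_pd_wv1 (q : ℝ × ℝ × ℝ) (a : Fin (l + 3)) : pd a (pd 1 (wv q : V (l + 3) → ℝ)) 0 =
    (-1) * ((-sin q.1 * (if a = 0 then 1 else 0)) * sin q.2.1
      + cos q.1 * (cos q.2.1 * (if a = 1 then 1 else 0))) := by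
  rw [pd_wv1, pd_const_mul _ ((dc 0 _ _).fun_mul (ds 1 _ _)),
    pd_mul (dc 0 _ _) (ds 1 _ _), pd_cos, pd_sin]
  simp

theorem pd_pd_wv2 (q : ℝ × ℝ × ℝ) (a : Fin (l + 3)) : pd a (pd 2 (wv q : V (l + 3) → ℝ)) 0 =
    (-1) * ((cos q.1 * (if a = 0 then 1 else 0)) * sin q.2.2
      + sin q.1 * (cos q.2.2 * (if a = 2 then 1 else 0))) := by
  rw [pd_wv2, pd_const_mul _ ((ds 0 _ _).fun_mul (ds 2 _ _)),
    pd_mul (ds 0 _ _) (ds 2 _ _), pd_sin, pd_sin]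
  simp

theorem pd_pd_wv3 (q : ℝ × ℝ × ℝ) (a : Fin (l + 3)) (b : Fin l) :
    pd a (pd b.succ.succ.succ (wv q : V (l + 3) → ℝ)) 0 = 0 := by
  rw [pd_wv3, pd_const]

theorem A00_eq (q : ℝ × ℝ × ℝ) : pd 0 (pd 0 (wv q : V (l + 3) → ℝ)) 0
    = A00P (cos q.1) (sin q.1) (cos q.2.1) (cos q.2.2) := by
  rw [pd_pd_wv0, if_pos rfl, if_neg f01, if_neg f02, A00P]; ring

theorem A10_eq (q : ℝ × ℝ × ℝ) : pd 1 (pd 0 (wv q : V (l + 3) → ℝ)) 0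
    = A01P (sin q.1) (sin q.2.1) := by
  rw [pd_pd_wv0, if_pos rfl, if_neg f01.symm, if_neg f12, A01P]; ring

theorem A20_eq (q : ℝ × ℝ × ℝ) : pd 2 (pd 0 (wv q : V (l + 3) → ℝ)) 0
    = A02P (cos q.1) (sin q.2.2) := by
  rw [pd_pd_wv0, if_pos rfl, if_neg f02.symm, if_neg f12.symm, A02P]; ring

theorem A30_eq (q : ℝ × ℝ × ℝ) (a : Fin l) :
    pd a.succ.succ.succ (pd 0 (wv q : V (l + 3) → ℝ)) 0 = 0 := by
  rw [pd_pd_wv0, if_neg (fs0 a), if_neg (fs1 a), if_neg (fs2 a)]; ring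

theorem A01_eq (q : ℝ × ℝ × ℝ) : pd 0 (pd 1 (wv q : V (l + 3) → ℝ)) 0
    = A01P (sin q.1) (sin q.2.1) := by
  rw [pd_pd_wv1, if_pos rfl, if_neg f01, A01P]; ring

theorem A11_eq (q : ℝ × ℝ × ℝ) : pd 1 (pd 1 (wv q : V (l + 3) → ℝ)) 0
    = A11P (cos q.1) (cos q.2.1) := by
  rw [pd_pd_wv1, if_pos rfl, if_neg f01.symm, A11P]; ring

theorem A21_eq (q : ℝ × ℝ × ℝ) : pd 2 (pd 1 (wv q : V (l + 3) → ℝ)) 0 = 0 := by
  rw [pd_pd_wv1, if_neg f12.symm, if_neg f02.symm]; ring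

theorem A31_eq (q : ℝ × ℝ × ℝ) (a : Fin l) :
    pd a.succ.succ.succ (pd 1 (wv q : V (l + 3) → ℝ)) 0 = 0 := by
  rw [pd_pd_wv1, if_neg (fs0 a), if_neg (fs1 a)]; ring

theorem A02_eq (q : ℝ × ℝ × ℝ) : pd 0 (pd 2 (wv q : V (l + 3) → ℝ)) 0
    = A02P (cos q.1) (sin q.2.2) := by
  rw [pd_pd_wv2, if_pos rfl, if_neg f02, A02P]; ring

theorem A12_eq (q : ℝ × ℝ × ℝ) : pd 1 (pd 2 (wv q : V (l + 3) → ℝ)) 0 = 0 := by
  rw [pd_pd_wv2, if_neg f12, if_neg f01.symm]; ring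

theorem A22_eq (q : ℝ × ℝ × ℝ) : pd 2 (pd 2 (wv q : V (l + 3) → ℝ)) 0
    = A22P (sin q.1) (cos q.2.2) := by
  rw [pd_pd_wv2, if_pos rfl, if_neg f02.symm, A22P]; ring

theorem A32_eq (q : ℝ × ℝ × ℝ) (a : Fin l) :
    pd a.succ.succ.succ (pd 2 (wv q : V (l + 3) → ℝ)) 0 = 0 := by
  rw [pd_pd_wv2, if_neg (fs0 a), if_neg (fs2 a)]; ring

theorem g3_eq (q : ℝ × ℝ × ℝ) (a : Fin l) :
    pd a.succ.succ.succ (wv q : V (l + 3) → ℝ) 0 = 0 := by rw [pd_wv3]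

theorem gradSq_wv (q : ℝ × ℝ × ℝ) : gradSq (wv q : V (l + 3) → ℝ) 0 = pq q := by
  rw [gradSq, sum_three _ fun a => by rw [g3_eq]; ring, g0_eq, g1_eq, g2_eq]
  rfl

theorem lap_wv (q : ℝ × ℝ × ℝ) : lap (wv q : V (l + 3) → ℝ) 0
    = A00P (cos q.1) (sin q.1) (cos q.2.1) (cos q.2.2) + A11P (cos q.1) (cos q.2.1)
      + A22P (sin q.1) (cos q.2.2) := by
  rw [lap, sum_three _ fun a => by rw [pd_pd_wv3], A00_eq, A11_eq, A22_eq]

theorem sig2_wv (q : ℝ × ℝ × ℝ) : sig2 (wv q : V (l + 3) → ℝ) 0 = s2q q := by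
  have h : ∑ a, ∑ b, pd a (pd b (wv q : V (l + 3) → ℝ)) 0 ^ 2
      = (A00P (cos q.1) (sin q.1) (cos q.2.1) (cos q.2.2) ^ 2 + A01P (sin q.1) (sin q.2.1) ^ 2
        + A02P (cos q.1) (sin q.2.2) ^ 2)
      + (A01P (sin q.1) (sin q.2.1) ^ 2 + A11P (cos q.1) (cos q.2.1) ^ 2 + 0 ^ 2)
      + (A02P (cos q.1) (sin q.2.2) ^ 2 + 0 ^ 2 + A22P (sin q.1) (cos q.2.2) ^ 2) := by
    have h1 : ∀ a, ∑ b, pd a (pd b (wv q : V (l + 3) → ℝ)) 0 ^ 2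
        = pd a (pd 0 (wv q : V (l + 3) → ℝ)) 0 ^ 2 + pd a (pd 1 (wv q : V (l + 3) → ℝ)) 0 ^ 2
          + pd a (pd 2 (wv q : V (l + 3) → ℝ)) 0 ^ 2 := fun a =>
      sum_three _ fun b => by rw [pd_pd_wv3]; ring
    simp_rw [h1]
    rw [sum_three _ fun a => by rw [A30_eq, A31_eq, A32_eq]; ring, A00_eq, A01_eq, A02_eq, A10_eq,
      A11_eq, A12_eq, A20_eq, A21_eq, A22_eq]
  rw [sig2, lap_wv, h, s2q, s2P]
  ring

theorem tau_wv (q : ℝ × ℝ × ℝ) : tau (wv q : V (l + 3) → ℝ) 0 = tauq q := by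
  have h0 : ∀ a, ∑ b, pd a (pd b (wv q : V (l + 3) → ℝ)) 0 * pd b (wv q : V (l + 3) → ℝ) 0
      = pd a (pd 0 (wv q : V (l + 3) → ℝ)) 0 * pd 0 (wv q : V (l + 3) → ℝ) 0
        + pd a (pd 1 (wv q : V (l + 3) → ℝ)) 0 * pd 1 (wv q : V (l + 3) → ℝ) 0
        + pd a (pd 2 (wv q : V (l + 3) → ℝ)) 0 * pd 2 (wv q : V (l + 3) → ℝ) 0 := fun a =>
    sum_three _ fun b => by rw [pd_pd_wv3]; ring
  have h2 : ∑ a, (∑ b, pd a (pd b (wv q : V (l + 3) → ℝ)) 0 * pd b (wv q : V (l + 3) → ℝ) 0) ^ 2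
      = u0P (cos q.1) (sin q.1) (cos q.2.1) (sin q.2.1) (cos q.2.2) (sin q.2.2) ^ 2
        + u1P (cos q.1) (sin q.1) (cos q.2.1) (sin q.2.1) (cos q.2.2) (sin q.2.2) ^ 2
        + u2P (cos q.1) (sin q.1) (cos q.2.1) (sin q.2.1) (cos q.2.2) (sin q.2.2) ^ 2 := by
    simp_rw [h0]
    rw [sum_three _ fun a => by rw [A30_eq, A31_eq, A32_eq]; ring, A00_eq, A01_eq, A02_eq, A10_eq,
      A11_eq, A12_eq, A20_eq, A21_eq, A22_eq, g0_eq, g1_eq, g2_eq, u0P, u1P, u2P]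
    ring
  have h3 : ∑ a, ∑ b, pd a (pd b (wv q : V (l + 3) → ℝ)) 0 * pd a (wv q : V (l + 3) → ℝ) 0
        * pd b (wv q : V (l + 3) → ℝ) 0
      = g0P (cos q.1) (sin q.1) (cos q.2.1) (cos q.2.2) *
          u0P (cos q.1) (sin q.1) (cos q.2.1) (sin q.2.1) (cos q.2.2) (sin q.2.2)
        + g1P (cos q.1) (sin q.2.1) *
          u1P (cos q.1) (sin q.1) (cos q.2.1) (sin q.2.1) (cos q.2.2) (sin q.2.2)
        + g2P (sin q.1) (sin q.2.2) *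
          u2P (cos q.1) (sin q.1) (cos q.2.1) (sin q.2.1) (cos q.2.2) (sin q.2.2) := by
    have h4 : ∀ a, ∑ b, pd a (pd b (wv q : V (l + 3) → ℝ)) 0 * pd a (wv q : V (l + 3) → ℝ) 0
        * pd b (wv q : V (l + 3) → ℝ) 0 = pd a (wv q : V (l + 3) → ℝ) 0 *
        ∑ b, pd a (pd b (wv q : V (l + 3) → ℝ)) 0 * pd b (wv q : V (l + 3) → ℝ) 0 := by
      intro a
      rw [Finset.mul_sum]
      exact Finset.sum_congr rfl fun b _ => by ring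
    simp_rw [h4, h0]
    rw [sum_three _ fun a => by rw [g3_eq]; ring, A00_eq, A01_eq, A02_eq, A10_eq,
      A11_eq, A12_eq, A20_eq, A21_eq, A22_eq, g0_eq, g1_eq, g2_eq, u0P, u1P, u2P]
    ring
  rw [tau, lap_wv, h2, h3, tauq, tauP]

end

end Pool.Agent.H791.GBC
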